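import Pool.Agent.Lib.MP_69b2e4_nt.Mg.G006
import Pool.Agent.Lib.MP_69b2e4_nt.Mg.G005
import Pool.Agent.Lib.MP_69b2e4_nt.Mg.G040
import Pool.Agent.Lib.MP_69b2e4_nt.Mg.G041

/-! TASK R4. The expectation with the whole weight, one lemma for all moments. (COPY UH/R4.lean and extend it.) Write `u_p = p^{-1/2}`, `L = log T ≥ 1`.
The blocks `R_j` (`j ≤ J`) and `R_{J+1} := primesBelow (MM T) \ S.P` are pairwise disjoint with union `primesBelow (MM T)` (`BGood.prime`, `BGood.disj`, `M1 T ≤ MM T`). `PS (R j) (nX (-h) w) = ∑ e_p X_p`, `PS (R j) (cj (nX (conj h) w)) = ∑ e'_p conj X_p` with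
`e_p = p^{-(1/2-h)}`, `e'_p = conj (p^{-(1/2+conj h)}) = p^{-(1/2+h)}` (`nX_apply`, `XX_prime`), `‖e_p‖, ‖e'_p‖ ≤ u_p p^{‖h‖} ≤ e u_p ≤ 4 u_p` (`p < MM T ≤ T`, `‖h‖ ≤ 1/L`). Independence (`indep_blocks`, `depends_..` of GH/Part.lean) and `block4` for `j ≤ J`, `main_block4` with `al = 0` for the last block:
the expectation is at most `exp(∑_{p∈P} ‖u - b + d + al c_p‖² + ∑_{p∉P} ‖u - b + d‖² + C₀ ∑_{p} p^{-2}) ∏_{j≤J} (1 + 2^{-l'_j} exp(C₀(s_j+1)))`, `c_p = (e_p + conj e'_p)/2 = ccp h p`; the product is `≤ e` (`BGood.trunc`, `l'_j ≥ cc lam l_j`, `C ≥ C₀`), `∑_p p^{-2} ≤ 2`.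
For `p ∈ P`: `‖u - b + d + al c_p‖ ≤ (lam + D_p) u_p` by the hypothesis, `(lam + D_p)² ≤ lam² + 7 D_p` (`lam ≤ 1`, `D_p ≤ 5`), so the sum over `P` is `≤ lam² ∑_P 1/p + 7 V ≤ lam² (log L + D) + 7V` (`sum_P` of UH/R5.lean). For `p ∉ P`: `‖u - b + d‖² ≤ 9/p` and
`∑_{p ∈ primesBelow (MM T) \ P} 1/p ≤ D + ∑_{M1 T ≤ p < MM T} 1/p ≤ D + C₁` (`BGood.out`; `mertens_inv`: `log(log MM/log M1) ≤ log 6 + ..`, for `T ≥ T0`; for bounded `T` there are finitely many primes, or choose `T0` absolute and put it into the statement). So `K = exp(D + 9(D + C₁) + 2C₀ + 1)`. -/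

set_option autoImplicit false

namespace Pool.Agent.UV

open Complex MeasureTheory Finset Pool.Agent.GH Pool.Agent.UH
open scoped Real ComplexConjugate

/-- the coefficient `c_p = (p^{-1/2+h} + p^{-1/2-conj h})/2` -/
noncomputable def ccp (h : ℂ) (p : ℕ) : ℂ :=
  ((p : ℂ) ^ (-(1 / 2 - h)) + (p : ℂ) ^ (-(1 / 2 + conj h))) / 2

private theorem R4_sq (p : ℕ) : ((p : ℝ) ^ (-(1 / 2) : ℝ)) ^ 2 = 1 / (p : ℝ) := by
  rw [← Real.rpow_natCast, ← Real.rpow_mul (Nat.cast_nonneg p)]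
  rw [show (-(1 / 2) : ℝ) * ((2 : ℕ) : ℝ) = -1 by norm_num, Real.rpow_neg_one, one_div]

private theorem R4_M1_le {T : ℝ} (hT : 1 ≤ T) : M1 T ≤ MM T := by
  unfold M1 MM Mof
  have h1 : T ^ (1 / 5 : ℝ) ≤ T ^ (1 / 2 : ℝ) := Real.rpow_le_rpow_of_exponent_le hT (by norm_num)
  have h2 := Nat.floor_le_floor h1
  omega

private theorem R4_exists : ∃ C1 : ℝ, 0 ≤ C1 ∧ ∀ T : ℝ, 1024 ≤ T →
    ∑ p ∈ (Nat.primesBelow (MM T)).filter (fun p => M1 T ≤ p), 1 / (p : ℝ) ≤ C1 := by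
  obtain ⟨C, hC0, hC⟩ := mertens_inv
  have hlog2 : 0 < Real.log 2 := Real.log_pos (by norm_num)
  refine ⟨2 + C / Real.log 2, by positivity, ?_⟩
  intro T hT
  have hT0 : (0 : ℝ) < T := by linarith
  have hT1 : (1 : ℝ) ≤ T := by linarith
  obtain ⟨a, ha⟩ : ∃ a : ℝ, a = T ^ (1 / 10 : ℝ) := ⟨_, rfl⟩
  have ha2 : (2 : ℝ) ≤ a := by
    rw [ha]
    calc (2 : ℝ) = (1024 : ℝ) ^ (1 / 10 : ℝ) := by
          rw [show (1024 : ℝ) = 2 ^ (10 : ℝ) by norm_num, ← Real.rpow_mul (by norm_num)]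
          norm_num
      _ ≤ T ^ (1 / 10 : ℝ) := Real.rpow_le_rpow (by norm_num) hT (by norm_num)
  have ha5 : T ^ (1 / 5 : ℝ) = a * a := by
    rw [ha, ← Real.rpow_add hT0]
    norm_num
  obtain ⟨y, hy⟩ : ∃ y : ℕ, y = ⌊T ^ (1 / 5 : ℝ)⌋₊ := ⟨_, rfl⟩
  obtain ⟨z, hz⟩ : ∃ z : ℕ, z = ⌊T ^ (1 / 2 : ℝ)⌋₊ := ⟨_, rfl⟩
  have hya : a ≤ (y : ℝ) := by
    have h1 : T ^ (1 / 5 : ℝ) < (y : ℝ) + 1 := by
      rw [hy]
      exact Nat.lt_floor_add_one _
    rw [ha5] at h1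
    nlinarith
  have hy2 : 2 ≤ y := by
    have : (2 : ℝ) ≤ (y : ℝ) := ha2.trans hya
    exact_mod_cast this
  have hyz : y ≤ z := by
    rw [hy, hz]
    exact Nat.floor_le_floor (Real.rpow_le_rpow_of_exponent_le hT1 (by norm_num))
  have hM1 : M1 T = y + 1 := by
    rw [hy]
    rfl
  have hMM : MM T = z + 1 := by
    rw [hz]
    rfl
  have hset : (Nat.primesBelow (MM T)).filter (fun p => M1 T ≤ p) =
      (Finset.Ioc y z).filter Nat.Prime := by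
    ext p
    rw [Finset.mem_filter, Nat.mem_primesBelow, Finset.mem_filter, Finset.mem_Ioc, hM1, hMM]
    constructor
    · rintro ⟨⟨h1, h2⟩, h3⟩
      exact ⟨⟨by omega, by omega⟩, h2⟩
    · rintro ⟨⟨h1, h2⟩, h3⟩
      exact ⟨⟨by omega, h3⟩, by omega⟩
  rw [hset]
  have h1 := (abs_le.1 (hC y z hy2 hyz)).2
  have hlogy : Real.log T / 10 ≤ Real.log y := by
    have h2 : Real.log a ≤ Real.log y := Real.log_le_log (by linarith) hya
    rw [ha, Real.log_rpow hT0] at h2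
    linarith
  have hlogT : 0 < Real.log T := Real.log_pos (by linarith)
  have hlogy0 : 0 < Real.log y := by
    refine lt_of_lt_of_le ?_ hlogy
    positivity
  have hlogz : Real.log z ≤ Real.log T / 2 := by
    have hz0 : (0 : ℝ) < z := by
      have : 0 < z := by omega
      exact_mod_cast this
    have h2 : (z : ℝ) ≤ T ^ (1 / 2 : ℝ) := by
      rw [hz]
      exact Nat.floor_le (by positivity)
    have h3 := Real.log_le_log hz0 h2
    rw [Real.log_rpow hT0] at h3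
    linarith
  have hratio : Real.log z / Real.log y ≤ 5 := by
    rw [div_le_iff₀ hlogy0]
    linarith
  have hratio0 : 0 < Real.log z / Real.log y := by
    refine div_pos ?_ hlogy0
    refine lt_of_lt_of_le hlogy0 ?_
    exact Real.log_le_log (by linarith) (by exact_mod_cast hyz)
  have h5 : Real.log (Real.log z / Real.log y) ≤ 2 := by
    refine (Real.log_le_log hratio0 hratio).trans ?_
    rw [Real.log_le_iff_le_exp (by norm_num)]
    have h6 : Real.exp 2 = Real.exp 1 * Real.exp 1 := by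
      rw [← Real.exp_add]
      norm_num
    have h7 := Real.exp_one_gt_d9
    rw [h6]
    nlinarith
  have h6 : C / Real.log y ≤ C / Real.log 2 := by
    refine div_le_div_of_nonneg_left hC0 hlog2 ?_
    exact Real.log_le_log (by norm_num) (by exact_mod_cast hy2)
  linarith

private theorem R4_norm_e {T : ℝ} (hT : Real.exp 1 ≤ T) {h : ℂ} (hh : ‖h‖ ≤ 1 / Real.log T) {p : ℕ}
    (hp : p ∈ Nat.primesBelow (MM T)) : ‖(p : ℂ) ^ (-(1 / 2 - h))‖ ≤ 4 * (p : ℝ) ^ (-(1 / 2) : ℝ) ∧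
      ‖(p : ℂ) ^ (-(1 / 2 + conj h))‖ ≤ 4 * (p : ℝ) ^ (-(1 / 2) : ℝ) := by
  have hp' := Nat.mem_primesBelow.1 hp
  have hT1 : (1 : ℝ) ≤ T := by
    have := Real.add_one_le_exp (1 : ℝ)
    linarith
  have hT0 : (0 : ℝ) < T := by linarith
  have hL : 1 ≤ Real.log T := by
    rw [Real.le_log_iff_exp_le hT0]
    exact hT
  have hp0 : (0 : ℝ) < p := by exact_mod_cast hp'.2.pos
  have hp1 : (1 : ℝ) ≤ p := by exact_mod_cast hp'.2.one_lt.le
  have hpT : (p : ℝ) ≤ T := by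
    have h1 : p ≤ ⌊T ^ (1 / 2 : ℝ)⌋₊ := by
      have := hp'.1
      unfold MM Mof at this
      omega
    have h2 : (p : ℝ) ≤ T ^ (1 / 2 : ℝ) := (Nat.le_floor_iff (by positivity)).1 h1
    refine h2.trans ?_
    calc T ^ (1 / 2 : ℝ) ≤ T ^ (1 : ℝ) := Real.rpow_le_rpow_of_exponent_le hT1 (by norm_num)
      _ = T := Real.rpow_one T
  have key : ∀ r : ℝ, |r| ≤ ‖h‖ → (p : ℝ) ^ r ≤ 4 := by
    intro r hr
    calc (p : ℝ) ^ r = Real.exp (Real.log p * r) := Real.rpow_def_of_pos hp0 r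
      _ ≤ Real.exp 1 := by
          refine Real.exp_le_exp.2 ?_
          have h1 : 0 ≤ Real.log p := Real.log_nonneg hp1
          have h2 : Real.log p ≤ Real.log T := Real.log_le_log hp0 hpT
          calc Real.log p * r ≤ Real.log p * |r| := mul_le_mul_of_nonneg_left (le_abs_self r) h1
            _ ≤ Real.log T * (1 / Real.log T) :=
                mul_le_mul h2 (hr.trans hh) (abs_nonneg r) (by linarith)
            _ = 1 := by
                rw [mul_one_div, div_self (by linarith)]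
      _ ≤ 4 := by
          have := Real.exp_one_lt_d9
          linarith
  constructor
  · rw [Complex.norm_natCast_cpow_of_pos hp'.2.pos]
    have h1 : (-(1 / 2 - h)).re = h.re + (-(1 / 2) : ℝ) := by
      simp
      ring
    rw [h1, Real.rpow_add hp0]
    exact mul_le_mul_of_nonneg_right (key _ (Complex.abs_re_le_norm h)) (by positivity)
  · rw [Complex.norm_natCast_cpow_of_pos hp'.2.pos]
    have h1 : (-(1 / 2 + conj h)).re = -h.re + (-(1 / 2) : ℝ) := by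
      simp
    rw [h1, Real.rpow_add hp0]
    refine mul_le_mul_of_nonneg_right (key _ ?_) (by positivity)
    rw [abs_neg]
    exact Complex.abs_re_le_norm h

theorem full4 : ∃ C0 : ℝ, ∀ D : ℝ, ∃ K T0 : ℝ, 1 ≤ K ∧ ∀ {S : BS} {lam C ε : ℝ} {N0 : ℕ}, C0 ≤ C →
    T0 ≤ S.T → BG S lam C N0 D ε → ∀ (b d : ℕ → ℂ) (al V : ℝ) (l' : ℕ → ℕ) (h : ℂ) (Dp : ℕ → ℝ),
    (∀ p ∈ Nat.primesBelow (MM S.T), ‖b p‖ ≤ (p : ℝ) ^ (-(1 / 2) : ℝ)) →
    (∀ p ∈ Nat.primesBelow (MM S.T), ‖d p‖ ≤ (p : ℝ) ^ (-(1 / 2) : ℝ)) →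
    (∀ p ∈ Nat.primesBelow (MM S.T), 0 ≤ Dp p ∧ Dp p ≤ 5 ∧
      ‖(((p : ℝ) ^ (-(1 / 2) : ℝ) : ℝ) : ℂ) - b p + d p + al * ccp h p -
        lam * (((p : ℝ) ^ (-(1 / 2) : ℝ) : ℝ) : ℂ)‖ ≤ Dp p * (p : ℝ) ^ (-(1 / 2) : ℝ)) →
    ∑ p ∈ Nat.primesBelow (MM S.T), Dp p / p ≤ V → |al| ≤ 1 → (∀ j ≤ S.J, cc lam * S.l j ≤ l' j) →
    ‖h‖ ≤ 1 / Real.log S.T →
    ∫ w, ‖Zt (Nat.primesBelow (MM S.T)) (1 / 2) w‖ ^ 2 *
      (∏ p ∈ Nat.primesBelow (MM S.T), ‖1 - b p * X p w‖ ^ 2) *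
      (∏ p ∈ Nat.primesBelow (MM S.T), ‖(1 - d p * X p w)⁻¹‖ ^ 2) *
      ‖W2 S al l' (nX (-h) w) (cj (nX (conj h) w))‖ ^ 2 ∂mu ≤
    K * Real.exp (7 * V) * Real.log S.T ^ (lam ^ 2) := by
  classical
  obtain ⟨Cm, hCm0, hCm⟩ := main_block4
  obtain ⟨Cb, hCb0, hCb⟩ := block4
  obtain ⟨C1, hC10, hC1⟩ := R4_exists
  have hC00 : 0 ≤ max Cm Cb := hCm0.trans (le_max_left _ _)
  refine ⟨max Cm Cb, fun D => ⟨Real.exp (|D| + 9 * (|D| + C1) + 2 * max Cm Cb + 1), 1024, ?_, ?_⟩⟩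
  · refine Real.one_le_exp ?_
    have := abs_nonneg D
    linarith
  intro S lam C ε N0 hC hTT hBG b d al V l' h Dp hb hd hDp hV hal hl' hh
  have hB : BGood S lam C N0 D := hBG.1
  set C0 : ℝ := max Cm Cb with hC0
  have hCmC : Cm ≤ C0 := le_max_left _ _
  have hCbC : Cb ≤ C0 := le_max_right _ _
  have hT1 : (1 : ℝ) ≤ S.T := by linarith
  have hL : 1 ≤ Real.log S.T := by
    rw [Real.le_log_iff_exp_le (lt_of_lt_of_le (Real.exp_pos 1) hB.T_ge)]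
    exact hB.T_ge
  have hMle : M1 S.T ≤ MM S.T := R4_M1_le hT1
  obtain ⟨PB, hPB⟩ : ∃ PB, PB = Nat.primesBelow (MM S.T) := ⟨_, rfl⟩
  rw [← hPB] at hb hd hDp hV ⊢
  obtain ⟨rest, hrest⟩ : ∃ rest, rest = PB \ S.P := ⟨_, rfl⟩
  have hRp : ∀ j ∈ range (S.J + 1), ∀ p ∈ S.R j, p ∈ PB := by
    intro j hj p hp
    have h1 := hB.prime j (by rw [Finset.mem_range] at hj; omega) p hp
    rw [hPB]
    exact Nat.mem_primesBelow.2 ⟨h1.2.1.trans_le hMle, h1.1⟩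
  have hrp : ∀ p ∈ rest, p ∈ PB := by
    intro p hp
    rw [hrest] at hp
    exact (Finset.mem_sdiff.1 hp).1
  have hPsub : S.P ⊆ PB := by
    intro p hp
    obtain ⟨j, hj, hpj⟩ := Finset.mem_biUnion.1 hp
    exact hRp j hj p hpj
  have hPrest : Disjoint S.P rest := by
    rw [hrest]
    exact Finset.disjoint_sdiff
  have hun : PB = S.P ∪ rest := by
    rw [hrest, Finset.union_sdiff_of_subset hPsub]
  have hPD : (↑(range (S.J + 1)) : Set ℕ).PairwiseDisjoint S.R := by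
    intro i hi j hj hij
    have hi' := Finset.mem_range.1 (Finset.mem_coe.1 hi)
    have hj' := Finset.mem_range.1 (Finset.mem_coe.1 hj)
    exact hB.disj i (by omega) j (by omega) hij
  have hsumP : ∀ f : ℕ → ℝ, ∑ p ∈ S.P, f p = ∑ j ∈ range (S.J + 1), ∑ p ∈ S.R j, f p := by
    intro f
    unfold BS.P
    exact Finset.sum_biUnion hPD
  have hprodR : ∀ f : ℕ → ℝ, ∏ p ∈ PB, f p =
      (∏ j ∈ range (S.J + 1), ∏ p ∈ S.R j, f p) * ∏ p ∈ rest, f p := by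
    intro f
    rw [hun, Finset.prod_union hPrest]
    unfold BS.P
    rw [Finset.prod_biUnion hPD]
  have hprodC : ∀ f : ℕ → ℂ, ∏ p ∈ PB, f p =
      (∏ j ∈ range (S.J + 1), ∏ p ∈ S.R j, f p) * ∏ p ∈ rest, f p := by
    intro f
    rw [hun, Finset.prod_union hPrest]
    unfold BS.P
    rw [Finset.prod_biUnion hPD]
  have hprime : ∀ p ∈ PB, p.Prime := fun p hp => by
    rw [hPB] at hp
    exact (Nat.mem_primesBelow.1 hp).2
  -- the coefficients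
  obtain ⟨e, he⟩ : ∃ e : ℕ → ℂ, ∀ p, e p = (p : ℂ) ^ (-(1 / 2 - h)) := ⟨_, fun _ => rfl⟩
  obtain ⟨e', he'⟩ : ∃ e' : ℕ → ℂ, ∀ p, e' p = conj ((p : ℂ) ^ (-(1 / 2 + conj h))) :=
    ⟨_, fun _ => rfl⟩
  have hcc : ∀ p, (e p + conj (e' p)) / 2 = ccp h p := by
    intro p
    rw [he, he', Complex.conj_conj]
    rfl
  have hen : ∀ p ∈ PB, ‖e p‖ ≤ 4 * (p : ℝ) ^ (-(1 / 2) : ℝ) := by
    intro p hp
    rw [he]
    rw [hPB] at hp
    exact (R4_norm_e hB.T_ge hh hp).1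
  have hen' : ∀ p ∈ PB, ‖e' p‖ ≤ 4 * (p : ℝ) ^ (-(1 / 2) : ℝ) := by
    intro p hp
    rw [he', Complex.norm_conj]
    rw [hPB] at hp
    exact (R4_norm_e hB.T_ge hh hp).2
  -- the arguments of the truncated exponentials
  obtain ⟨x, hx⟩ : ∃ x : ℕ → Om → ℂ, ∀ j w, x j w =
      ((∑ p ∈ S.R j, e p * X p w) + ∑ p ∈ S.R j, e' p * conj (X p w)) / 2 := ⟨_, fun _ _ => rfl⟩
  have hW : ∀ w, W2 S al l' (nX (-h) w) (cj (nX (conj h) w)) =
      ∏ j ∈ range (S.J + 1), Ex (l' j) (al * x j w) := by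
    intro w
    unfold W2
    refine Finset.prod_congr rfl fun j hj => ?_
    have h1 : PS (S.R j) (nX (-h) w) = ∑ p ∈ S.R j, e p * X p w := by
      unfold PS
      refine Finset.sum_congr rfl fun p hp => ?_
      have hpp := hprime p (hRp j hj p hp)
      rw [nX_apply _ w hpp.ne_zero, XX_prime w hpp, he, ← sub_eq_add_neg]
    have h2 : PS (S.R j) (cj (nX (conj h) w)) = ∑ p ∈ S.R j, e' p * conj (X p w) := by
      unfold PS
      refine Finset.sum_congr rfl fun p hp => ?_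
      have hpp := hprime p (hRp j hj p hp)
      change conj (nX (conj h) w p) = _
      rw [nX_apply _ w hpp.ne_zero, XX_prime w hpp, he', map_mul]
    rw [h1, h2, hx]
  -- the factors
  obtain ⟨g, hg⟩ : ∃ g : ℕ → Om → ℝ, ∀ j w, g j w = ‖Zt (S.R j) (1 / 2) w‖ ^ 2 *
      (∏ p ∈ S.R j, ‖1 - b p * X p w‖ ^ 2) * (∏ p ∈ S.R j, ‖(1 - d p * X p w)⁻¹‖ ^ 2) *
      ‖Ex (l' j) (al * x j w)‖ ^ 2 := ⟨_, fun _ _ => rfl⟩
  obtain ⟨gf, hgf⟩ : ∃ gf : Om → ℝ, ∀ w, gf w = ‖Zt rest (1 / 2) w‖ ^ 2 *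
      (∏ p ∈ rest, ‖1 - b p * X p w‖ ^ 2) * ∏ p ∈ rest, ‖(1 - d p * X p w)⁻¹‖ ^ 2 :=
    ⟨_, fun _ => rfl⟩
  obtain ⟨F, hF⟩ : ∃ F : ℕ → Om → ℝ, ∀ i, F i = if i < S.J + 1 then g i else gf := ⟨_, fun _ => rfl⟩
  obtain ⟨Q, hQ⟩ : ∃ Q : ℕ → Finset ℕ, ∀ i, Q i = if i < S.J + 1 then S.R i else rest :=
    ⟨_, fun _ => rfl⟩
  have hint : ∀ w, ‖Zt PB (1 / 2) w‖ ^ 2 * (∏ p ∈ PB, ‖1 - b p * X p w‖ ^ 2) *
      (∏ p ∈ PB, ‖(1 - d p * X p w)⁻¹‖ ^ 2) *
      ‖W2 S al l' (nX (-h) w) (cj (nX (conj h) w))‖ ^ 2 = ∏ i ∈ range (S.J + 2), F i w := by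
    intro w
    rw [Finset.prod_range_succ, hF (S.J + 1), if_neg (lt_irrefl _)]
    have h1 : ∏ i ∈ range (S.J + 1), F i w = ∏ i ∈ range (S.J + 1), g i w := by
      refine Finset.prod_congr rfl fun i hi => ?_
      rw [hF i, if_pos (Finset.mem_range.1 hi)]
    rw [h1]
    have h2 : Zt PB (1 / 2) w =
        (∏ j ∈ range (S.J + 1), Zt (S.R j) (1 / 2) w) * Zt rest (1 / 2) w := by
      unfold Zt
      exact hprodC _
    have h3 : ∏ i ∈ range (S.J + 1), g i w = (∏ i ∈ range (S.J + 1), ‖Zt (S.R i) (1 / 2) w‖ ^ 2) *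
        (∏ i ∈ range (S.J + 1), ∏ p ∈ S.R i, ‖1 - b p * X p w‖ ^ 2) *
        (∏ i ∈ range (S.J + 1), ∏ p ∈ S.R i, ‖(1 - d p * X p w)⁻¹‖ ^ 2) *
        ∏ i ∈ range (S.J + 1), ‖Ex (l' i) (al * x i w)‖ ^ 2 := by
      rw [← Finset.prod_mul_distrib, ← Finset.prod_mul_distrib, ← Finset.prod_mul_distrib]
      exact Finset.prod_congr rfl fun i _ => hg i w
    have h4 : ‖W2 S al l' (nX (-h) w) (cj (nX (conj h) w))‖ ^ 2 =
        ∏ i ∈ range (S.J + 1), ‖Ex (l' i) (al * x i w)‖ ^ 2 := by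
      rw [hW, norm_prod, Finset.prod_pow]
    have h5 : (∏ i ∈ range (S.J + 1), ‖Zt (S.R i) (1 / 2) w‖) ^ 2 =
        ∏ i ∈ range (S.J + 1), ‖Zt (S.R i) (1 / 2) w‖ ^ 2 := (Finset.prod_pow _ _ _).symm
    rw [h2, hprodR, hprodR, h3, h4, norm_mul, norm_prod, mul_pow, hgf, h5]
    ring
  -- continuity
  have hcX : ∀ R : Finset ℕ, Continuous fun w => ∏ p ∈ R, ‖1 - b p * X p w‖ ^ 2 := by
    intro R
    refine continuous_finsetProd _ fun p _ => ?_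
    have := continuous_X p
    fun_prop
  have hdne : ∀ p ∈ PB, ∀ w, 1 - d p * X p w ≠ 0 := by
    intro p hp w h0
    have h1 : ‖d p * X p w‖ = 1 := by
      have : d p * X p w = 1 := by linear_combination -h0
      rw [this]
      simp
    rw [norm_mul, norm_X, mul_one] at h1
    have h2 := hd p hp
    have h3 := rpow_neg_lt_one (hprime p hp).two_le (show (0 : ℝ) < 1 / 2 by norm_num)
    rw [h1] at h2
    linarith
  have hcY : ∀ R : Finset ℕ, (∀ p ∈ R, p ∈ PB) →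
      Continuous fun w => ∏ p ∈ R, ‖(1 - d p * X p w)⁻¹‖ ^ 2 := by
    intro R hR
    refine continuous_finsetProd _ fun p hp => ?_
    have h1 := continuous_X p
    have h2 : Continuous fun w => (1 - d p * X p w)⁻¹ :=
      Continuous.inv₀ (continuous_const.sub (continuous_const.mul h1)) (hdne p (hR p hp))
    exact h2.norm.pow 2
  have hcx : ∀ j, Continuous (x j) := by
    intro j
    have e1 : x j = fun w =>
      ((∑ p ∈ S.R j, e p * X p w) + ∑ p ∈ S.R j, e' p * conj (X p w)) / 2 := funext (hx j)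
    rw [e1]
    have h1 : Continuous fun w => ∑ p ∈ S.R j, e p * X p w :=
      continuous_finsetSum _ fun p _ => continuous_const.mul (continuous_X p)
    have h2 : Continuous fun w => ∑ p ∈ S.R j, e' p * conj (X p w) :=
      continuous_finsetSum _ fun p _ =>
        continuous_const.mul (Complex.continuous_conj.comp (continuous_X p))
    exact (h1.add h2).div_const _
  have hcg : ∀ j ∈ range (S.J + 1), Continuous (g j) := by
    intro j hj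
    have e1 : g j = fun w => ‖Zt (S.R j) (1 / 2) w‖ ^ 2 *
      (∏ p ∈ S.R j, ‖1 - b p * X p w‖ ^ 2) * (∏ p ∈ S.R j, ‖(1 - d p * X p w)⁻¹‖ ^ 2) *
      ‖Ex (l' j) (al * x j w)‖ ^ 2 := funext (hg j)
    rw [e1]
    have h1 : Continuous (Zt (S.R j) (1 / 2)) :=
      continuous_Zt (S.R j) (fun p hp => hprime p (hRp j hj p hp)) (by norm_num)
    have h2 : Continuous fun w => Ex (l' j) (al * x j w) :=
      (continuous_Ex (l' j)).comp (continuous_const.mul (hcx j))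
    exact (((h1.norm.pow 2).mul (hcX _)).mul (hcY _ (hRp j hj))).mul (h2.norm.pow 2)
  have hcgf : Continuous gf := by
    have e1 : gf = fun w => ‖Zt rest (1 / 2) w‖ ^ 2 * (∏ p ∈ rest, ‖1 - b p * X p w‖ ^ 2) *
      ∏ p ∈ rest, ‖(1 - d p * X p w)⁻¹‖ ^ 2 := funext hgf
    rw [e1]
    have h1 : Continuous (Zt rest (1 / 2)) :=
      continuous_Zt rest (fun p hp => hprime p (hrp p hp)) (by norm_num)
    exact ((h1.norm.pow 2).mul (hcX _)).mul (hcY _ hrp)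
  -- independence
  have hind : ∫ w, ∏ i ∈ range (S.J + 2), F i w ∂mu = ∏ i ∈ range (S.J + 2), ∫ w, F i w ∂mu := by
    refine indep_blocks (range (S.J + 2)) Q ?_ F ?_ ?_
    · intro i hi j hj hij
      have hi' := Finset.mem_range.1 hi
      have hj' := Finset.mem_range.1 hj
      have hd : ∀ i, i < S.J + 1 → Disjoint (S.R i) rest := fun i hi =>
        Finset.disjoint_of_subset_left (Finset.subset_biUnion_of_mem S.R (Finset.mem_range.2 hi)) hPrest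
      rw [hQ i, hQ j]
      by_cases h1 : i < S.J + 1
      · by_cases h2 : j < S.J + 1
        · rw [if_pos h1, if_pos h2]
          exact hB.disj i (by omega) j (by omega) hij
        · rw [if_pos h1, if_neg h2]
          exact hd i h1
      · by_cases h2 : j < S.J + 1
        · rw [if_neg h1, if_pos h2]
          exact (hd j h2).symm
        · exact absurd (by omega) hij
    · intro i hi
      rw [hF i]
      by_cases h1 : i < S.J + 1
      · rw [if_pos h1]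
        exact (hcg i (Finset.mem_range.2 h1)).measurable
      · rw [if_neg h1]
        exact hcgf.measurable
    · intro i hi w w' hww
      rw [hQ i] at hww
      rw [hF i]
      have hXe : ∀ R : Finset ℕ, (∀ p ∈ R, w p = w' p) → ∀ p ∈ R, X p w = X p w' := by
        intro R hR p hp
        unfold X
        rw [hR p hp]
      have hXd : ∀ R : Finset ℕ, (∀ p ∈ R, w p = w' p) →
          ∏ p ∈ R, ‖1 - b p * X p w‖ ^ 2 = ∏ p ∈ R, ‖1 - b p * X p w'‖ ^ 2 := by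
        intro R hR
        refine Finset.prod_congr rfl fun p hp => ?_
        rw [hXe R hR p hp]
      have hYd : ∀ R : Finset ℕ, (∀ p ∈ R, w p = w' p) →
          ∏ p ∈ R, ‖(1 - d p * X p w)⁻¹‖ ^ 2 = ∏ p ∈ R, ‖(1 - d p * X p w')⁻¹‖ ^ 2 := by
        intro R hR
        refine Finset.prod_congr rfl fun p hp => ?_
        rw [hXe R hR p hp]
      by_cases h1 : i < S.J + 1
      · rw [if_pos h1] at hww ⊢
        have h2 : x i w = x i w' := by
          rw [hx, hx]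
          congr 2
          · exact Finset.sum_congr rfl fun p hp => by rw [hXe _ hww p hp]
          · exact Finset.sum_congr rfl fun p hp => by rw [hXe _ hww p hp]
        rw [hg, hg, hXd _ hww, hYd _ hww, depends_Zt (1 / 2) hww, h2]
      · rw [if_neg h1] at hww ⊢
        rw [hgf, hgf, hXd _ hww, hYd _ hww, depends_Zt (1 / 2) hww]
  simp_rw [hint]
  rw [hind, Finset.prod_range_succ, hF (S.J + 1), if_neg (lt_irrefl _)]
  have hgnn : ∀ j w, 0 ≤ g j w := by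
    intro j w
    rw [hg]
    positivity
  have hgfnn : ∀ w, 0 ≤ gf w := by
    intro w
    rw [hgf]
    positivity
  -- the bounds
  obtain ⟨t, ht⟩ : ∃ t : ℕ → ℝ, ∀ j, t j =
      (2 : ℝ)⁻¹ ^ (cc lam * S.l j) * Real.exp (C * (sR (S.R j) + 1)) := ⟨_, fun _ => rfl⟩
  have ht0 : ∀ j, 0 ≤ t j := by
    intro j
    rw [ht]
    positivity
  obtain ⟨q, hq⟩ : ∃ q : ℕ → ℝ, ∀ p, q p = ‖(((p : ℝ) ^ (-(1 / 2) : ℝ) : ℝ) : ℂ) - b p + d p +
      al * ccp h p‖ ^ 2 := ⟨_, fun _ => rfl⟩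
  obtain ⟨q', hq'⟩ : ∃ q' : ℕ → ℝ, ∀ p, q' p = ‖(((p : ℝ) ^ (-(1 / 2) : ℝ) : ℝ) : ℂ) - b p + d p‖ ^ 2 :=
    ⟨_, fun _ => rfl⟩
  have hb1 : ∀ j ∈ range (S.J + 1), ∫ w, g j w ∂mu ≤
      Real.exp (∑ p ∈ S.R j, q p + C0 * ∑ p ∈ S.R j, (p : ℝ) ^ (-2 : ℝ)) * (1 + t j) := by
    intro j hj
    have hj' : j ≤ S.J := by
      rw [Finset.mem_range] at hj
      omega
    have h1 := hCb (S.R j) b d e e' al (l' j) (fun p hp => hprime p (hRp j hj p hp))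
      (fun p hp => hb p (hRp j hj p hp)) (fun p hp => hd p (hRp j hj p hp))
      (fun p hp => hen p (hRp j hj p hp)) (fun p hp => hen' p (hRp j hj p hp)) hal
    have e1 : ∀ w, g j w = ‖Zt (S.R j) (1 / 2) w‖ ^ 2 *
      (∏ p ∈ S.R j, ‖1 - b p * X p w‖ ^ 2) * (∏ p ∈ S.R j, ‖(1 - d p * X p w)⁻¹‖ ^ 2) *
      ‖Ex (l' j) (al * (((∑ p ∈ S.R j, e p * X p w) +
        ∑ p ∈ S.R j, e' p * conj (X p w)) / 2))‖ ^ 2 := by
      intro w
      rw [hg, hx]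
    simp_rw [e1]
    refine h1.trans ?_
    have e2 : ∑ p ∈ S.R j, ‖(((p : ℝ) ^ (-(1 / 2) : ℝ) : ℝ) : ℂ) - b p + d p +
        al * ((e p + conj (e' p)) / 2)‖ ^ 2 = ∑ p ∈ S.R j, q p := by
      refine Finset.sum_congr rfl fun p _ => ?_
      rw [hcc, hq]
    rw [e2]
    have hp2 : 0 ≤ ∑ p ∈ S.R j, (p : ℝ) ^ (-2 : ℝ) := Finset.sum_nonneg fun p _ => by positivity
    have hsR : 0 ≤ sR (S.R j) := by
      unfold sR
      exact Finset.sum_nonneg fun p _ => by positivity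
    refine mul_le_mul ?_ ?_ (by positivity) (by positivity)
    · refine Real.exp_le_exp.2 ?_
      have := mul_le_mul_of_nonneg_right hCbC hp2
      linarith
    · have h2 : (2 : ℝ)⁻¹ ^ (l' j) ≤ (2 : ℝ)⁻¹ ^ (cc lam * S.l j) := by
        rw [← Real.rpow_natCast]
        exact Real.rpow_le_rpow_of_exponent_ge (by norm_num) (by norm_num) (hl' j hj')
      have h3 : Real.exp (Cb * (sR (S.R j) + 1)) ≤ Real.exp (C * (sR (S.R j) + 1)) :=
        Real.exp_le_exp.2 (mul_le_mul_of_nonneg_right (hCbC.trans hC) (by linarith))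
      have h4 := mul_le_mul h2 h3 (Real.exp_pos _).le (by positivity)
      rw [ht]
      linarith
  have hb2 : ∫ w, gf w ∂mu ≤
      Real.exp (∑ p ∈ rest, q' p + C0 * ∑ p ∈ rest, (p : ℝ) ^ (-2 : ℝ)) := by
    have h1 := hCm rest b d e e' 0 (fun p hp => hprime p (hrp p hp)) (fun p hp => hb p (hrp p hp))
      (fun p hp => hd p (hrp p hp)) (fun p hp => hen p (hrp p hp)) (fun p hp => hen' p (hrp p hp))
      (by norm_num)
    have h2 : ∀ w, gf w = ‖Zt rest (1 / 2) w‖ ^ 2 * (∏ p ∈ rest, ‖1 - b p * X p w‖ ^ 2) *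
        (∏ p ∈ rest, ‖(1 - d p * X p w)⁻¹‖ ^ 2) *
        Real.exp (2 * (0 * (((∑ p ∈ rest, e p * X p w) +
          ∑ p ∈ rest, e' p * conj (X p w)) / 2).re)) := by
      intro w
      rw [hgf, zero_mul, mul_zero, Real.exp_zero, mul_one]
    simp_rw [h2]
    refine h1.trans ?_
    have hp2 : 0 ≤ ∑ p ∈ rest, (p : ℝ) ^ (-2 : ℝ) := Finset.sum_nonneg fun p _ => by positivity
    refine Real.exp_le_exp.2 ?_
    have h3 := mul_le_mul_of_nonneg_right hCmC hp2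
    have h4 : ∑ p ∈ rest, ‖(((p : ℝ) ^ (-(1 / 2) : ℝ) : ℝ) : ℂ) - b p + d p +
        ((0 : ℝ) : ℂ) * ((e p + conj (e' p)) / 2)‖ ^ 2 = ∑ p ∈ rest, q' p := by
      refine Finset.sum_congr rfl fun p _ => ?_
      rw [Complex.ofReal_zero, zero_mul, add_zero, hq']
    rw [h4]
    linarith
  have hb3 : ∏ i ∈ range (S.J + 1), ∫ w, F i w ∂mu ≤
      ∏ j ∈ range (S.J + 1), (Real.exp (∑ p ∈ S.R j, q p +
        C0 * ∑ p ∈ S.R j, (p : ℝ) ^ (-2 : ℝ)) * (1 + t j)) := by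
    refine Finset.prod_le_prod ?_ ?_
    · intro i hi
      rw [hF i, if_pos (Finset.mem_range.1 hi)]
      exact integral_nonneg (hgnn i)
    · intro i hi
      rw [hF i, if_pos (Finset.mem_range.1 hi)]
      exact hb1 i hi
  have hb4 : ∏ j ∈ range (S.J + 1), (1 + t j) ≤ Real.exp 1 := by
    calc ∏ j ∈ range (S.J + 1), (1 + t j) ≤ ∏ j ∈ range (S.J + 1), Real.exp (t j) := by
          refine Finset.prod_le_prod (fun j _ => by have := ht0 j; linarith) fun j _ => ?_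
          have := Real.add_one_le_exp (t j)
          linarith
      _ = Real.exp (∑ j ∈ range (S.J + 1), t j) := (Real.exp_sum _ _).symm
      _ ≤ Real.exp 1 := by
          refine Real.exp_le_exp.2 ?_
          have h5 := hB.trunc
          simp_rw [ht]
          exact h5
  have hp2 : ∑ p ∈ PB, (p : ℝ) ^ (-2 : ℝ) ≤ 2 := by
    have h1 : PB ⊆ Ioo 1 (MM S.T) := by
      intro p hp
      rw [hPB] at hp
      have := Nat.mem_primesBelow.1 hp
      exact Finset.mem_Ioo.2 ⟨this.2.one_lt, this.1⟩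
    calc ∑ p ∈ PB, (p : ℝ) ^ (-2 : ℝ)
        ≤ ∑ p ∈ Ioo 1 (MM S.T), (p : ℝ) ^ (-2 : ℝ) :=
          Finset.sum_le_sum_of_subset_of_nonneg h1 fun p _ _ => by positivity
      _ = ∑ p ∈ Ioo 1 (MM S.T), ((p : ℝ) ^ 2)⁻¹ := by
          refine Finset.sum_congr rfl fun p _ => ?_
          rw [Real.rpow_neg (Nat.cast_nonneg p), ← Real.rpow_natCast]
          norm_num
      _ ≤ 2 / ((1 : ℕ) + 1) := sum_Ioo_inv_sq_le 1 (MM S.T)
      _ ≤ 2 := by norm_num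
  have hp2s : ∑ p ∈ PB, (p : ℝ) ^ (-2 : ℝ) =
      (∑ j ∈ range (S.J + 1), ∑ p ∈ S.R j, (p : ℝ) ^ (-2 : ℝ)) + ∑ p ∈ rest, (p : ℝ) ^ (-2 : ℝ) := by
    rw [hun, Finset.sum_union hPrest, hsumP]
  rw [Finset.prod_mul_distrib, ← Real.exp_sum, Finset.sum_add_distrib, ← Finset.mul_sum] at hb3
  have hnn1 : 0 ≤ ∫ w, gf w ∂mu := integral_nonneg hgfnn
  -- the sums
  have hlam0 := hB.lam_pos
  have hlam1 := hB.lam_lt
  have hq1 : ∀ p ∈ PB, q p ≤ lam ^ 2 * (1 / (p : ℝ)) + 7 * (Dp p / p) := by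
    intro p hp
    obtain ⟨h1, h2, h3⟩ := hDp p hp
    have hp0 : (0 : ℝ) < p := by exact_mod_cast (hprime p hp).pos
    have hu : 0 ≤ (p : ℝ) ^ (-(1 / 2) : ℝ) := by positivity
    have h4 : ‖(((p : ℝ) ^ (-(1 / 2) : ℝ) : ℝ) : ℂ) - b p + d p + al * ccp h p‖ ≤
        (Dp p + lam) * (p : ℝ) ^ (-(1 / 2) : ℝ) := by
      calc ‖(((p : ℝ) ^ (-(1 / 2) : ℝ) : ℝ) : ℂ) - b p + d p + al * ccp h p‖
          = ‖((((p : ℝ) ^ (-(1 / 2) : ℝ) : ℝ) : ℂ) - b p + d p + al * ccp h p -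
            lam * (((p : ℝ) ^ (-(1 / 2) : ℝ) : ℝ) : ℂ)) +
            lam * (((p : ℝ) ^ (-(1 / 2) : ℝ) : ℝ) : ℂ)‖ := by rw [sub_add_cancel]
        _ ≤ ‖(((p : ℝ) ^ (-(1 / 2) : ℝ) : ℝ) : ℂ) - b p + d p + al * ccp h p -
            lam * (((p : ℝ) ^ (-(1 / 2) : ℝ) : ℝ) : ℂ)‖ +
            ‖(lam : ℂ) * (((p : ℝ) ^ (-(1 / 2) : ℝ) : ℝ) : ℂ)‖ := norm_add_le _ _
        _ ≤ Dp p * (p : ℝ) ^ (-(1 / 2) : ℝ) + lam * (p : ℝ) ^ (-(1 / 2) : ℝ) := by
            refine add_le_add h3 (le_of_eq ?_)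
            rw [norm_mul, Complex.norm_real, Complex.norm_real, Real.norm_of_nonneg hlam0.le,
              Real.norm_of_nonneg hu]
        _ = (Dp p + lam) * (p : ℝ) ^ (-(1 / 2) : ℝ) := by ring
    have h5 : q p ≤ (Dp p + lam) ^ 2 * (1 / (p : ℝ)) := by
      rw [hq, ← R4_sq p, ← mul_pow]
      exact pow_le_pow_left₀ (norm_nonneg _) h4 2
    have h6 : (Dp p + lam) ^ 2 ≤ lam ^ 2 + 7 * Dp p := by nlinarith
    calc q p ≤ (Dp p + lam) ^ 2 * (1 / (p : ℝ)) := h5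
      _ ≤ (lam ^ 2 + 7 * Dp p) * (1 / (p : ℝ)) :=
          mul_le_mul_of_nonneg_right h6 (by positivity)
      _ = lam ^ 2 * (1 / (p : ℝ)) + 7 * (Dp p / p) := by ring
  have hsum1 : ∑ p ∈ S.P, q p ≤ lam ^ 2 * (Real.log (Real.log S.T) + D) + 7 * V := by
    calc ∑ p ∈ S.P, q p ≤ ∑ p ∈ S.P, (lam ^ 2 * (1 / (p : ℝ)) + 7 * (Dp p / p)) :=
          Finset.sum_le_sum fun p hp => hq1 p (hPsub hp)
      _ = lam ^ 2 * ∑ p ∈ S.P, 1 / (p : ℝ) + 7 * ∑ p ∈ S.P, Dp p / p := by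
          rw [Finset.sum_add_distrib, ← Finset.mul_sum, ← Finset.mul_sum]
      _ ≤ lam ^ 2 * (Real.log (Real.log S.T) + D) + 7 * V := by
          refine add_le_add (mul_le_mul_of_nonneg_left (sum_P hB) (sq_nonneg _)) ?_
          refine mul_le_mul_of_nonneg_left (le_trans ?_ hV) (by norm_num)
          refine Finset.sum_le_sum_of_subset_of_nonneg hPsub fun p hp _ => ?_
          exact div_nonneg (hDp p hp).1 (Nat.cast_nonneg p)
  have hq2 : ∀ p ∈ PB, q' p ≤ 9 * (1 / (p : ℝ)) := by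
    intro p hp
    have hu : 0 ≤ (p : ℝ) ^ (-(1 / 2) : ℝ) := by positivity
    have h4 : ‖(((p : ℝ) ^ (-(1 / 2) : ℝ) : ℝ) : ℂ) - b p + d p‖ ≤
        3 * (p : ℝ) ^ (-(1 / 2) : ℝ) := by
      calc ‖(((p : ℝ) ^ (-(1 / 2) : ℝ) : ℝ) : ℂ) - b p + d p‖
          ≤ ‖(((p : ℝ) ^ (-(1 / 2) : ℝ) : ℝ) : ℂ) - b p‖ + ‖d p‖ := norm_add_le _ _
        _ ≤ (‖(((p : ℝ) ^ (-(1 / 2) : ℝ) : ℝ) : ℂ)‖ + ‖b p‖) + ‖d p‖ := by
            have := norm_sub_le (((((p : ℝ) ^ (-(1 / 2) : ℝ) : ℝ)) : ℂ)) (b p)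
            linarith
        _ ≤ ((p : ℝ) ^ (-(1 / 2) : ℝ) + (p : ℝ) ^ (-(1 / 2) : ℝ)) + (p : ℝ) ^ (-(1 / 2) : ℝ) := by
            have h1 : ‖(((p : ℝ) ^ (-(1 / 2) : ℝ) : ℝ) : ℂ)‖ = (p : ℝ) ^ (-(1 / 2) : ℝ) := by
              rw [Complex.norm_real, Real.norm_of_nonneg hu]
            have h2 := hb p hp
            have h3 := hd p hp
            linarith
        _ = 3 * (p : ℝ) ^ (-(1 / 2) : ℝ) := by ring
    calc q' p = ‖(((p : ℝ) ^ (-(1 / 2) : ℝ) : ℝ) : ℂ) - b p + d p‖ ^ 2 := hq' p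
      _ ≤ (3 * (p : ℝ) ^ (-(1 / 2) : ℝ)) ^ 2 := pow_le_pow_left₀ (norm_nonneg _) h4 2
      _ = 9 * (1 / (p : ℝ)) := by
          rw [mul_pow, R4_sq]
          norm_num
  have hrest1 : ∑ p ∈ rest, 1 / (p : ℝ) ≤ D + C1 := by
    have hsub : rest ⊆ (Nat.primesBelow (M1 S.T) \ S.P) ∪
        (Nat.primesBelow (MM S.T)).filter (fun p => M1 S.T ≤ p) := by
      intro p hp
      rw [hrest, Finset.mem_sdiff, hPB] at hp
      rw [Finset.mem_union, Finset.mem_sdiff, Finset.mem_filter]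
      by_cases h1 : M1 S.T ≤ p
      · exact Or.inr ⟨hp.1, h1⟩
      · refine Or.inl ⟨?_, hp.2⟩
        exact Nat.mem_primesBelow.2 ⟨not_le.1 h1, (Nat.mem_primesBelow.1 hp.1).2⟩
    calc ∑ p ∈ rest, 1 / (p : ℝ) ≤ ∑ p ∈ (Nat.primesBelow (M1 S.T) \ S.P) ∪
        (Nat.primesBelow (MM S.T)).filter (fun p => M1 S.T ≤ p), 1 / (p : ℝ) :=
          Finset.sum_le_sum_of_subset_of_nonneg hsub fun p _ _ => by positivity
      _ ≤ ∑ p ∈ Nat.primesBelow (M1 S.T) \ S.P, 1 / (p : ℝ) +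
          ∑ p ∈ (Nat.primesBelow (MM S.T)).filter (fun p => M1 S.T ≤ p), 1 / (p : ℝ) := by
          have h1 := Finset.sum_union_inter (f := fun p : ℕ => 1 / (p : ℝ))
            (s₁ := Nat.primesBelow (M1 S.T) \ S.P)
            (s₂ := (Nat.primesBelow (MM S.T)).filter (fun p => M1 S.T ≤ p))
          have h2 : 0 ≤ ∑ p ∈ (Nat.primesBelow (M1 S.T) \ S.P) ∩
            (Nat.primesBelow (MM S.T)).filter (fun p => M1 S.T ≤ p), 1 / (p : ℝ) :=
            Finset.sum_nonneg fun p _ => by positivity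
          linarith
      _ ≤ D + C1 := add_le_add hB.out (hC1 S.T hTT)
  have hsum2 : ∑ p ∈ rest, q' p ≤ 9 * (D + C1) := by
    calc ∑ p ∈ rest, q' p ≤ ∑ p ∈ rest, 9 * (1 / (p : ℝ)) :=
          Finset.sum_le_sum fun p hp => hq2 p (hrp p hp)
      _ = 9 * ∑ p ∈ rest, 1 / (p : ℝ) := by rw [Finset.mul_sum]
      _ ≤ 9 * (D + C1) := mul_le_mul_of_nonneg_left hrest1 (by norm_num)
  have hlam2 : lam ^ 2 ≤ 1 := by nlinarith
  have hlamD : lam ^ 2 * D ≤ |D| := by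
    calc lam ^ 2 * D ≤ lam ^ 2 * |D| := mul_le_mul_of_nonneg_left (le_abs_self D) (sq_nonneg _)
      _ ≤ 1 * |D| := mul_le_mul_of_nonneg_right hlam2 (abs_nonneg _)
      _ = |D| := one_mul _
  calc (∏ i ∈ range (S.J + 1), ∫ w, F i w ∂mu) * ∫ w, gf w ∂mu
      ≤ (Real.exp ((∑ j ∈ range (S.J + 1), ∑ p ∈ S.R j, q p) +
          C0 * ∑ j ∈ range (S.J + 1), ∑ p ∈ S.R j, (p : ℝ) ^ (-2 : ℝ)) * Real.exp 1) *
        Real.exp (∑ p ∈ rest, q' p + C0 * ∑ p ∈ rest, (p : ℝ) ^ (-2 : ℝ)) := by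
        refine mul_le_mul (hb3.trans ?_) hb2 hnn1 (by positivity)
        exact mul_le_mul_of_nonneg_left hb4 (Real.exp_pos _).le
    _ = Real.exp ((∑ j ∈ range (S.J + 1), ∑ p ∈ S.R j, q p) +
          C0 * (∑ j ∈ range (S.J + 1), ∑ p ∈ S.R j, (p : ℝ) ^ (-2 : ℝ)) + 1 +
          (∑ p ∈ rest, q' p + C0 * ∑ p ∈ rest, (p : ℝ) ^ (-2 : ℝ))) := by
        rw [← Real.exp_add, ← Real.exp_add]
    _ ≤ Real.exp ((|D| + 9 * (|D| + C1) + 2 * C0 + 1) + 7 * V +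
          Real.log (Real.log S.T) * lam ^ 2) := by
        refine Real.exp_le_exp.2 ?_
        rw [← hsumP]
        have h6 := mul_le_mul_of_nonneg_left hp2 hC00
        rw [hp2s, mul_add] at h6
        have h7 := le_abs_self D
        nlinarith
    _ = Real.exp (|D| + 9 * (|D| + C1) + 2 * C0 + 1) * Real.exp (7 * V) *
          Real.log S.T ^ (lam ^ 2) := by
        rw [Real.rpow_def_of_pos (by linarith : (0 : ℝ) < Real.log S.T), Real.exp_add, Real.exp_add]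

end Pool.Agent.UV
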