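import Pool.Agent.Lib.MP_69b2e4_nt.UV.F1
import Pool.Agent.Lib.MP_69b2e4_nt.UH.F2
import Pool.Agent.Lib.MP_69b2e4_nt.Mg.G042

/-! TASK F2. The mollifier and the sum of the random model as integrals of Euler products. `bx y ξ p = p^{-1/2} e^{-(1-2πiξ) log p/log y}` is defined in UH/F2.lean.
`Mx_eq`: COPY the proof of `Mo_eq` in UH/F2.lean (`Fm`, `49/50` replaced by `Fd N`; the value of `M ≥ y` only enters through: every `n ≤ y` with `Fd ≠ 0` has all prime factors `< M`).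
`Gx_eq`: let `Y = log y > 0`, `z_ξ = (1-2πiξ)/Y`, so `Re(h + z_ξ) ≥ 1/(2Y) > 0` by the hypothesis. For `‖dx‖ < 1` (`‖dx y ξ h p‖ = p^{-1/2 - Re(h+z_ξ)}`) the product `∏_{p<M} (1 - dx X_p)^{-1}` is `∑_{n M-smooth} n^{-1/2-h-z_ξ} XX w n`
(`EulerProduct.summable_and_hasSum_smoothNumbers_prod_primesBelow_geometric` for the completely multiplicative `n ↦ n^{-1/2-h-z_ξ} XX w n`, as in `DiagE_euler`), absolutely summable with `∑ n^{-1/2 - Re h - 1/Y} < ∞` independent of `ξ`. Multiply by `φ(ξ)` and integrate term by term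
(`integral_tsum`/`hasSum_integral_of_summable_norm`, `‖φ‖` integrable since `(1+|ξ|)^14 ≥ 1`): `∫ φ(ξ) n^{-z_ξ} dξ = Fd N (log n/Y)` for `n ≥ 1` (`hF` with `u = log n/Y`, `e^{-u} e^{2πiuξ} = n^{-z_ξ}`). So the result is `∑_{n smooth} Fd N (log n/Y) n^{-1/2-h} XX w n`; terms with `n > y` vanish
(`Fd_zero`), and for `n ≤ y ≤ M` either `n` is `M`-smooth or `n = M = y` is prime, where `Fd = 0`. This is `Gx N y (nX h w)` (`nX_apply`). -/

set_option autoImplicit false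

namespace Pool.Agent.UV

open Complex MeasureTheory Finset Pool.Agent.GH Pool.Agent.UH
open scoped Real ComplexConjugate

/-- the coefficient `d_p` of the Euler product of the sum with the frequency `ξ` and the shift `h` -/
noncomputable def dx (y ξ : ℝ) (h : ℂ) (p : ℕ) : ℂ :=
  (((p : ℝ) ^ (-(1 / 2) : ℝ) : ℝ) : ℂ) *
    cexp (-((h + (1 - 2 * π * ξ * I) / (Real.log y : ℝ)) * (Real.log p : ℝ)))

private theorem F2_mul (y ξ : ℝ) {m n : ℕ} (hm : m ≠ 0) (hn : n ≠ 0) :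
    bx y ξ (m * n) = bx y ξ m * bx y ξ n := by
  unfold bx
  have h1 : ((m * n : ℕ) : ℝ) ^ (-(1 / 2) : ℝ) = (m : ℝ) ^ (-(1 / 2) : ℝ) * (n : ℝ) ^ (-(1 / 2) : ℝ) := by
    rw [Nat.cast_mul, Real.mul_rpow (Nat.cast_nonneg m) (Nat.cast_nonneg n)]
  have h2 : Real.log ((m * n : ℕ) : ℝ) = Real.log m + Real.log n := by
    rw [Nat.cast_mul, Real.log_mul (Nat.cast_ne_zero.2 hm) (Nat.cast_ne_zero.2 hn)]
  rw [h1, h2, add_div]
  push_cast
  rw [mul_add, neg_add, Complex.exp_add]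
  ring

private theorem F2_one (y ξ : ℝ) : bx y ξ 1 = 1 := by
  simp [bx]

private theorem F2_prod (y ξ : ℝ) (U : Finset ℕ) (hU : ∀ p ∈ U, p ≠ 0) :
    ∏ p ∈ U, bx y ξ p = bx y ξ (∏ p ∈ U, p) := by
  induction U using Finset.induction_on with
  | empty => simp [F2_one]
  | insert p U hp ih =>
    rw [prod_insert hp, prod_insert hp, ih fun q hq => hU q (mem_insert_of_mem hq),
      F2_mul y ξ (hU p (mem_insert_self p U))
        (prod_ne_zero_iff.2 fun q hq => hU q (mem_insert_of_mem hq))]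

private theorem F2_bx (y ξ : ℝ) (n : ℕ) : bx y ξ n = (((n : ℝ) ^ (-(1 / 2) : ℝ) : ℝ) : ℂ) *
    (Real.exp (-(Real.log n / Real.log y)) : ℂ) *
      cexp (2 * π * (Real.log n / Real.log y : ℝ) * ξ * I) := by
  have h : cexp (-((1 - 2 * π * ξ * I) * (Real.log n / Real.log y : ℝ))) =
      (Real.exp (-(Real.log n / Real.log y)) : ℂ) *
        cexp (2 * π * (Real.log n / Real.log y : ℝ) * ξ * I) := by
    rw [Complex.ofReal_exp, ← Complex.exp_add]
    congr 1
    push_cast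
    ring
  unfold bx
  rw [h]
  ring

private theorem F2_int (φ : ℝ → ℂ) (hφ : Continuous φ)
    (hφi : Integrable (fun ξ : ℝ => (1 + |ξ|) ^ 14 * ‖φ ξ‖)) : Integrable φ := by
  refine Integrable.mono' hφi hφ.aestronglyMeasurable (Filter.Eventually.of_forall fun ξ => ?_)
  have h1 : (1 : ℝ) ≤ (1 + |ξ|) ^ 14 := one_le_pow₀ (by linarith [abs_nonneg ξ])
  exact le_mul_of_one_le_left (norm_nonneg _) h1

private theorem F2_int2 (φ : ℝ → ℂ) (hφ : Continuous φ) (h : Integrable φ) (u : ℝ) :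
    Integrable (fun ξ : ℝ => φ ξ * cexp (2 * π * u * ξ * I)) := by
  refine Integrable.mono' h.norm ?_ (Filter.Eventually.of_forall fun ξ => ?_)
  · exact (hφ.mul (by fun_prop)).aestronglyMeasurable
  · have h1 : (2 * π * u * ξ * I : ℂ) = ((2 * π * u * ξ : ℝ) : ℂ) * I := by push_cast; ring
    rw [norm_mul, h1, Complex.norm_exp_ofReal_mul_I, mul_one]

private theorem F2_mu (U : Finset ℕ) (hU : ∀ p ∈ U, p.Prime) :
    (ArithmeticFunction.moebius (∏ p ∈ U, p) : ℤ) = (-1) ^ U.card := by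
  rw [ArithmeticFunction.isMultiplicative_moebius.map_prod_of_prime U hU,
    Finset.prod_congr rfl fun p hp => ArithmeticFunction.moebius_apply_prime (hU p hp), prod_const]

private theorem F2_XX (w : Om) (U : Finset ℕ) (hU : ∀ p ∈ U, p.Prime) :
    XX w (∏ p ∈ U, p) = ∏ p ∈ U, X p w := by
  rw [map_prod]
  exact prod_congr rfl fun p hp => XX_prime w (hU p hp)

theorem Mx_eq (N : ℕ) (φ : ℝ → ℂ) (hφ : Continuous φ)
    (hφi : Integrable (fun ξ : ℝ => (1 + |ξ|) ^ 14 * ‖φ ξ‖))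
    (hF : ∀ u : ℝ, 0 ≤ u → (Fd N u : ℂ) = (Real.exp (-u) : ℂ) * ∫ ξ : ℝ, φ ξ * cexp (2 * π * u * ξ * I))
    {y : ℝ} (hy : 2 ≤ y) {M : ℕ} (hM : y ≤ M) (w : Om) :
    Mx N y (nX 0 w) = ∫ ξ : ℝ, φ ξ * ∏ p ∈ Nat.primesBelow M, (1 - bx y ξ p * X p w) := by
  have hL : 0 < Real.log y := Real.log_pos (by linarith)
  have hφ1 := F2_int φ hφ hφi
  have hP : ∀ U ∈ (Nat.primesBelow M).powerset, ∀ p ∈ U, p.Prime := fun U hU p hp =>
    Nat.prime_of_mem_primesBelow (mem_powerset.1 hU hp)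
  -- the integrals
  have hI : ∀ n : ℕ, n ≠ 0 → ∫ ξ : ℝ, φ ξ * bx y ξ n =
      (((n : ℝ) ^ (-(1 / 2) : ℝ) : ℝ) : ℂ) * (Fd N (Real.log n / Real.log y) : ℂ) := by
    intro n hn
    have hu : 0 ≤ Real.log n / Real.log y :=
      div_nonneg (Real.log_nonneg (by exact_mod_cast Nat.one_le_iff_ne_zero.2 hn)) hL.le
    rw [hF _ hu, ← mul_assoc, ← integral_const_mul]
    refine integral_congr_ae (Filter.Eventually.of_forall fun ξ => ?_)
    show φ ξ * bx y ξ n = _
    rw [F2_bx]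
    ring
  have hII : ∀ n : ℕ, Integrable (fun ξ : ℝ => φ ξ * bx y ξ n) := by
    intro n
    have h1 := (F2_int2 φ hφ hφ1 (Real.log n / Real.log y)).const_mul
      ((((n : ℝ) ^ (-(1 / 2) : ℝ) : ℝ) : ℂ) * (Real.exp (-(Real.log n / Real.log y)) : ℂ))
    refine h1.congr (Filter.Eventually.of_forall fun ξ => ?_)
    show _ = φ ξ * bx y ξ n
    rw [F2_bx]
    ring
  -- the integrand
  have hE : ∀ ξ : ℝ, φ ξ * ∏ p ∈ Nat.primesBelow M, (1 - bx y ξ p * X p w) =
      ∑ U ∈ (Nat.primesBelow M).powerset,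
        ((((-1) ^ U.card : ℤ) : ℂ) * XX w (∏ p ∈ U, p)) * (φ ξ * bx y ξ (∏ p ∈ U, p)) := by
    intro ξ
    have h1 : ∏ p ∈ Nat.primesBelow M, (1 - bx y ξ p * X p w) =
        ∏ p ∈ Nat.primesBelow M, (1 + -(bx y ξ p * X p w)) :=
      prod_congr rfl fun p _ => sub_eq_add_neg _ _
    rw [h1, Finset.prod_one_add, mul_sum]
    refine sum_congr rfl fun U hU => ?_
    rw [prod_neg, prod_mul_distrib, F2_prod y ξ U fun p hp => (hP U hU p hp).ne_zero,
      F2_XX w U (hP U hU)]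
    push_cast
    ring
  have hS : ∫ ξ : ℝ, φ ξ * ∏ p ∈ Nat.primesBelow M, (1 - bx y ξ p * X p w) =
      ∑ U ∈ (Nat.primesBelow M).powerset, ((((-1) ^ U.card : ℤ) : ℂ) * XX w (∏ p ∈ U, p)) *
        ((((((∏ p ∈ U, p : ℕ) : ℝ) ^ (-(1 / 2) : ℝ) : ℝ)) : ℂ) *
          (Fd N (Real.log ((∏ p ∈ U, p : ℕ) : ℝ) / Real.log y) : ℂ)) := by
    simp_rw [hE]
    rw [integral_finsetSum _ fun U _ => (hII _).const_mul _]
    refine sum_congr rfl fun U hU => ?_
    rw [integral_const_mul, hI _ (prod_ne_zero_iff.2 fun p hp => (hP U hU p hp).ne_zero)]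
  rw [hS]
  unfold Mx
  symm
  have hz : ∀ n : ℕ, y ≤ n → Fd N (Real.log n / Real.log y) = 0 := by
    intro n hn
    refine Fd_zero N ?_
    rw [le_div_iff₀ hL, one_mul]
    exact Real.log_le_log (by linarith) hn
  refine sum_bij_ne_zero (fun U _ _ => ∏ p ∈ U, p) ?_ ?_ ?_ ?_
  · intro U hU h0
    have hne : (∏ p ∈ U, p) ≠ 0 := prod_ne_zero_iff.2 fun p hp => (hP U hU p hp).ne_zero
    refine mem_Icc.2 ⟨Nat.one_le_iff_ne_zero.2 hne, Nat.le_floor ?_⟩
    by_contra h1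
    push Not at h1
    refine h0 ?_
    rw [hz _ h1.le]
    simp
  · intro U hU _ V hV _ h
    rw [← Nat.primeFactors_prod (hP U hU), ← Nat.primeFactors_prod (hP V hV)]
    exact congrArg Nat.primeFactors h
  · intro n hn h0
    have hn1 := mem_Icc.1 hn
    have hsq : Squarefree n := by
      by_contra h1
      refine h0 ?_
      rw [ArithmeticFunction.moebius_eq_zero_of_not_squarefree h1]
      simp
    have hlt : (n : ℝ) < y := by
      by_contra h1
      push Not at h1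
      refine h0 ?_
      rw [hz _ h1]
      simp
    have hmem : n.primeFactors ∈ (Nat.primesBelow M).powerset := by
      refine mem_powerset.2 fun p hp => Nat.mem_primesBelow.2 ⟨?_, Nat.prime_of_mem_primeFactors hp⟩
      have h1 : p ≤ n := Nat.le_of_mem_primeFactors hp
      have h2 : (n : ℝ) < M := hlt.trans_le hM
      exact h1.trans_lt (by exact_mod_cast h2)
    have hprod := Nat.prod_primeFactors_of_squarefree hsq
    refine ⟨n.primeFactors, hmem, ?_, hprod⟩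
    intro h1
    refine h0 ?_
    rw [hprod] at h1
    have h2 := F2_mu n.primeFactors fun p hp => Nat.prime_of_mem_primeFactors hp
    rw [hprod] at h2
    rw [h2, nX_apply 0 w (by omega)]
    have h3 : ((n : ℂ) ^ (-(1 / 2 + 0) : ℂ)) = ((((n : ℝ) ^ (-(1 / 2) : ℝ) : ℝ)) : ℂ) := by
      rw [Complex.ofReal_cpow (Nat.cast_nonneg n)]
      push_cast
      rw [add_zero]
    rw [h3]
    rw [← h1]
    ring
  · intro U hU _
    have hne : (∏ p ∈ U, p) ≠ 0 := prod_ne_zero_iff.2 fun p hp => (hP U hU p hp).ne_zero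
    have h2 := F2_mu U (hP U hU)
    have h3 : (((∏ p ∈ U, p : ℕ) : ℂ) ^ (-(1 / 2 + 0) : ℂ)) =
        (((((∏ p ∈ U, p : ℕ) : ℝ) ^ (-(1 / 2) : ℝ) : ℝ)) : ℂ) := by
      rw [Complex.ofReal_cpow (Nat.cast_nonneg _)]
      push_cast
      rw [add_zero]
    rw [nX_apply 0 w hne, h2, h3]
    ring

theorem Gx_eq (N : ℕ) (φ : ℝ → ℂ) (hφ : Continuous φ)
    (hφi : Integrable (fun ξ : ℝ => (1 + |ξ|) ^ 14 * ‖φ ξ‖))
    (hF : ∀ u : ℝ, 0 ≤ u → (Fd N u : ℂ) = (Real.exp (-u) : ℂ) * ∫ ξ : ℝ, φ ξ * cexp (2 * π * u * ξ * I))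
    {y : ℝ} (hy : 2 ≤ y) {M : ℕ} (hM : y ≤ M) {h : ℂ} (hh : |h.re| * Real.log y ≤ 1 / 2) (w : Om) :
    Gx N y (nX h w) = ∫ ξ : ℝ, φ ξ * ∏ p ∈ Nat.primesBelow M, (1 - dx y ξ h p * X p w)⁻¹ := by
  have hL : 0 < Real.log y := Real.log_pos (by linarith)
  have hφ1 := F2_int φ hφ hφi
  -- the characters
  set z : ℝ → ℂ := fun ξ => (1 - 2 * π * ξ * I) / (Real.log y : ℝ) with hz
  have hzre : ∀ ξ, (z ξ).re = 1 / Real.log y := by
    intro ξ
    have h1 : (z ξ) = ((1 / Real.log y : ℝ) : ℂ) + ((-(2 * π * ξ) / Real.log y : ℝ) : ℂ) * I := by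
      rw [hz]
      push_cast
      have : ((Real.log y : ℝ) : ℂ) ≠ 0 := Complex.ofReal_ne_zero.2 hL.ne'
      field_simp
      ring
    rw [h1]
    simp
  have hre : ∀ ξ, 0 < (h + z ξ).re := by
    intro ξ
    rw [Complex.add_re, hzre]
    have h1 : -(1 / 2) ≤ h.re * Real.log y := by
      have := neg_abs_le h.re
      have h2 : -(|h.re| * Real.log y) ≤ h.re * Real.log y := by
        have := mul_le_mul_of_nonneg_right this hL.le
        linarith
      linarith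
    have h2 : 0 < (h.re + 1 / Real.log y) * Real.log y := by
      rw [add_mul, one_div_mul_cancel hL.ne']
      linarith
    exact (mul_pos_iff_of_pos_right hL).1 h2
  have hχ : ∀ (ξ : ℝ) (n : ℕ), n ≠ 0 → nX (h + z ξ) w n =
      nX h w n * cexp (-(z ξ) * (Real.log n : ℝ)) := by
    intro ξ n hn
    have hn' : (n : ℂ) ≠ 0 := Nat.cast_ne_zero.2 hn
    rw [nX_apply _ w hn, nX_apply _ w hn, Complex.cpow_def_of_ne_zero hn', Complex.cpow_def_of_ne_zero hn']
    have h1 : Complex.log (n : ℂ) = ((Real.log n : ℝ) : ℂ) := (Complex.natCast_log).symm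
    rw [h1, show ((Real.log n : ℝ) : ℂ) * -(1 / 2 + (h + z ξ)) =
      ((Real.log n : ℝ) : ℂ) * -(1 / 2 + h) + -(z ξ) * ((Real.log n : ℝ) : ℂ) by ring, Complex.exp_add]
    ring
  have hd : ∀ (ξ : ℝ) (p : ℕ), p.Prime → dx y ξ h p * X p w = nX (h + z ξ) w p := by
    intro ξ p hp
    have hp' : (p : ℂ) ≠ 0 := Nat.cast_ne_zero.2 hp.ne_zero
    rw [nX_apply _ w hp.ne_zero, XX_prime w hp]
    congr 1
    unfold dx
    rw [Complex.cpow_def_of_ne_zero hp']
    have h1 : Complex.log (p : ℂ) = ((Real.log p : ℝ) : ℂ) := (Complex.natCast_log).symm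
    have h2 : (((p : ℝ) ^ (-(1 / 2) : ℝ) : ℝ) : ℂ) = cexp (((Real.log p : ℝ) : ℂ) * (-(1 / 2))) := by
      rw [Real.rpow_def_of_pos (by exact_mod_cast hp.pos), Complex.ofReal_exp]
      push_cast
      rfl
    rw [h1, h2, ← Complex.exp_add]
    congr 1
    ring
  have hnorm : ∀ (ξ : ℝ) (n : ℕ), n ≠ 0 → ‖nX (h + z ξ) w n‖ = (n : ℝ) ^ (-(1 / 2 + (h.re + 1 / Real.log y))) := by
    intro ξ n hn
    rw [norm_nX _ w hn, Complex.add_re, hzre]
  have hlt : ∀ (ξ : ℝ) {p : ℕ}, p.Prime → ‖nX (h + z ξ) w p‖ < 1 := by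
    intro ξ p hp
    rw [norm_nX _ w hp.ne_zero]
    refine Real.rpow_lt_one_of_one_lt_of_neg (by exact_mod_cast hp.one_lt) ?_
    linarith [hre ξ]
  have hEu := fun ξ : ℝ =>
    EulerProduct.summable_and_hasSum_smoothNumbers_prod_primesBelow_geometric
      (f := (nX (h + z ξ) w : ℕ →* ℂ)) (fun {p} hp => hlt ξ hp) M
  have hne : ∀ m : M.smoothNumbers, (m : ℕ) ≠ 0 := fun m => m.2.1
  -- the integrals
  have hI : ∀ n : ℕ, n ≠ 0 → ∫ ξ : ℝ, φ ξ * nX (h + z ξ) w n =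
      (Fd N (Real.log n / Real.log y) : ℂ) * nX h w n := by
    intro n hn
    have hu : 0 ≤ Real.log n / Real.log y :=
      div_nonneg (Real.log_nonneg (by exact_mod_cast Nat.one_le_iff_ne_zero.2 hn)) hL.le
    rw [hF _ hu, mul_assoc, mul_comm (∫ ξ : ℝ, _) _, ← mul_assoc, ← integral_const_mul]
    refine integral_congr_ae (Filter.Eventually.of_forall fun ξ => ?_)
    show φ ξ * nX (h + z ξ) w n = _
    have h1 : cexp (-(z ξ) * (Real.log n : ℝ)) = (Real.exp (-(Real.log n / Real.log y)) : ℂ) *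
        cexp (2 * π * (Real.log n / Real.log y : ℝ) * ξ * I) := by
      rw [Complex.ofReal_exp, ← Complex.exp_add]
      congr 1
      rw [hz]
      push_cast
      ring
    rw [hχ ξ n hn, h1]
    ring
  have hII : ∀ n : ℕ, n ≠ 0 → Integrable (fun ξ : ℝ => φ ξ * nX (h + z ξ) w n) := by
    intro n hn
    have h1 := (F2_int2 φ hφ hφ1 (Real.log n / Real.log y)).const_mul
      (nX h w n * (Real.exp (-(Real.log n / Real.log y)) : ℂ))
    refine h1.congr (Filter.Eventually.of_forall fun ξ => ?_)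
    show _ = φ ξ * nX (h + z ξ) w n
    have h1 : cexp (-(z ξ) * (Real.log n : ℝ)) = (Real.exp (-(Real.log n / Real.log y)) : ℂ) *
        cexp (2 * π * (Real.log n / Real.log y : ℝ) * ξ * I) := by
      rw [Complex.ofReal_exp, ← Complex.exp_add]
      congr 1
      rw [hz]
      push_cast
      ring
    rw [hχ ξ n hn, h1]
    ring
  have hsum : Summable fun m : M.smoothNumbers => ∫ ξ : ℝ, ‖φ ξ * nX (h + z ξ) w m‖ := by
    have h1 : ∀ m : M.smoothNumbers, ∫ ξ : ℝ, ‖φ ξ * nX (h + z ξ) w m‖ =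
        (∫ ξ : ℝ, ‖φ ξ‖) * ‖nX (h + z 0) w m‖ := by
      intro m
      rw [← integral_mul_const]
      refine integral_congr_ae (Filter.Eventually.of_forall fun ξ => ?_)
      show ‖φ ξ * nX (h + z ξ) w m‖ = ‖φ ξ‖ * ‖nX (h + z 0) w m‖
      rw [norm_mul, hnorm ξ m (hne m), hnorm 0 m (hne m)]
    simp_rw [h1]
    exact (hEu 0).1.mul_left _
  have hH := hasSum_integral_of_summable_integral_norm
    (F := fun (m : M.smoothNumbers) (ξ : ℝ) => φ ξ * nX (h + z ξ) w m)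
    (fun m => hII m (hne m)) hsum
  have hR : ∫ ξ : ℝ, (∑' m : M.smoothNumbers, φ ξ * nX (h + z ξ) w m) =
      ∫ ξ : ℝ, φ ξ * ∏ p ∈ Nat.primesBelow M, (1 - dx y ξ h p * X p w)⁻¹ := by
    refine integral_congr_ae (Filter.Eventually.of_forall fun ξ => ?_)
    show (∑' m : M.smoothNumbers, φ ξ * nX (h + z ξ) w m) = _
    have h1 : (∑' m : M.smoothNumbers, nX (h + z ξ) w m) =
        ∏ p ∈ Nat.primesBelow M, (1 - nX (h + z ξ) w p)⁻¹ := (hEu ξ).2.tsum_eq
    rw [tsum_mul_left, h1]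
    show φ ξ * _ = φ ξ * _
    congr 1
    refine Finset.prod_congr rfl fun p hp => ?_
    rw [hd ξ p (Nat.prime_of_mem_primesBelow hp)]
  rw [← hR]
  have hH2 : HasSum (fun m : M.smoothNumbers =>
      (fun n : ℕ => (Fd N (Real.log n / Real.log y) : ℂ) * nX h w n) m)
      (∫ ξ : ℝ, ∑' m : M.smoothNumbers, φ ξ * nX (h + z ξ) w m) := by
    refine hH.congr_fun ?_ |> fun t => t
    intro m
    exact (hI m (hne m)).symm
  have hH3 : HasSum ((M.smoothNumbers).indicator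
      (fun n : ℕ => (Fd N (Real.log n / Real.log y) : ℂ) * nX h w n))
      (∫ ξ : ℝ, ∑' m : M.smoothNumbers, φ ξ * nX (h + z ξ) w m) :=
    hasSum_subtype_iff_indicator.1 hH2
  have hfin : ∀ n ∉ Finset.Icc 1 ⌊y⌋₊, (M.smoothNumbers).indicator
      (fun n : ℕ => (Fd N (Real.log n / Real.log y) : ℂ) * nX h w n) n = 0 := by
    intro n hn
    rcases Nat.eq_zero_or_pos n with rfl | hn0
    · rw [Set.indicator_of_notMem]
      exact fun hm => hm.1 rfl
    · have h1 : ¬ n ≤ ⌊y⌋₊ := fun h2 => hn (Finset.mem_Icc.2 ⟨hn0, h2⟩)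
      have h2 : y < n := by
        by_contra h3
        push Not at h3
        exact h1 (Nat.le_floor h3)
      have h3 : Fd N (Real.log n / Real.log y) = 0 := by
        refine Fd_zero N ?_
        rw [le_div_iff₀ hL, one_mul]
        exact Real.log_le_log (by linarith) h2.le
      by_cases hm : n ∈ M.smoothNumbers
      · rw [Set.indicator_of_mem hm, h3]
        simp
      · rw [Set.indicator_of_notMem hm]
  have hS := hH3.unique (hasSum_sum_of_ne_finset_zero hfin)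
  rw [hS]
  unfold Gx
  refine Finset.sum_congr rfl fun n hn => ?_
  have hn1 := Finset.mem_Icc.1 hn
  by_cases hm : n ∈ M.smoothNumbers
  · rw [Set.indicator_of_mem hm]
  · have h1 : ¬ n < M := fun h2 => hm (Nat.mem_smoothNumbers_of_lt hn1.1 h2)
    have h2 : (M : ℝ) ≤ n := by exact_mod_cast not_lt.1 h1
    have h3 : Fd N (Real.log n / Real.log y) = 0 := by
      refine Fd_zero N ?_
      rw [le_div_iff₀ hL, one_mul]
      exact Real.log_le_log (by linarith) (hM.trans h2)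
    rw [Set.indicator_of_notMem hm, h3]
    simp

end Pool.Agent.UV
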