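import Pool.Agent.Lib.MP_69b2e4_nt.UH.Defs

/-! Definitions for the unconditional upper bounds of the discrete moments of `ζ'` over all zeros,
`λ < 1/2` (campaign UV). This file is complete (NOT a task). `N` is a fixed integer `≥ 2`
(large if `λ` is close to `1/2`), `η = 1/(2(N+1))`, `yy N T i = T^{iη}` (`= x^i`, `x = T^η`). -/

set_option autoImplicit false

namespace Pool.Agent.UV

open Complex MeasureTheory Finset Pool.Agent.GH Pool.Agent.UH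
open scoped Real ComplexConjugate

/-- The cut-off function: `1` for `u ≤ 1 - 1/N`, `0` for `u ≥ 1`. -/
noncomputable def Fd (N : ℕ) (u : ℝ) : ℝ := Real.smoothTransition (N * (1 - u))

/-- The exponent `η = 1/(2(N+1))`. -/
noncomputable def et (N : ℕ) : ℝ := 1 / (2 * (N + 1))

/-- The exponent of the twisted moment: lengths `T^{1/2 - 2 kp}`. -/
noncomputable def kp (N : ℕ) : ℝ := et N / 4

/-- The exponent of the length of the weights. -/
noncomputable def ep (N : ℕ) : ℝ := et N / 96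

/-- The length `T^{iη}`. -/
noncomputable def yy (N : ℕ) (T : ℝ) (i : ℕ) : ℝ := T ^ ((i : ℝ) * et N)

/-- The smoothness bound `⌊T^{1/2}⌋ + 1`. -/
noncomputable def MM (T : ℝ) : ℕ := Mof (1 / 2) T

/-- The smooth sum of length `y` over all integers, as a function of the character. -/
noncomputable def Gx (N : ℕ) (y : ℝ) (χ : ℕ →*₀ ℂ) : ℂ :=
  ∑ n ∈ Finset.Icc 1 ⌊y⌋₊, (Fd N (Real.log n / Real.log y) : ℂ) * χ n

/-- The mollifier of length `y`, as a function of the character. -/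
noncomputable def Mx (N : ℕ) (y : ℝ) (χ : ℕ →*₀ ℂ) : ℂ :=
  ∑ n ∈ Finset.Icc 1 ⌊y⌋₊, ((ArithmeticFunction.moebius n : ℤ) : ℂ) *
    (Fd N (Real.log n / Real.log y) : ℂ) * χ n

/-- The complex conjugate of a character. -/
noncomputable def cj (χ : ℕ →*₀ ℂ) : ℕ →*₀ ℂ where
  toFun n := conj (χ n)
  map_zero' := by simp
  map_one' := by simp
  map_mul' m n := by simp

/-- Polynomials `∑ c(m,n) χ(m) χ'(n)` in two characters, `m ≤ Q1`, `n ≤ Q2`, `∑ |c(m,n)|/m ≤ B`. -/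
def IsP2 (Q1 Q2 B : ℝ) (g : (ℕ →*₀ ℂ) → (ℕ →*₀ ℂ) → ℂ) : Prop :=
  ∃ (F : Finset (ℕ × ℕ)) (c : ℕ × ℕ → ℂ),
    (∀ q ∈ F, q.1 ≠ 0 ∧ q.2 ≠ 0 ∧ (q.1 : ℝ) ≤ Q1 ∧ (q.2 : ℝ) ≤ Q2) ∧
    ∑ q ∈ F, ‖c q‖ / (q.1 : ℝ) ≤ B ∧
    ∀ χ χ', g χ χ' = ∑ q ∈ F, c q * χ q.1 * χ' q.2

/-- The weight as a polynomial in two characters. -/
noncomputable def W2 (S : BS) (al : ℝ) (l' : ℕ → ℕ) (χ χ' : ℕ →*₀ ℂ) : ℂ :=
  ∏ j ∈ range (S.J + 1), Ex (l' j) (al * ((PS (S.R j) χ + PS (S.R j) χ') / 2))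

/-- The pieces of zeta: `G_1`, `G_{i+1} - G_i`, and `ζ - G_{N-1}` for `i = N - 1`. -/
noncomputable def PP (N : ℕ) (T : ℝ) (i : ℕ) (s : ℂ) : ℂ :=
  (if i + 1 = N then riemannZeta s else Gx N (yy N T (i + 1)) (nC s)) -
    (if i = 0 then 0 else Gx N (yy N T i) (nC s))

/-- `A_0 = 1`, `A_k = 1 - ζ M_k`. -/
noncomputable def AA (N : ℕ) (T : ℝ) (k : ℕ) (s : ℂ) : ℂ :=
  if k = 0 then 1 else 1 - riemannZeta s * Mx N (yy N T k) (nC s)

/-- The joint function with the shift `h` in the piece. -/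
noncomputable def UU (N : ℕ) (T lam : ℝ) (i : ℕ) (h s : ℂ) : ℝ :=
  ‖PP N T i (s + h)‖ ^ (2 * lam) * ‖AA N T (N - 1 - i) s‖ ^ (2 * lam) *
    ‖AA N T N s‖ ^ (2 * (1 - lam))

/-- The exponent of the decay. -/
noncomputable def ka (N : ℕ) : ℝ := (N - 1) ^ 2 / ((N + 1) * (N + 5 / 2))

/-- A good block system whose total length is at most `T^ε`. -/
def BG (S : BS) (lam C : ℝ) (N0 : ℕ) (D ε : ℝ) : Prop :=
  BGood S lam C N0 D ∧
    ∑ j ∈ range (S.J + 1), ((S.l j : ℝ) * Real.log (S.N j) + 10) ≤ ε * Real.log S.T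

end Pool.Agent.UV
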