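import Pool.Agent.Lib.MP_69b2e4_nt.UV.Defs

/-! TASK F1. The cut-off function as a superposition of exponentials. COPY UH/F1.lean: there `Fm u = smoothTransition (50 (1-u))`, here `Fd N u = smoothTransition (N (1-u))`, `N ≥ 1`; and the power 8 becomes 14.
Let `G(u) = e^u smoothTransition(u+1) Fd N u`: smooth, supported in `[-1,1]`, and for `u ≥ 0` `Fd N u = e^{-u} G(u)`. `φ = 𝓕 G` is a Schwartz function, Fourier inversion `G(u) = ∫ φ(ξ) e^{2πiuξ} dξ`. `Fd_one`: `N (1-u) ≥ 1` for `u ≤ 1 - 1/N`. -/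

set_option autoImplicit false

namespace Pool.Agent.UV

open Complex MeasureTheory Finset Pool.Agent.GH
open scoped Real ComplexConjugate

/-- the smooth function with compact support -/
private noncomputable def F1_G (N : ℕ) (u : ℝ) : ℂ :=
  ((Real.exp u * (Real.smoothTransition (u + 1) * Real.smoothTransition (N * (1 - u))) : ℝ) : ℂ)

open scoped ContDiff in
private lemma F1_contDiff (N : ℕ) : ContDiff ℝ ∞ (F1_G N) := by
  have h1 : ContDiff ℝ ∞ (fun u : ℝ => Real.exp u *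
      (Real.smoothTransition (u + 1) * Real.smoothTransition (N * (1 - u)))) := by
    refine Real.contDiff_exp.mul (ContDiff.mul ?_ ?_)
    · exact Real.smoothTransition.contDiff.comp (contDiff_id.add contDiff_const)
    · exact Real.smoothTransition.contDiff.comp (contDiff_const.mul (contDiff_const.sub contDiff_id))
  exact Complex.ofRealCLM.contDiff.comp h1

private lemma F1_supp (N : ℕ) : HasCompactSupport (F1_G N) := by
  refine HasCompactSupport.intro (K := Set.Icc (-1) 1) isCompact_Icc ?_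
  intro u hu
  rw [Set.mem_Icc, not_and_or, not_le, not_le] at hu
  unfold F1_G
  rcases hu with hu | hu
  · rw [Real.smoothTransition.zero_of_nonpos (by linarith : u + 1 ≤ 0)]
    simp
  · have h1 : (N : ℝ) * (1 - u) ≤ 0 :=
      mul_nonpos_of_nonneg_of_nonpos (Nat.cast_nonneg N) (by linarith)
    rw [Real.smoothTransition.zero_of_nonpos h1]
    simp

open scoped FourierTransform SchwartzMap in
theorem fourier_kernel4 (N : ℕ) (hN : 1 ≤ N) : ∃ φ : ℝ → ℂ, Continuous φ ∧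
    Integrable (fun ξ : ℝ => (1 + |ξ|) ^ 14 * ‖φ ξ‖) ∧
    ∀ u : ℝ, 0 ≤ u → (Fd N u : ℂ) = (Real.exp (-u) : ℂ) * ∫ ξ : ℝ, φ ξ * cexp (2 * π * u * ξ * I) := by
  set S : 𝓢(ℝ, ℂ) := (F1_supp N).toSchwartzMap (F1_contDiff N) with hS
  have hSc : (S : ℝ → ℂ) = F1_G N := rfl
  have hF : ((𝓕 S : 𝓢(ℝ, ℂ)) : ℝ → ℂ) = 𝓕 (F1_G N) := by
    rw [SchwartzMap.fourier_coe, hSc]
  refine ⟨𝓕 (F1_G N), ?_, ?_, ?_⟩
  · rw [← hF]; exact (𝓕 S).continuous
  · rw [← hF]
    have h1 : ∀ k : ℕ, Integrable (fun ξ : ℝ => ‖ξ‖ ^ k * ‖(𝓕 S) ξ‖) := fun k =>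
      (𝓕 S).integrable_pow_mul volume k
    have h2 : (fun ξ : ℝ => (1 + |ξ|) ^ 14 * ‖(𝓕 S) ξ‖) =
        fun ξ : ℝ => ∑ k ∈ range 15, ((Nat.choose 14 k : ℕ) : ℝ) * (‖ξ‖ ^ k * ‖(𝓕 S) ξ‖) := by
      funext ξ
      rw [add_comm 1 |ξ|, add_pow, Finset.sum_mul]
      refine Finset.sum_congr rfl fun k _ => ?_
      rw [Real.norm_eq_abs]
      ring
    rw [h2]
    exact integrable_finsetSum _ fun k _ => (h1 k).const_mul _
  · intro u hu
    have hint : Integrable (𝓕 (F1_G N)) := by rw [← hF]; exact (𝓕 S).integrable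
    have hint0 : Integrable (F1_G N) := by rw [← hSc]; exact S.integrable
    have hinv := Continuous.fourierInv_fourier_eq (h := (F1_contDiff N).continuous) hint0 hint
    have h3 : F1_G N u = ∫ ξ : ℝ, 𝓕 (F1_G N) ξ * cexp (2 * π * u * ξ * I) := by
      have h4 := congrFun hinv u
      rw [← h4, Real.fourierInv_eq']
      refine integral_congr_ae (Filter.Eventually.of_forall fun ξ => ?_)
      simp only [smul_eq_mul, RCLike.inner_apply, conj_trivial]
      rw [mul_comm]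
      congr 2
      push_cast
      ring
    rw [← h3]
    unfold F1_G Fd
    rw [Real.smoothTransition.one_of_one_le (by linarith : 1 ≤ u + 1)]
    rw [← Complex.ofReal_mul, ← mul_assoc, ← Real.exp_add]
    simp

theorem Fd_mem (N : ℕ) (u : ℝ) : 0 ≤ Fd N u ∧ Fd N u ≤ 1 := by
  exact ⟨Real.smoothTransition.nonneg _, Real.smoothTransition.le_one _⟩

theorem Fd_one {N : ℕ} (hN : 1 ≤ N) {u : ℝ} (hu : u ≤ 1 - 1 / N) : Fd N u = 1 := by
  have hN0 : (0 : ℝ) < N := by exact_mod_cast hN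
  refine Real.smoothTransition.one_of_one_le ?_
  have h1 : 1 / (N : ℝ) ≤ 1 - u := by linarith
  calc (1 : ℝ) = N * (1 / N) := by field_simp
    _ ≤ N * (1 - u) := mul_le_mul_of_nonneg_left h1 hN0.le

theorem Fd_zero (N : ℕ) {u : ℝ} (hu : 1 ≤ u) : Fd N u = 0 := by
  exact Real.smoothTransition.zero_of_nonpos
    (mul_nonpos_of_nonneg_of_nonpos (Nat.cast_nonneg N) (by linarith))

private theorem F1_Fd0 {N : ℕ} (hN : 1 ≤ N) : Fd N 0 = 1 := by
  refine Fd_one hN ?_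
  have h1 : (1 : ℝ) ≤ N := by exact_mod_cast hN
  have h2 : 1 / (N : ℝ) ≤ 1 := by
    rw [div_le_one (by linarith)]
    exact h1
  linarith

private theorem F1_yy (N : ℕ) (T : ℝ) : yy N T 0 = 1 := by
  unfold yy
  simp

/-- the case of length 1 -/
theorem Gx_one {N : ℕ} (hN : 1 ≤ N) (T : ℝ) (χ : ℕ →*₀ ℂ) : Gx N (yy N T 0) χ = 1 := by
  unfold Gx
  rw [F1_yy]
  simp [F1_Fd0 hN]

theorem Mx_one {N : ℕ} (hN : 1 ≤ N) (T : ℝ) (χ : ℕ →*₀ ℂ) : Mx N (yy N T 0) χ = 1 := by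
  unfold Mx
  rw [F1_yy]
  simp [F1_Fd0 hN]

end Pool.Agent.UV
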