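import Pool.Agent.Lib.MP_69b2e4_nt.UV.Defs
import Pool.Agent.Lib.MP_69b2e4_nt.Mg.G041

/-! TASK R6. Prime number sums. (Template: UH/R6.lean.) `Y = log (yy N T i) = i η log T`, `η = et N = 1/(2(N+1))`, `1 ≤ i ≤ N`, so `η log T ≤ Y ≤ log T`; `m = log (MM T) ≤ (1/2) log T + log 2 ≤ Y/η` for `T ≥ T0(N)`.
`sum_dp4`: put `A = 8(1+|ξ|) ≥ 8`. Small primes (`log p ≤ Y/A`): `∑ A log p/(p Y) ≤ (A/Y)(Y/A + C') ≤ 1 + C'/log 2` by `mertens_log` with `z = ⌊e^{Y/A}⌋` (if `Y/A < log 2` there are none; otherwise `A/Y ≤ 1/log 2`). Large primes (`log p > Y/A`, `p < MM`): `∑ 2/p`: if `Y/A ≥ 2 log 2` put `z0 = ⌊e^{Y/A}⌋`,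
`log z0 ≥ Y/(2A)`; `mertens_inv`: `∑_{z0 < p < MM} 1/p ≤ log(m/log z0) + C'/log z0 ≤ log(2A/η) + C'/log 2`. If `Y/A < 2 log 2`: `∑_{p < MM} 1/p ≤ 1/2 + log(m/log 2) + C'/log 2`, `m ≤ Y/η ≤ 2A log 2/η`. So the large primes contribute at most `2 log A + C'' ≤ 2 log(1+|ξ|) + C'''`, `C'''` depends on `N`.
`sum_logp`: `mertens_log`: `∑_{p < MM T} log p/p ≤ m + C' ≤ log T + C'`, divided by `log T ≥ 1`. -/

set_option autoImplicit false

namespace Pool.Agent.UV

open Complex MeasureTheory Finset Pool.Agent.GH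
open scoped Real ComplexConjugate

/-- the weight of a prime for the frequency `ξ` -/
noncomputable def dp4 (N : ℕ) (T : ℝ) (i : ℕ) (ξ : ℝ) (p : ℕ) : ℝ :=
  min 2 (8 * (1 + |ξ|) * (Real.log p / Real.log (yy N T i)))

private theorem R6_core {C1 C2 : ℝ} (hC1 : 0 ≤ C1) (hC2 : 0 ≤ C2)
    (h1 : ∀ y z : ℕ, 2 ≤ y → y ≤ z →
      |∑ p ∈ (Finset.Ioc y z).filter Nat.Prime, 1 / (p : ℝ) - Real.log (Real.log z / Real.log y)| ≤
      C1 / Real.log y)
    (h2 : ∀ y z : ℕ, 1 ≤ y → y ≤ z →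
      |∑ p ∈ (Finset.Ioc y z).filter Nat.Prime, Real.log p / p - (Real.log z - Real.log y)| ≤ C2)
    (M : ℕ) (hM : 2 ≤ M) (Y a B : ℝ) (hY : 0 < Y) (ha : 1 ≤ a) (hB1 : 1 ≤ B) (hMY : Real.log M ≤ B * Y) :
    ∑ p ∈ Nat.primesBelow M, min 2 (a * (Real.log p / Y)) / p ≤
      1 + C2 / Real.log 2 + 2 * (C1 / Real.log 2) + 2 * Real.log (2 * B * a) := by
  have hl2 : 0 < Real.log 2 := Real.log_pos (by norm_num)
  have ha0 : 0 < a := by linarith
  have hfnn : ∀ p : ℕ, 0 ≤ min 2 (a * (Real.log p / Y)) / (p : ℝ) := by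
    intro p
    have : 0 ≤ Real.log (p : ℝ) := Real.log_natCast_nonneg p
    apply div_nonneg
    · apply le_min (by norm_num)
      positivity
    · exact Nat.cast_nonneg _
  have hf2 : ∀ p : ℕ, min 2 (a * (Real.log p / Y)) / (p : ℝ) ≤ 2 * (1 / (p : ℝ)) := by
    intro p
    rw [mul_one_div]
    exact div_le_div_of_nonneg_right (min_le_left _ _) (Nat.cast_nonneg _)
  have hlogM : 0 < Real.log (M : ℝ) := Real.log_pos (by
    have : (2 : ℝ) ≤ M := by exact_mod_cast hM
    linarith)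
  by_cases hX : Y / a < Real.log 2
  · have hsub : Nat.primesBelow M ⊆ insert 2 ((Finset.Ioc 2 M).filter Nat.Prime) := by
      intro p hp
      rw [Nat.mem_primesBelow] at hp
      rw [Finset.mem_insert, Finset.mem_filter, Finset.mem_Ioc]
      have := hp.2.two_le
      by_cases h : p = 2
      · exact Or.inl h
      · exact Or.inr ⟨⟨by omega, by omega⟩, hp.2⟩
    have hni : 2 ∉ (Finset.Ioc 2 M).filter Nat.Prime := by
      rw [Finset.mem_filter, Finset.mem_Ioc]
      omega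
    have hm := (abs_le.1 (h1 2 M le_rfl hM)).2
    have hlog : Real.log (Real.log M / Real.log (2 : ℕ)) ≤ Real.log (2 * B * a) := by
      apply Real.log_le_log
      · have : (0 : ℝ) < Real.log (2 : ℕ) := by exact_mod_cast hl2
        positivity
      · have h3 : Y < Real.log 2 * a := (div_lt_iff₀ ha0).1 hX
        have h4 : Real.log ((2 : ℕ) : ℝ) = Real.log 2 := by norm_num
        rw [h4, div_le_iff₀ hl2]
        have h6 : B * Y ≤ B * (Real.log 2 * a) := mul_le_mul_of_nonneg_left h3.le (by linarith)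
        have h7 : 0 ≤ B * (Real.log 2 * a) := by positivity
        linarith
    have h4 : Real.log ((2 : ℕ) : ℝ) = Real.log 2 := by norm_num
    rw [h4] at hm
    rw [h4] at hlog
    have hc2 : 0 ≤ C2 / Real.log 2 := by positivity
    calc ∑ p ∈ Nat.primesBelow M, min 2 (a * (Real.log p / Y)) / (p : ℝ)
        ≤ ∑ p ∈ insert 2 ((Finset.Ioc 2 M).filter Nat.Prime), min 2 (a * (Real.log p / Y)) / (p : ℝ) :=
          Finset.sum_le_sum_of_subset_of_nonneg hsub (fun p _ _ => hfnn p)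
      _ ≤ ∑ p ∈ insert 2 ((Finset.Ioc 2 M).filter Nat.Prime), 2 * (1 / (p : ℝ)) :=
          Finset.sum_le_sum (fun p _ => hf2 p)
      _ = 1 + 2 * ∑ p ∈ (Finset.Ioc 2 M).filter Nat.Prime, 1 / (p : ℝ) := by
          rw [Finset.sum_insert hni, Finset.mul_sum]
          norm_num
      _ ≤ 1 + C2 / Real.log 2 + 2 * (C1 / Real.log 2) + 2 * Real.log (2 * B * a) := by
          linarith
  · push Not at hX
    have hXpos : 0 < Y / a := by positivity
    have hexp2 : (2 : ℝ) ≤ Real.exp (Y / a) := by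
      calc (2 : ℝ) = Real.exp (Real.log 2) := (Real.exp_log (by norm_num)).symm
        _ ≤ Real.exp (Y / a) := Real.exp_le_exp.2 hX
    have hz2 : 2 ≤ ⌊Real.exp (Y / a)⌋₊ := Nat.le_floor (by exact_mod_cast hexp2)
    have hzle : (⌊Real.exp (Y / a)⌋₊ : ℝ) ≤ Real.exp (Y / a) := Nat.floor_le (Real.exp_pos _).le
    have hzge : Real.exp (Y / a) < (⌊Real.exp (Y / a)⌋₊ : ℝ) + 1 := Nat.lt_floor_add_one _
    generalize ⌊Real.exp (Y / a)⌋₊ = z at hz2 hzle hzge
    have hz2' : (2 : ℝ) ≤ z := by exact_mod_cast hz2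
    have hlz : Real.log z ≤ Y / a := by
      rw [Real.log_le_iff_le_exp (by linarith)]
      exact hzle
    have hlz2 : Real.log 2 ≤ Real.log z := Real.log_le_log (by norm_num) hz2'
    have hlzX : Y / a / 2 ≤ Real.log z := by
      by_cases h : Y / a ≤ 2 * Real.log 2
      · linarith
      · push Not at h
        have h3 : Real.exp (Y / a) / 2 ≤ z := by linarith
        have h4 : Y / a - Real.log 2 ≤ Real.log z := by
          have h5 := Real.log_le_log (by positivity) h3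
          rw [Real.log_div (Real.exp_pos _).ne' (by norm_num), Real.log_exp] at h5
          exact h5
        linarith
    have hlzpos : 0 < Real.log z := by linarith
    have hsub : Nat.primesBelow M ⊆ ((Finset.Ioc 1 z).filter Nat.Prime) ∪
        ((Finset.Ioc z (max z M)).filter Nat.Prime) := by
      intro p hp
      rw [Nat.mem_primesBelow] at hp
      rw [Finset.mem_union, Finset.mem_filter, Finset.mem_filter, Finset.mem_Ioc, Finset.mem_Ioc]
      have := hp.2.two_le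
      by_cases h : p ≤ z
      · exact Or.inl ⟨⟨by omega, h⟩, hp.2⟩
      · exact Or.inr ⟨⟨by omega, le_trans (by omega) (le_max_right _ _)⟩, hp.2⟩
    have hdisj : Disjoint ((Finset.Ioc 1 z).filter Nat.Prime)
        ((Finset.Ioc z (max z M)).filter Nat.Prime) := by
      rw [Finset.disjoint_left]
      intro p hp hp'
      rw [Finset.mem_filter, Finset.mem_Ioc] at hp hp'
      omega
    have hA : ∑ p ∈ (Finset.Ioc 1 z).filter Nat.Prime, min 2 (a * (Real.log p / Y)) / (p : ℝ) ≤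
        1 + C2 / Real.log 2 := by
      have hm := (abs_le.1 (h2 1 z le_rfl (by omega))).2
      have h3 : ∑ p ∈ (Finset.Ioc 1 z).filter Nat.Prime, min 2 (a * (Real.log p / Y)) / (p : ℝ) ≤
          (a / Y) * ∑ p ∈ (Finset.Ioc 1 z).filter Nat.Prime, Real.log p / (p : ℝ) := by
        rw [Finset.mul_sum]
        apply Finset.sum_le_sum
        intro p _
        calc min 2 (a * (Real.log p / Y)) / (p : ℝ) ≤ (a * (Real.log p / Y)) / (p : ℝ) :=
              div_le_div_of_nonneg_right (min_le_right _ _) (Nat.cast_nonneg _)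
          _ = (a / Y) * (Real.log p / (p : ℝ)) := by ring
      have h4 : ∑ p ∈ (Finset.Ioc 1 z).filter Nat.Prime, Real.log p / (p : ℝ) ≤ Y / a + C2 := by
        have h5 : Real.log ((1 : ℕ) : ℝ) = 0 := by simp
        rw [h5] at hm
        linarith
      have h6 : (a / Y) * (Y / a + C2) = 1 + C2 / (Y / a) := by
        field_simp
      have h7 : C2 / (Y / a) ≤ C2 / Real.log 2 := div_le_div_of_nonneg_left hC2 hl2 hX
      have h8 : (a / Y) * ∑ p ∈ (Finset.Ioc 1 z).filter Nat.Prime, Real.log p / (p : ℝ) ≤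
          (a / Y) * (Y / a + C2) := mul_le_mul_of_nonneg_left h4 (by positivity)
      linarith
    have hB : ∑ p ∈ (Finset.Ioc z (max z M)).filter Nat.Prime,
        min 2 (a * (Real.log p / Y)) / (p : ℝ) ≤ 2 * (C1 / Real.log 2) + 2 * Real.log (2 * B * a) := by
      have hm := (abs_le.1 (h1 z (max z M) hz2 (le_max_left _ _))).2
      have h3 : ∑ p ∈ (Finset.Ioc z (max z M)).filter Nat.Prime,
          min 2 (a * (Real.log p / Y)) / (p : ℝ) ≤
          2 * ∑ p ∈ (Finset.Ioc z (max z M)).filter Nat.Prime, 1 / (p : ℝ) := by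
        rw [Finset.mul_sum]
        exact Finset.sum_le_sum (fun p _ => hf2 p)
      have h4 : Real.log ((max z M : ℕ) : ℝ) ≤ B * Y := by
        rcases le_total z M with h | h
        · rw [max_eq_right h]
          exact hMY
        · rw [max_eq_left h]
          have : Y / a ≤ Y := div_le_self hY.le ha
          nlinarith
      have h4' : 0 < Real.log ((max z M : ℕ) : ℝ) := by
        apply lt_of_lt_of_le hlzpos
        apply Real.log_le_log (by linarith)
        exact_mod_cast le_max_left z M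
      have h5 : Real.log (Real.log ((max z M : ℕ) : ℝ) / Real.log z) ≤ Real.log (2 * B * a) := by
        apply Real.log_le_log (by positivity)
        rw [div_le_iff₀ hlzpos]
        have h6 : 2 * B * a * (Y / a / 2) = B * Y := by
          field_simp
        have h7 : 2 * B * a * (Y / a / 2) ≤ 2 * B * a * Real.log z :=
          mul_le_mul_of_nonneg_left hlzX (by positivity)
        linarith
      have h6 : C1 / Real.log z ≤ C1 / Real.log 2 := div_le_div_of_nonneg_left hC1 hl2 hlz2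
      linarith
    calc ∑ p ∈ Nat.primesBelow M, min 2 (a * (Real.log p / Y)) / (p : ℝ)
        ≤ ∑ p ∈ ((Finset.Ioc 1 z).filter Nat.Prime) ∪
          ((Finset.Ioc z (max z M)).filter Nat.Prime), min 2 (a * (Real.log p / Y)) / (p : ℝ) :=
          Finset.sum_le_sum_of_subset_of_nonneg hsub (fun p _ _ => hfnn p)
      _ = ∑ p ∈ (Finset.Ioc 1 z).filter Nat.Prime, min 2 (a * (Real.log p / Y)) / (p : ℝ) +
          ∑ p ∈ (Finset.Ioc z (max z M)).filter Nat.Prime,
            min 2 (a * (Real.log p / Y)) / (p : ℝ) := Finset.sum_union hdisj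
      _ ≤ 1 + C2 / Real.log 2 + 2 * (C1 / Real.log 2) + 2 * Real.log (2 * B * a) := by linarith

theorem sum_dp4 (N : ℕ) (hN : 1 ≤ N) : ∃ C T0 : ℝ, 0 ≤ C ∧ ∀ T ξ : ℝ, T0 ≤ T → ∀ i : ℕ, 1 ≤ i → i ≤ N →
    ∑ p ∈ Nat.primesBelow (MM T), dp4 N T i ξ p / p ≤ C + 2 * Real.log (1 + |ξ|) := by
  obtain ⟨C1, hC1, h1⟩ := mertens_inv
  obtain ⟨C2, hC2, h2⟩ := mertens_log
  have hl2 : 0 < Real.log 2 := Real.log_pos (by norm_num)
  have hN' : (1 : ℝ) ≤ N := by exact_mod_cast hN
  have hη : 0 < et N := by unfold et; positivity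
  have hBη : (2 * ((N : ℝ) + 1)) * et N = 1 := by
    unfold et
    field_simp
  have hl32 : 0 < Real.log (32 * ((N : ℝ) + 1)) := Real.log_pos (by linarith)
  refine ⟨1 + C2 / Real.log 2 + 2 * (C1 / Real.log 2) + 2 * Real.log (32 * ((N : ℝ) + 1)),
    Real.exp 10, by positivity, ?_⟩
  intro T ξ hT i hi hiN
  have hTpos : 0 < T := lt_of_lt_of_le (Real.exp_pos _) hT
  have hT1 : 1 ≤ T := le_trans (Real.one_le_exp (by norm_num)) hT
  have hlT : 10 ≤ Real.log T := (Real.le_log_iff_exp_le hTpos).2 hT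
  have hi' : (1 : ℝ) ≤ i := by exact_mod_cast hi
  have hY : Real.log (yy N T i) = i * et N * Real.log T := by
    unfold yy
    rw [Real.log_rpow hTpos]
  have hYge : et N * Real.log T ≤ Real.log (yy N T i) := by
    rw [hY]
    have h5 : 1 * (et N * Real.log T) ≤ i * (et N * Real.log T) :=
      mul_le_mul_of_nonneg_right hi' (by positivity)
    linarith
  have hYpos : 0 < Real.log (yy N T i) := lt_of_lt_of_le (by positivity) hYge
  have hpow1 : 1 ≤ T ^ (1 / 2 : ℝ) := Real.one_le_rpow hT1 (by norm_num)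
  have hM2 : 2 ≤ MM T := by
    unfold MM Mof
    have : 1 ≤ ⌊T ^ (1 / 2 : ℝ)⌋₊ := Nat.le_floor (by exact_mod_cast hpow1)
    omega
  have hMle : ((MM T : ℕ) : ℝ) ≤ 2 * T ^ (1 / 2 : ℝ) := by
    unfold MM Mof
    push_cast
    have := Nat.floor_le (show 0 ≤ T ^ (1 / 2 : ℝ) by positivity)
    linarith
  have hMY : Real.log ((MM T : ℕ) : ℝ) ≤ 2 * ((N : ℝ) + 1) * Real.log (yy N T i) := by
    have h3 : Real.log ((MM T : ℕ) : ℝ) ≤ Real.log (2 * T ^ (1 / 2 : ℝ)) := by
      apply Real.log_le_log _ hMle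
      have : (2 : ℝ) ≤ ((MM T : ℕ) : ℝ) := by exact_mod_cast hM2
      linarith
    rw [Real.log_mul (by norm_num) (by positivity), Real.log_rpow hTpos] at h3
    have h4 : Real.log 2 < 0.6931471808 := Real.log_two_lt_d9
    have h5 : 2 * ((N : ℝ) + 1) * (et N * Real.log T) ≤
        2 * ((N : ℝ) + 1) * Real.log (yy N T i) := mul_le_mul_of_nonneg_left hYge (by positivity)
    have h6 : 2 * ((N : ℝ) + 1) * (et N * Real.log T) = Real.log T := by
      rw [← mul_assoc, hBη, one_mul]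
    linarith
  have hξ : 0 ≤ |ξ| := abs_nonneg ξ
  have h3 := R6_core hC1 hC2 h1 h2 (MM T) hM2 (Real.log (yy N T i)) (8 * (1 + |ξ|))
    (2 * ((N : ℝ) + 1)) hYpos (by linarith) (by linarith) hMY
  have h4 : Real.log (2 * (2 * ((N : ℝ) + 1)) * (8 * (1 + |ξ|))) =
      Real.log (32 * ((N : ℝ) + 1)) + Real.log (1 + |ξ|) := by
    rw [← Real.log_mul (by linarith) (by linarith)]
    congr 1
    ring
  rw [h4] at h3
  unfold dp4
  linarith

theorem sum_logp : ∃ C T0 : ℝ, 0 ≤ C ∧ ∀ T : ℝ, T0 ≤ T →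
    ∑ p ∈ Nat.primesBelow (MM T), (Real.log p / Real.log T) / p ≤ C := by
  obtain ⟨C2, hC2, h2⟩ := mertens_log
  refine ⟨1 + C2, Real.exp 10, by linarith, ?_⟩
  intro T hT
  have hTpos : 0 < T := lt_of_lt_of_le (Real.exp_pos _) hT
  have hT1 : 1 ≤ T := le_trans (Real.one_le_exp (by norm_num)) hT
  have hlT : 10 ≤ Real.log T := (Real.le_log_iff_exp_le hTpos).2 hT
  have hpow1 : 1 ≤ T ^ (1 / 2 : ℝ) := Real.one_le_rpow hT1 (by norm_num)
  have hM2 : 2 ≤ MM T := by
    unfold MM Mof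
    have : 1 ≤ ⌊T ^ (1 / 2 : ℝ)⌋₊ := Nat.le_floor (by exact_mod_cast hpow1)
    omega
  have hMle : ((MM T : ℕ) : ℝ) ≤ 2 * T ^ (1 / 2 : ℝ) := by
    unfold MM Mof
    push_cast
    have := Nat.floor_le (show 0 ≤ T ^ (1 / 2 : ℝ) by positivity)
    linarith
  have hm := (abs_le.1 (h2 1 (MM T) le_rfl (by omega))).2
  have h0 : Real.log ((1 : ℕ) : ℝ) = 0 := by simp
  rw [h0] at hm
  have hlM : Real.log ((MM T : ℕ) : ℝ) ≤ Real.log T := by
    have h3 : Real.log ((MM T : ℕ) : ℝ) ≤ Real.log (2 * T ^ (1 / 2 : ℝ)) := by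
      apply Real.log_le_log _ hMle
      have : (2 : ℝ) ≤ ((MM T : ℕ) : ℝ) := by exact_mod_cast hM2
      linarith
    rw [Real.log_mul (by norm_num) (by positivity), Real.log_rpow hTpos] at h3
    have h4 : Real.log 2 < 0.6931471808 := Real.log_two_lt_d9
    linarith
  have hsub : Nat.primesBelow (MM T) ⊆ (Finset.Ioc 1 (MM T)).filter Nat.Prime := by
    intro p hp
    rw [Nat.mem_primesBelow] at hp
    rw [Finset.mem_filter, Finset.mem_Ioc]
    have := hp.2.two_le
    exact ⟨⟨by omega, by omega⟩, hp.2⟩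
  have h5 : ∑ p ∈ Nat.primesBelow (MM T), (Real.log p / Real.log T) / (p : ℝ) =
      (∑ p ∈ Nat.primesBelow (MM T), Real.log p / (p : ℝ)) / Real.log T := by
    rw [Finset.sum_div]
    refine Finset.sum_congr rfl fun p _ => ?_
    rw [div_right_comm]
  have h6 : ∑ p ∈ Nat.primesBelow (MM T), Real.log p / (p : ℝ) ≤
      ∑ p ∈ (Finset.Ioc 1 (MM T)).filter Nat.Prime, Real.log p / (p : ℝ) :=
    Finset.sum_le_sum_of_subset_of_nonneg hsub fun p _ _ =>
      div_nonneg (Real.log_natCast_nonneg p) (Nat.cast_nonneg _)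
  rw [h5, div_le_iff₀ (by linarith)]
  nlinarith

end Pool.Agent.UV
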