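import Pool.Agent.Lib.MP_69b2e4_nt.UV.Defs
import Pool.Agent.Lib.MP_69b2e4_nt.GH.SysEx

/-! TASK S1. Existence of the block system with total length at most `T^ε`. COPY UH/S1.lean (existence of the system, `bs_exists`; its lemmas are private) and choose the parameter `θ` also so small that `6 θ³ ≤ ε/2`.
The length: in the proof of `len` in GH/SysEx.lean (lines 569-630) the sum `∑_{j ≤ J} (l_j log N_j + k + 10)` is bounded by `6 θ³ log T + (J+1)(k+10)`, `J = SysEx_J T = ⌈4 log log log T⌉₊`; here `k = 1`: copy that computation (`log N_j = SysEx_x θ T j = θ^5 e^{-j} log T`, `l_j = ⌈e^{j/2}/θ²⌉₊ ≤ 2 e^{j/2}/θ²`,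
`∑_j 2θ³ e^{-j/2} ≤ 6θ³`), and `(J+1)·11 ≤ (ε/2) log T` for `T ≥ T0(ε)` (`log log log T = o(log T)`). -/

set_option autoImplicit false

namespace Pool.Agent.UV

open Complex MeasureTheory Finset Pool.Agent.GH Pool.Agent.UH
open scoped Real ComplexConjugate

private lemma S1_sys (k C : ℝ) (p0 : ℕ) (hk : 0 < k) (hC : 0 ≤ C) (hp0 : 2 ≤ p0) :
    ∃ θ0 : ℝ, 0 < θ0 ∧ ∀ θ : ℝ, 0 < θ → θ ≤ θ0 → ∃ c T0 : ℝ, 0 < c ∧ ∀ T : ℝ, T0 ≤ T →
      Good (SysEx_S k θ T p0) C c := by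
  obtain ⟨C1, hC1, hm1⟩ := mertens_inv
  obtain ⟨C2, hC2, hm2⟩ := mertens_log
  have hlp0 : 0 < Real.log p0 := Real.log_pos (by exact_mod_cast (by omega : 1 < p0))
  have hlog2 : 0 < Real.log 2 := Real.log_pos (by norm_num)
  set C' : ℝ := max C1 C2 with hC'
  have hC'0 : 0 ≤ C' := hC1.trans (le_max_left _ _)
  have hm : ∀ y z : ℕ, 2 ≤ y → y ≤ z →
      |∑ p ∈ (Finset.Ioc y z).filter Nat.Prime, 1 / (p : ℝ) -
        Real.log (Real.log z / Real.log y)| ≤ C' / Real.log y := by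
    intro y z hy hz
    refine (hm1 y z hy hz).trans ?_
    have : 0 < Real.log y := Real.log_pos (by exact_mod_cast (by omega : 1 < y))
    exact div_le_div_of_nonneg_right (le_max_left _ _) this.le
  have hml : ∀ y z : ℕ, 1 ≤ y → y ≤ z →
      |∑ p ∈ (Finset.Ioc y z).filter Nat.Prime, Real.log p / p -
        (Real.log z - Real.log y)| ≤ C' := fun y z hy hz =>
    (hm2 y z hy hz).trans (le_max_right _ _)
  refine ⟨min (1 / 100) (min (1 / (30 * (k + 1))) (min (Real.exp (-(3 * C)) / 20)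
    (1 / (2000 * (11 * C + 1)) ^ 2))), ?_, ?_⟩
  · refine lt_min (by norm_num) (lt_min (by positivity) (lt_min (by positivity) (by positivity)))
  intro θ hθ hθ0
  have h1 : θ ≤ 1 / 100 := hθ0.trans (min_le_left _ _)
  have h2' : θ ≤ 1 / (30 * (k + 1)) := (hθ0.trans (min_le_right _ _)).trans (min_le_left _ _)
  have h3' : θ ≤ Real.exp (-(3 * C)) / 20 :=
    ((hθ0.trans (min_le_right _ _)).trans (min_le_right _ _)).trans (min_le_left _ _)
  have h4 : θ ≤ 1 / (2000 * (11 * C + 1)) ^ 2 :=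
    ((hθ0.trans (min_le_right _ _)).trans (min_le_right _ _)).trans (min_le_right _ _)
  have h2 : 800 * (k + 1) ^ 2 * θ ^ 2 ≤ 1 := by
    rw [le_div_iff₀ (by positivity)] at h2'
    have h5 : (θ * (30 * (k + 1))) ^ 2 ≤ 1 := pow_le_one₀ (by positivity) h2'
    have h6 : 0 ≤ (k + 1) ^ 2 * θ ^ 2 := by positivity
    nlinarith
  have h3 : θ ^ 2 ≤ Real.exp (-(3 * C)) / 20 := by
    have : θ ^ 2 ≤ θ := by nlinarith
    linarith
  set D : ℝ := |Real.log (Real.log p0)| + C' / Real.log p0 with hD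
  have hD0 : 0 ≤ D := by positivity
  set K : ℝ := 2 * Real.log 2 + 20 * C' + Real.log p0 with hK
  have hK0 : 0 < K := by positivity
  set X0 : ℝ := 1 + 2 * (C + 1) + |C * (D + 1) + Real.log (2 / θ ^ 2)| + D + 800 * (k + 1) ^ 2
    with hX0
  set ε : ℝ := min (θ ^ 5 / (3 * K)) (1 / (48000 * (k + 10))) with hε
  have hε0 : 0 < ε := lt_min (by positivity) (by positivity)
  have hev1 : ∀ᶠ T : ℝ in Filter.atTop, X0 ≤ Real.log (Real.log T) :=
    (Real.tendsto_log_atTop.comp Real.tendsto_log_atTop).eventually_ge_atTop X0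
  have hev2 : ∀ᶠ T : ℝ in Filter.atTop, 1 / θ ^ 10 ≤ Real.log T :=
    Real.tendsto_log_atTop.eventually_ge_atTop _
  have hev3 : ∀ᶠ T : ℝ in Filter.atTop, ‖Real.log (Real.log T) ^ 4‖ ≤ ε * ‖id (Real.log T)‖ :=
    Real.tendsto_log_atTop.eventually
      ((Real.isLittleO_pow_log_id_atTop (n := 4)).bound hε0)
  obtain ⟨T0, hT0⟩ := Filter.eventually_atTop.1
    ((hev1.and hev2).and (hev3.and (Filter.eventually_ge_atTop (1 : ℝ))))
  refine ⟨_, T0, Real.exp_pos
    (-(k ^ 2 * (Real.log (2 * Real.log p0 / θ ^ 5) + C' / Real.log p0))), ?_⟩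
  intro T hT
  obtain ⟨⟨ha, hb⟩, hc, hd⟩ := hT0 T hT
  have hL0 : 0 < Real.log T := lt_of_lt_of_le (by positivity) hb
  have hab := neg_abs_le (C * (D + 1) + Real.log (2 / θ ^ 2))
  have hab' := le_abs_self (C * (D + 1) + Real.log (2 / θ ^ 2))
  have habn := abs_nonneg (C * (D + 1) + Real.log (2 / θ ^ 2))
  have hk8 : 0 ≤ 800 * (k + 1) ^ 2 := by positivity
  have hX1 : 1 ≤ Real.log (Real.log T) := by linarith
  have hc' : Real.log (Real.log T) ^ 4 ≤ ε * Real.log T := by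
    rw [Real.norm_of_nonneg (by positivity), id, Real.norm_of_nonneg hL0.le] at hc
    exact hc
  refine SysEx_main k C C' D K (Real.log (Real.log T)) θ T p0 hk hC hC'0 hp0 hm hml hθ h1 h2 h3 h4
    hD (by linarith) (by linarith) (by linarith) rfl hX1 (by linarith) (by linarith) (by linarith)
    (by linarith) hd hb ?_ ?_
  · have h5 : ε ≤ θ ^ 5 / (3 * K) := min_le_left _ _
    have h6 : Real.log (Real.log T) ^ 4 ≤ θ ^ 5 / (3 * K) * Real.log T :=
      hc'.trans (mul_le_mul_of_nonneg_right h5 hL0.le)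
    calc 3 * K * Real.log (Real.log T) ^ 4 ≤ 3 * K * (θ ^ 5 / (3 * K) * Real.log T) :=
          mul_le_mul_of_nonneg_left h6 (by positivity)
      _ = θ ^ 5 * Real.log T := by field_simp
  · have h5 : ε ≤ 1 / (48000 * (k + 10)) := min_le_right _ _
    have h6 : Real.log (Real.log T) ^ 4 ≤ 1 / (48000 * (k + 10)) * Real.log T :=
      hc'.trans (mul_le_mul_of_nonneg_right h5 hL0.le)
    calc 48000 * (k + 10) * Real.log (Real.log T) ^ 4 ≤
        48000 * (k + 10) * (1 / (48000 * (k + 10)) * Real.log T) :=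
          mul_le_mul_of_nonneg_left h6 (by positivity)
      _ = Real.log T := by field_simp

private lemma S1_log_ge {x : ℝ} (hx : 2 * Real.log 2 ≤ x) :
    x / 2 ≤ Real.log (⌊Real.exp x⌋₊ : ℝ) := by
  have h2 : 0 < Real.log 2 := Real.log_pos (by norm_num)
  have h1 : Real.exp x / 2 ≤ (⌊Real.exp x⌋₊ : ℝ) := by
    have h3 : Real.exp x < (⌊Real.exp x⌋₊ : ℝ) + 1 := Nat.lt_floor_add_one _
    have h4 : (2 : ℝ) ≤ Real.exp x := by
      rw [← Real.log_le_iff_le_exp (by norm_num)]; linarith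
    linarith
  have h5 : Real.log (Real.exp x / 2) ≤ Real.log (⌊Real.exp x⌋₊ : ℝ) :=
    Real.log_le_log (by positivity) h1
  rw [Real.log_div (Real.exp_pos x).ne' (by norm_num), Real.log_exp] at h5
  linarith

private lemma S1_rpow_eq (x : ℝ) : (2 : ℝ)⁻¹ ^ x = Real.exp (-(Real.log 2 * x)) := by
  rw [Real.rpow_def_of_pos (by norm_num), Real.log_inv]
  ring_nf

private lemma S1_pow_eq (m : ℕ) : (2 : ℝ)⁻¹ ^ m = Real.exp (-(Real.log 2 * m)) := by
  rw [← Real.rpow_natCast, Real.rpow_def_of_pos (by norm_num), Real.log_inv]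
  ring_nf

private lemma S1_geom (n : ℕ) : ∑ j ∈ range n, (2 : ℝ)⁻¹ ^ j ≤ 2 := by
  calc ∑ j ∈ range n, (2 : ℝ)⁻¹ ^ j ≤ ∑' j : ℕ, (2 : ℝ)⁻¹ ^ j :=
        (summable_geometric_of_lt_one (by norm_num) (by norm_num)).sum_le_tsum _
          (fun i _ => pow_nonneg (by norm_num) i)
    _ = (1 - (2 : ℝ)⁻¹)⁻¹ := tsum_geometric_of_lt_one (by norm_num) (by norm_num)
    _ = 2 := by norm_num

/-- The truncation sum. -/
private lemma S1_trunc {g C C' : ℝ} (hg : 0 < g) (hCC : C' * (g / 2) = C) (J : ℕ)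
    (l : ℕ → ℕ) (s : ℕ → ℝ) (hl : ∀ j : ℕ, (2 : ℝ) + j ≤ g / 2 * l j)
    (h : ∀ j ≤ J, (2 : ℝ)⁻¹ ^ (l j) * Real.exp (C' * (s j + 1)) ≤ 1) :
    ∑ j ∈ range (J + 1), (2 : ℝ)⁻¹ ^ (g * l j) * Real.exp (C * (s j + 1)) ≤ 1 := by
  have hlog2 : 0 < Real.log 2 := Real.log_pos (by norm_num)
  calc ∑ j ∈ range (J + 1), (2 : ℝ)⁻¹ ^ (g * l j) * Real.exp (C * (s j + 1))
      ≤ ∑ j ∈ range (J + 1), (1 / 4) * (2 : ℝ)⁻¹ ^ j := by
        refine sum_le_sum fun j hj => ?_
        have h1 := h j (Nat.lt_succ_iff.1 (mem_range.1 hj))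
        rw [S1_pow_eq, ← Real.exp_add, Real.exp_le_one_iff] at h1
        have h4 : (1 / 4 : ℝ) = Real.exp (-(Real.log 2 * 2)) := by
          rw [← S1_rpow_eq]; norm_num
        rw [S1_rpow_eq, S1_pow_eq, h4, ← Real.exp_add, ← Real.exp_add]
        apply Real.exp_le_exp.2
        have h5 : C * (s j + 1) ≤ g / 2 * (Real.log 2 * l j) := by
          have h6 : C' * (s j + 1) ≤ Real.log 2 * l j := by linarith
          have h7 := mul_le_mul_of_nonneg_left h6 (show (0 : ℝ) ≤ g / 2 by positivity)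
          rw [← hCC]
          linarith
        have h8 := mul_le_mul_of_nonneg_left (hl j) hlog2.le
        linarith
    _ ≤ 1 / 4 * 2 := by
        rw [← mul_sum]
        exact mul_le_mul_of_nonneg_left (S1_geom _) (by norm_num)
    _ ≤ 1 := by norm_num

/-- The length of the system. -/
private lemma S1_len {θ T X : ℝ} (hθ : 0 < θ) (h1 : θ ≤ 1) (hX : X = Real.log (Real.log T))
    (hX1 : 1 ≤ X) (hLp : 0 < Real.log T) :
    ∑ j ∈ range (SysEx_J T + 1), ((((SysEx_S 1 θ T 2).l j : ℕ) : ℝ) *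
      Real.log ((SysEx_S 1 θ T 2).N j) + 10) ≤ 6 * θ ^ 3 * Real.log T + 66 * X ^ 4 := by
  have hterm : ∀ j ∈ range (SysEx_J T + 1),
      ((((SysEx_S 1 θ T 2).l j : ℕ) : ℝ) * Real.log ((SysEx_S 1 θ T 2).N j) + 10) ≤
      2 * θ ^ 3 * Real.log T * (2 / 3) ^ j + 10 := by
    intro j hj
    have hN : Real.log ((SysEx_S 1 θ T 2).N j) = SysEx_x θ T j := Real.log_exp _
    rw [hN]
    have hl : (((SysEx_S 1 θ T 2).l j : ℕ) : ℝ) ≤ Real.exp ((j : ℝ) / 2) / θ ^ 2 + 1 :=
      (Nat.ceil_lt_add_one (by positivity)).le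
    have hl' : Real.exp ((j : ℝ) / 2) / θ ^ 2 + 1 ≤ 2 * (Real.exp ((j : ℝ) / 2) / θ ^ 2) := by
      have : 1 ≤ Real.exp ((j : ℝ) / 2) / θ ^ 2 := by
        rw [le_div_iff₀ (by positivity)]
        have h5 : 1 ≤ Real.exp ((j : ℝ) / 2) := Real.one_le_exp (by positivity)
        have h6 : θ ^ 2 ≤ 1 := pow_le_one₀ hθ.le (by linarith)
        linarith
      linarith
    have hxp : 0 ≤ SysEx_x θ T j := by unfold SysEx_x; positivity
    have h5 : (((SysEx_S 1 θ T 2).l j : ℕ) : ℝ) * SysEx_x θ T j ≤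
        2 * (Real.exp ((j : ℝ) / 2) / θ ^ 2) * SysEx_x θ T j :=
      mul_le_mul_of_nonneg_right (hl.trans hl') hxp
    have h6 : 2 * (Real.exp ((j : ℝ) / 2) / θ ^ 2) * SysEx_x θ T j =
        2 * θ ^ 3 * Real.log T * Real.exp (-(j : ℝ) / 2) := by
      unfold SysEx_x
      have h7 : Real.exp (-(j : ℝ) / 2) = Real.exp ((j : ℝ) / 2) * Real.exp (-(j : ℝ)) := by
        rw [← Real.exp_add]; ring_nf
      rw [h7]
      field_simp
    have h8 : Real.exp (-(j : ℝ) / 2) ≤ (2 / 3) ^ j := by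
      have h9 : Real.exp (-(j : ℝ) / 2) = (Real.exp (-(1 / 2))) ^ j := by
        rw [← Real.exp_nat_mul]; ring_nf
      rw [h9]
      apply pow_le_pow_left₀ (Real.exp_pos _).le
      rw [Real.exp_neg]
      have h10 : (3 / 2 : ℝ) ≤ Real.exp (1 / 2) := by
        have := Real.add_one_le_exp (1 / 2 : ℝ); linarith
      calc (Real.exp (1 / 2))⁻¹ ≤ (3 / 2 : ℝ)⁻¹ := inv_anti₀ (by norm_num) h10
        _ = 2 / 3 := by norm_num
    have h11 : 2 * θ ^ 3 * Real.log T * Real.exp (-(j : ℝ) / 2) ≤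
        2 * θ ^ 3 * Real.log T * (2 / 3) ^ j := mul_le_mul_of_nonneg_left h8 (by positivity)
    linarith
  have hsum := sum_le_sum hterm
  have hrhs : ∑ j ∈ range (SysEx_J T + 1), (2 * θ ^ 3 * Real.log T * (2 / 3) ^ j + 10) =
      2 * θ ^ 3 * Real.log T * ∑ j ∈ range (SysEx_J T + 1), (2 / 3 : ℝ) ^ j +
        ((SysEx_J T + 1 : ℕ) : ℝ) * 10 := by
    rw [sum_add_distrib, ← mul_sum, sum_const, card_range, nsmul_eq_mul]
  rw [hrhs] at hsum
  have hg' : ∑ j ∈ range (SysEx_J T + 1), (2 / 3 : ℝ) ^ j ≤ 3 := by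
    calc ∑ j ∈ range (SysEx_J T + 1), (2 / 3 : ℝ) ^ j ≤ ∑' j : ℕ, (2 / 3 : ℝ) ^ j :=
          (summable_geometric_of_lt_one (by norm_num) (by norm_num)).sum_le_tsum _
            (fun i _ => pow_nonneg (by norm_num) i)
      _ = (1 - (2 / 3 : ℝ))⁻¹ := tsum_geometric_of_lt_one (by norm_num) (by norm_num)
      _ = 3 := by norm_num
  have h12 : 2 * θ ^ 3 * Real.log T * ∑ j ∈ range (SysEx_J T + 1), (2 / 3 : ℝ) ^ j ≤
      2 * θ ^ 3 * Real.log T * 3 := mul_le_mul_of_nonneg_left hg' (by positivity)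
  have h14 : ((SysEx_J T : ℕ) : ℝ) ≤ 4 * Real.log X + 1 := by
    unfold SysEx_J
    rw [← hX]
    exact (Nat.ceil_lt_add_one (by have := Real.log_nonneg hX1; linarith)).le
  have h15 : Real.log X ≤ X - 1 := Real.log_le_sub_one_of_pos (by linarith)
  have h17 : (((SysEx_J T + 1 : ℕ)) : ℝ) ≤ 6 * X ^ 4 := by
    push_cast
    have h18 : X ≤ X ^ 4 := le_self_pow₀ hX1 (by norm_num)
    linarith
  have hX4 : 0 ≤ X ^ 4 := by positivity
  linarith

theorem bg_exists (lam C ε : ℝ) (N0 : ℕ) (h0 : 0 < lam) (h1 : lam < 1) (hC : 3 ≤ C) (hε : 0 < ε) :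
    ∃ D T0 : ℝ, 0 ≤ D ∧ ∀ T : ℝ, T0 ≤ T → ∃ S : BS, S.T = T ∧ BG S lam C N0 D ε := by
  have hlog2 : 0 < Real.log 2 := Real.log_pos (by norm_num)
  obtain ⟨C2, hC2, hm⟩ := mertens_inv
  have hg0 : 0 < cc lam := by
    unfold cc
    have : 0 < min lam (1 - lam) := lt_min h0 (by linarith)
    linarith
  have hg1 : cc lam ≤ 1 := by
    unfold cc
    have : min lam (1 - lam) ≤ lam := min_le_left _ _
    linarith
  set g : ℝ := cc lam with hg
  set C' : ℝ := 2 * C / g with hC'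
  have hC'0 : 0 ≤ C' := by positivity
  have hCC : C' * (g / 2) = C := by
    rw [hC']
    field_simp
  obtain ⟨θ0, hθ0, hsys⟩ := S1_sys 1 C' 2 one_pos hC'0 le_rfl
  set θ : ℝ := min (min θ0 (ε / 12)) (min (1 / (N0 + 1)) (min (lam / 2) (min ((1 - lam) / 2)
    (min (g / 4) (1 / 100))))) with hθdef
  have hθ : 0 < θ := by
    refine lt_min (lt_min hθ0 (by positivity)) (lt_min (by positivity) (lt_min (by positivity) (lt_min (by linarith)
      (lt_min (by positivity) (by norm_num)))))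
  have t0 : θ ≤ θ0 := (min_le_left _ _).trans (min_le_left _ _)
  have tε : θ ≤ ε / 12 := (min_le_left _ _).trans (min_le_right _ _)
  have t1 : θ ≤ 1 / (N0 + 1) := (min_le_right _ _).trans (min_le_left _ _)
  have t2 : θ ≤ lam / 2 := (min_le_right _ _).trans ((min_le_right _ _).trans (min_le_left _ _))
  have t3 : θ ≤ (1 - lam) / 2 := (min_le_right _ _).trans ((min_le_right _ _).trans
    ((min_le_right _ _).trans (min_le_left _ _)))
  have t4 : θ ≤ g / 4 := (min_le_right _ _).trans ((min_le_right _ _).trans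
    ((min_le_right _ _).trans ((min_le_right _ _).trans (min_le_left _ _))))
  have t5 : θ ≤ 1 / 100 := (min_le_right _ _).trans ((min_le_right _ _).trans
    ((min_le_right _ _).trans ((min_le_right _ _).trans (min_le_right _ _))))
  have hθ1 : θ ≤ 1 := by linarith
  have hθsq : θ ^ 2 ≤ θ := by nlinarith
  obtain ⟨c, T0, hc, hgood⟩ := hsys θ hθ t0
  have hθ5 : 0 < θ ^ 5 := by positivity
  have hθ5' : θ ^ 5 ≤ 1 / 5 := by
    have h2 : θ ^ 5 ≤ θ := by
      calc θ ^ 5 = θ ^ 4 * θ := by ring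
        _ ≤ 1 * θ := by
          refine mul_le_mul_of_nonneg_right ?_ hθ.le
          exact pow_le_one₀ hθ.le hθ1
        _ = θ := one_mul θ
    linarith
  set D : ℝ := 1 / 2 + |Real.log (Real.log 2)| + C2 / Real.log 2 + |Real.log (2 / (5 * θ ^ 5))|
    with hD
  have hD0 : 0 ≤ D := by positivity
  have hev1 : ∀ᶠ T : ℝ in Filter.atTop, 1 ≤ Real.log (Real.log T) :=
    (Real.tendsto_log_atTop.comp Real.tendsto_log_atTop).eventually_ge_atTop 1
  have hev3 : ∀ᶠ T : ℝ in Filter.atTop,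
      ‖Real.log (Real.log T) ^ 4‖ ≤ (ε / 132) * ‖id (Real.log T)‖ :=
    Real.tendsto_log_atTop.eventually
      ((Real.isLittleO_pow_log_id_atTop (n := 4)).bound (by positivity))
  obtain ⟨T1, hT1⟩ := Filter.eventually_atTop.1 (hev1.and hev3)
  refine ⟨D, max (max T0 (Real.exp 1)) T1, hD0, fun T hT' => ?_⟩
  have hT : max T0 (Real.exp 1) ≤ T := (le_max_left _ _).trans hT'
  obtain ⟨hXone, hXsmall⟩ := hT1 T ((le_max_right _ _).trans hT')
  have hG := hgood T ((le_max_left _ _).trans hT)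
  have hTe : Real.exp 1 ≤ T := (le_max_right _ _).trans hT
  have hTpos : 0 < T := lt_of_lt_of_le (Real.exp_pos 1) hTe
  set S' : Sys := SysEx_S 1 θ T 2 with hS'
  have hL1 : 1 / θ ^ 10 ≤ Real.log T := hG.L_ge
  have hL0 : 0 < Real.log T := lt_of_lt_of_le (by positivity) hL1
  have hθL : 2 * Real.log 2 ≤ θ ^ 5 * Real.log T := by
    have h2 : (100 : ℝ) ≤ 1 / θ ^ 5 := by
      rw [le_div_iff₀ hθ5]
      have h3 : θ ^ 5 ≤ 1 / 100 := by
        calc θ ^ 5 = θ ^ 4 * θ := by ring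
          _ ≤ 1 * θ := by
            refine mul_le_mul_of_nonneg_right ?_ hθ.le
            exact pow_le_one₀ hθ.le hθ1
          _ ≤ 1 / 100 := by rw [one_mul]; exact t5
      linarith
    have h4 : 1 / θ ^ 5 ≤ θ ^ 5 * Real.log T := by
      have h5 := mul_le_mul_of_nonneg_left hL1 hθ5.le
      have h6 : θ ^ 5 * (1 / θ ^ 10) = 1 / θ ^ 5 := by field_simp
      rwa [h6] at h5
    have := Real.log_two_lt_d9
    linarith
  have hlog5 : ∀ p : ℕ, 0 < p → Real.log p ≤ θ ^ 5 * Real.log T → p < M1 T := by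
    intro p hp hlp
    unfold M1 Mof
    rw [Nat.lt_succ_iff, Nat.le_floor_iff (by positivity)]
    have hp' : (0 : ℝ) < p := by exact_mod_cast hp
    rw [← Real.log_le_log_iff hp' (by positivity), Real.log_rpow hTpos]
    have := mul_le_mul_of_nonneg_right hθ5' hL0.le
    linarith
  have hlj : ∀ j : ℕ, (1 + (j : ℝ) / 2) / θ ^ 2 ≤ (S'.l j : ℝ) := by
    intro j
    change _ ≤ ((⌈Real.exp ((j : ℝ) / 2) / θ ^ 2⌉₊ : ℕ) : ℝ)
    refine le_trans ?_ (Nat.le_ceil _)
    apply div_le_div_of_nonneg_right _ (by positivity)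
    have := Real.add_one_le_exp ((j : ℝ) / 2)
    linarith
  have hlj' : ∀ j : ℕ, 1 / θ ≤ (S'.l j : ℝ) := by
    intro j
    refine le_trans ?_ (hlj j)
    rw [div_le_div_iff₀ hθ (by positivity)]
    have hj : (0 : ℝ) ≤ j := Nat.cast_nonneg j
    nlinarith
  refine ⟨⟨T, S'.J, S'.R, S'.l, S'.N⟩, rfl, ?_, ?_⟩
  swap
  · -- the length is at most `ε log T`
    have hlen := S1_len (X := Real.log (Real.log T)) hθ hθ1 rfl hXone hL0
    change ∑ j ∈ range (SysEx_J T + 1), ((((SysEx_S 1 θ T 2).l j : ℕ) : ℝ) *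
      Real.log ((SysEx_S 1 θ T 2).N j) + 10) ≤ ε * Real.log T
    refine hlen.trans ?_
    rw [Real.norm_of_nonneg (by positivity), id, Real.norm_of_nonneg hL0.le] at hXsmall
    have e1 : θ ^ 3 ≤ ε / 12 := by
      have : θ ^ 3 ≤ θ := by
        calc θ ^ 3 = θ ^ 2 * θ := by ring
          _ ≤ 1 * θ := mul_le_mul_of_nonneg_right (pow_le_one₀ hθ.le hθ1) hθ.le
          _ = θ := one_mul θ
      linarith
    have e2 : θ ^ 3 * Real.log T ≤ ε / 12 * Real.log T := mul_le_mul_of_nonneg_right e1 hL0.le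
    linarith
  refine ⟨h0, h1, hC, hD0, hTe, ?_, hG.disj, hG.N_ge, ?_, ?_, ?_, ?_, ?_, ?_⟩
  · -- prime
    intro j hj p hp
    obtain ⟨hp1, hp2, hp3, hp4⟩ := hG.prime j hj p hp
    exact ⟨hp1, hlog5 p hp1.pos hp3, hp4⟩
  · -- l_ge
    intro j _
    have h2 : (N0 : ℝ) ≤ S'.l j := by
      refine le_trans ?_ (hlj' j)
      rw [le_div_iff₀ hθ]
      rw [le_div_iff₀ (by positivity)] at t1
      nlinarith
    exact_mod_cast h2
  · -- l_big
    intro j _
    have h2 := hlj' j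
    constructor
    · have h3 : lam * (1 / θ) ≤ lam * S'.l j := mul_le_mul_of_nonneg_left h2 h0.le
      refine le_trans ?_ h3
      rw [mul_one_div, le_div_iff₀ hθ]
      linarith
    · have h3 : (1 - lam) * (1 / θ) ≤ (1 - lam) * S'.l j :=
        mul_le_mul_of_nonneg_left h2 (by linarith)
      refine le_trans ?_ h3
      rw [mul_one_div, le_div_iff₀ hθ]
      linarith
  · -- trunc
    refine S1_trunc hg0 hCC S'.J S'.l (fun j => sR (S'.R j)) ?_ ?_
    · intro j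
      have h2 := mul_le_mul_of_nonneg_left (hlj j) (show (0 : ℝ) ≤ g / 2 by positivity)
      refine le_trans ?_ h2
      rw [mul_div_assoc', le_div_iff₀ (by positivity)]
      have hj : (0 : ℝ) ≤ j := Nat.cast_nonneg j
      have h3 : θ ^ 2 ≤ g / 4 := hθsq.trans t4
      have h4 := mul_le_mul_of_nonneg_left h3 (show (0 : ℝ) ≤ 2 + j by positivity)
      linarith
    · intro j hj
      have h2 := hG.trunc
      have h3 : (2 : ℝ)⁻¹ ^ (S'.l j) * Real.exp (C' * (sR (S'.R j) + 1)) ≤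
          ∑ j ∈ Finset.range (S'.J + 1), (2 : ℝ)⁻¹ ^ (S'.l j) * Real.exp (C' * (sR (S'.R j) + 1)) :=
        Finset.single_le_sum (f := fun j =>
          (2 : ℝ)⁻¹ ^ (S'.l j) * Real.exp (C' * (sR (S'.R j) + 1)))
          (fun i _ => by positivity) (mem_range.2 (Nat.lt_succ_of_le hj))
      have h4 : S'.θ ^ 2 ≤ 1 := by
        change θ ^ 2 ≤ 1
        linarith
      exact h3.trans (h2.trans h4)
  · -- len
    have h2 := hG.len
    refine le_trans ?_ h2
    refine sum_le_sum fun j _ => ?_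
    have h3 : 0 < S'.k := hG.k_pos
    linarith
  · -- inn
    have hdis : (↑(range (S'.J + 1)) : Set ℕ).PairwiseDisjoint S'.R := by
      intro i hi j hj hij
      exact hG.disj i (Nat.lt_succ_iff.1 (mem_range.1 hi)) j (Nat.lt_succ_iff.1 (mem_range.1 hj)) hij
    have hsum : ∑ j ∈ range (S'.J + 1), sR (S'.R j) =
        ∑ p ∈ (range (S'.J + 1)).biUnion S'.R, 1 / (p : ℝ) := by
      rw [sum_biUnion hdis]
      rfl
    have hsub : (range (S'.J + 1)).biUnion S'.R ⊆ (Finset.Ioc 2 ⌊T⌋₊).filter Nat.Prime := by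
      intro p hp
      obtain ⟨j, hj, hpj⟩ := mem_biUnion.1 hp
      obtain ⟨hp1, hp2, hp3, hp4⟩ := hG.prime j (Nat.lt_succ_iff.1 (mem_range.1 hj)) p hpj
      rw [mem_filter, mem_Ioc]
      refine ⟨⟨hp2, ?_⟩, hp1⟩
      rw [Nat.le_floor_iff hTpos.le]
      have hp' : (0 : ℝ) < p := by exact_mod_cast hp1.pos
      rw [← Real.log_le_log_iff hp' hTpos]
      have h5 : Real.log p ≤ θ ^ 5 * Real.log T := hp3
      have := mul_le_mul_of_nonneg_right hθ5' hL0.le
      linarith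
    have hT2 : 2 ≤ ⌊T⌋₊ := by
      rw [Nat.le_floor_iff hTpos.le]
      have := Real.exp_one_gt_d9
      push_cast
      linarith
    have h5 := (abs_le.1 (hm 2 ⌊T⌋₊ le_rfl hT2)).2
    have h6 : ∑ p ∈ (range (S'.J + 1)).biUnion S'.R, 1 / (p : ℝ) ≤
        ∑ p ∈ (Finset.Ioc 2 ⌊T⌋₊).filter Nat.Prime, 1 / (p : ℝ) :=
      sum_le_sum_of_subset_of_nonneg hsub fun p _ _ => by positivity
    have hflT : (0 : ℝ) < Real.log (⌊T⌋₊ : ℝ) :=
      Real.log_pos (by exact_mod_cast (by omega : 1 < ⌊T⌋₊))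
    have h7 : Real.log (Real.log (⌊T⌋₊ : ℝ) / Real.log ((2 : ℕ) : ℝ)) ≤
        Real.log (Real.log T) + |Real.log (Real.log 2)| := by
      have e2 : ((2 : ℕ) : ℝ) = 2 := by norm_num
      rw [e2, Real.log_div hflT.ne' hlog2.ne']
      have h8 : Real.log (Real.log (⌊T⌋₊ : ℝ)) ≤ Real.log (Real.log T) := by
        apply Real.log_le_log hflT
        apply Real.log_le_log (by exact_mod_cast (by omega : 0 < ⌊T⌋₊))
        exact Nat.floor_le hTpos.le
      have h9 := neg_abs_le (Real.log (Real.log 2))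
      linarith
    have h10 := abs_nonneg (Real.log (2 / (5 * θ ^ 5)))
    have e2 : ((2 : ℕ) : ℝ) = 2 := by norm_num
    rw [e2] at h5 h7
    change ∑ j ∈ range (S'.J + 1), sR (S'.R j) ≤ Real.log (Real.log T) + D
    rw [hsum, hD]
    linarith
  · -- out
    set n0 : ℕ := ⌊Real.exp (θ ^ 5 * Real.log T)⌋₊ with hn0
    set z : ℕ := ⌊T ^ (1 / 5 : ℝ)⌋₊ with hz
    have hM : M1 T = z + 1 := rfl
    have hn0log : θ ^ 5 * Real.log T / 2 ≤ Real.log (n0 : ℝ) := S1_log_ge hθL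
    have hn02 : 2 ≤ n0 := by
      rw [hn0, Nat.le_floor_iff (Real.exp_pos _).le, ← Real.log_le_iff_le_exp (by norm_num)]
      push_cast
      linarith
    have hn0z : n0 ≤ z := by
      apply Nat.floor_mono
      rw [Real.rpow_def_of_pos hTpos]
      apply Real.exp_le_exp.2
      have := mul_le_mul_of_nonneg_right hθ5' hL0.le
      linarith
    have hsub : Nat.primesBelow (M1 T) \ (range (S'.J + 1)).biUnion S'.R ⊆
        insert 2 ((Finset.Ioc n0 z).filter Nat.Prime) := by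
      intro p hp
      rw [mem_sdiff] at hp
      obtain ⟨hp1, hp2⟩ := hp
      rw [Nat.mem_primesBelow] at hp1
      obtain ⟨hp1, hpp⟩ := hp1
      rw [mem_insert]
      by_cases hp2' : p = 2
      · exact Or.inl hp2'
      right
      rw [mem_filter, mem_Ioc]
      have h2p : 2 < p := lt_of_le_of_ne hpp.two_le (Ne.symm hp2')
      refine ⟨⟨?_, by rw [hM] at hp1; omega⟩, hpp⟩
      by_contra hlt
      rw [not_lt, hn0, Nat.le_floor_iff (Real.exp_pos _).le,
        ← Real.log_le_iff_le_exp (by exact_mod_cast hpp.pos)] at hlt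
      obtain ⟨j, hj, hpj⟩ := hG.cover p hpp h2p hlt
      exact hp2 (mem_biUnion.2 ⟨j, mem_range.2 (Nat.lt_succ_of_le hj), hpj⟩)
    have h5 := (abs_le.1 (hm n0 z hn02 hn0z)).2
    have h6 : ∑ p ∈ Nat.primesBelow (M1 T) \ (range (S'.J + 1)).biUnion S'.R, 1 / (p : ℝ) ≤
        ∑ p ∈ insert 2 ((Finset.Ioc n0 z).filter Nat.Prime), 1 / (p : ℝ) :=
      sum_le_sum_of_subset_of_nonneg hsub fun p _ _ => by positivity
    have h7 : ∑ p ∈ insert 2 ((Finset.Ioc n0 z).filter Nat.Prime), 1 / (p : ℝ) ≤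
        1 / 2 + ∑ p ∈ (Finset.Ioc n0 z).filter Nat.Prime, 1 / (p : ℝ) := by
      rw [sum_insert]
      · norm_num
      · rw [mem_filter, mem_Ioc]
        omega
    have hn0pos : 0 < Real.log (n0 : ℝ) := by
      have : 0 < θ ^ 5 * Real.log T / 2 := by positivity
      linarith
    have hzlog : Real.log (z : ℝ) ≤ Real.log T / 5 := by
      have hz1 : 0 < z := by omega
      have h8 : (z : ℝ) ≤ T ^ (1 / 5 : ℝ) := Nat.floor_le (by positivity)
      have h9 := Real.log_le_log (by exact_mod_cast hz1) h8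
      rw [Real.log_rpow hTpos] at h9
      linarith
    have hzpos : 0 < Real.log (z : ℝ) := Real.log_pos (by exact_mod_cast (by omega : 1 < z))
    have h8 : Real.log (Real.log z / Real.log n0) ≤ |Real.log (2 / (5 * θ ^ 5))| := by
      refine le_trans ?_ (le_abs_self _)
      apply Real.log_le_log (by positivity)
      rw [div_le_div_iff₀ hn0pos (by positivity)]
      have e1 : Real.log (z : ℝ) * (5 * θ ^ 5) ≤ Real.log T / 5 * (5 * θ ^ 5) :=
        mul_le_mul_of_nonneg_right hzlog (by positivity)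
      linarith
    have h9 : C2 / Real.log n0 ≤ C2 / Real.log 2 := by
      apply div_le_div_of_nonneg_left hC2 hlog2
      linarith
    have h10 := abs_nonneg (Real.log (Real.log 2))
    change ∑ p ∈ Nat.primesBelow (M1 T) \ (range (S'.J + 1)).biUnion S'.R, 1 / (p : ℝ) ≤ D
    rw [hD]
    linarith

end Pool.Agent.UV
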