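import Pool.Agent.Lib.MP_69b2e4_nt.Mg.G007
import Pool.Agent.Lib.MP_69b2e4_nt.UV.S1
import Pool.Agent.Lib.MP_69b2e4_nt.Mg.G010

/-! TASK A2. The estimate of the joint functions on the critical line. (Template: UH/A2.lean, case `lam < 1`.) Choose `C = max 3 (the C0 of mom4_1, mom4_2, mom4_3, mom4_4, and of mom_c in UH/A1.lean)`, `N0 = N1` of `weights_ge` (UH/E3), `ε = ep N > 0`; `bg_exists` gives `D`, `T0` and for `T ≥ T0` the system `S`, `S.T = T`.
At `s = 1/2+it` write `z = ‖PP N T i (s+h)‖²`, `m = ‖AA N T k s‖²` (`k = N-1-i`), `m' = ‖AA N T N s‖²`, `A = Wm²`, `B = Wp²`. `weights_ge`: `1 ≤ 4 A^lam B^{1-lam}`, hence `UU N T lam i h s = z^lam m^lam m'^{1-lam} ≤ 4 (z m A)^lam (m' B)^{1-lam}`. Hölder's inequality (`ENNReal.lintegral_mul_norm_pow_le` or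
`ENNReal.lintegral_mul_le_Lp_mul_Lq` with exponents `1/lam`, `1/(1-lam)`): `∫ UU ≤ 4 (∫ z m A)^lam (∫ m' B)^{1-lam}` over `[11T/10, 29T/10] ⊆ [T, 3T]`.
`∫ m' B`: `m' ≤ 2 + 2‖ζ‖²‖Mx (yy N)‖²`: `mom_c`, `mom4_4`. `∫ z m A`: Case `i + 1 < N` (so `k ≥ 1`): `z ≤ 2‖Gx (yy (i+1)) (nC (s+h))‖² + 2‖Gx (yy i) (nC (s+h))‖²` (second term only for `i ≥ 1`), `m ≤ 2 + 2‖ζ‖²‖Mx (yy k)‖²`: `mom4_2` and `mom4_3` (`(i+1) + k = N`, `i + k ≤ N`).
Case `i + 1 = N` (`k = 0`, `m = 1`): `z ≤ 2‖ζ(s+h)‖² + 2‖Gx (yy (N-1)) (nC (s+h))‖²`: `mom4_1`, `mom4_2` (`N - 1 ≥ 1`). Everything is `≤ K T L^{lam²}`. (`nC (s + h)`, `s + h = 1/2 + t I + h`.) -/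

set_option autoImplicit false

namespace Pool.Agent.UV

open Complex MeasureTheory Finset Pool.Agent.GH Pool.Agent.UH
open scoped Real ComplexConjugate

private theorem A2_zeta {h : ℂ} (hh : ‖h‖ ≤ 1 / 4) :
    Continuous fun t : ℝ => riemannZeta (1 / 2 + t * I + h) := by
  refine continuous_iff_continuousAt.2 fun t => ?_
  have h1 : (1 / 2 + (t : ℂ) * I + h) ≠ 1 := by
    intro h'
    have h2 := congrArg Complex.re h'
    have h3 := (abs_le.1 ((Complex.abs_re_le_norm h).trans hh)).2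
    simp only [Complex.add_re, Complex.mul_re, Complex.ofReal_re, Complex.ofReal_im, Complex.I_re,
      Complex.I_im, Complex.one_re, mul_zero, mul_one, sub_self, add_zero] at h2
    norm_num at h2
    linarith
  exact ContinuousAt.comp (f := fun t : ℝ => (1 / 2 + (t : ℂ) * I + h)) (g := riemannZeta)
    (differentiableAt_riemannZeta h1).continuousAt (by fun_prop)

private theorem A2_nC (h : ℂ) (n : ℕ) : Continuous fun t : ℝ => nC (1 / 2 + t * I + h) n := by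
  rcases eq_or_ne n 0 with rfl | hn
  · simp only [map_zero]
    exact continuous_const
  · have e : (fun t : ℝ => nC (1 / 2 + t * I + h) n) =
        fun t : ℝ => (n : ℂ) ^ (-(1 / 2 + (t : ℂ) * I + h)) := by
      funext t
      exact nC_apply _ hn
    rw [e]
    exact Continuous.const_cpow (by fun_prop) (Or.inl (Nat.cast_ne_zero.2 hn))

private theorem A2_Gx (N : ℕ) (y : ℝ) (h : ℂ) :
    Continuous fun t : ℝ => Gx N y (nC (1 / 2 + t * I + h)) := by
  unfold Gx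
  exact continuous_finsetSum _ fun n _ => continuous_const.mul (A2_nC h n)

private theorem A2_Mx (N : ℕ) (y : ℝ) :
    Continuous fun t : ℝ => Mx N y (nC (1 / 2 + t * I)) := by
  have e : (fun t : ℝ => Mx N y (nC (1 / 2 + t * I))) =
      fun t : ℝ => Mx N y (nC (1 / 2 + t * I + 0)) := by
    funext t
    rw [add_zero]
  rw [e]
  unfold Mx
  exact continuous_finsetSum _ fun n _ => continuous_const.mul (A2_nC 0 n)

private theorem A2_PP (N : ℕ) (T : ℝ) (i : ℕ) {h : ℂ} (hh : ‖h‖ ≤ 1 / 4) :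
    Continuous fun t : ℝ => PP N T i (1 / 2 + t * I + h) := by
  unfold PP
  refine Continuous.sub ?_ ?_
  · split_ifs
    · exact A2_zeta hh
    · exact A2_Gx _ _ _
  · split_ifs
    · exact continuous_const
    · exact A2_Gx _ _ _

private theorem A2_z0 : Continuous fun t : ℝ => riemannZeta (1 / 2 + t * I) := by
  have h := A2_zeta (h := 0) (by rw [norm_zero]; norm_num)
  simp only [add_zero] at h
  exact h

private theorem A2_AA (N : ℕ) (T : ℝ) (k : ℕ) :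
    Continuous fun t : ℝ => AA N T k (1 / 2 + t * I) := by
  unfold AA
  split_ifs
  · exact continuous_const
  · exact continuous_const.sub (A2_z0.mul (A2_Mx _ _))

private theorem A2_UU (N : ℕ) (T lam : ℝ) (i : ℕ) (h s : ℂ) : UU N T lam i h s =
    (‖PP N T i (s + h)‖ ^ 2) ^ lam * (‖AA N T (N - 1 - i) s‖ ^ 2) ^ lam *
      (‖AA N T N s‖ ^ 2) ^ (1 - lam) := by
  unfold UU
  rw [← Real.rpow_natCast, ← Real.rpow_natCast, ← Real.rpow_natCast, ← Real.rpow_mul (norm_nonneg _),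
    ← Real.rpow_mul (norm_nonneg _), ← Real.rpow_mul (norm_nonneg _)]
  push_cast
  rfl

private theorem A2_point {z m m' A B lam : ℝ} (hz : 0 ≤ z) (hm : 0 ≤ m) (hm' : 0 ≤ m') (hA : 0 ≤ A)
    (hB : 0 ≤ B) (h : 1 / 4 ≤ A ^ lam * B ^ (1 - lam)) :
    z ^ lam * m ^ lam * m' ^ (1 - lam) ≤ 4 * ((z * m * A) ^ lam * (m' * B) ^ (1 - lam)) := by
  have e2 : 4 * ((z * m * A) ^ lam * (m' * B) ^ (1 - lam)) =
      (z ^ lam * m ^ lam * m' ^ (1 - lam)) * (4 * (A ^ lam * B ^ (1 - lam))) := by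
    rw [Real.mul_rpow (mul_nonneg hz hm) hA, Real.mul_rpow hz hm, Real.mul_rpow hm' hB]
    ring
  rw [e2]
  refine le_mul_of_one_le_right (mul_nonneg (mul_nonneg (Real.rpow_nonneg hz _)
    (Real.rpow_nonneg hm _)) (Real.rpow_nonneg hm' _)) ?_
  linarith

private theorem A2_hoelder {f g : ℝ → ℝ} {S : Set ℝ} (hf : Continuous f) (hg : Continuous g)
    (hf0 : ∀ t, 0 ≤ f t) (hg0 : ∀ t, 0 ≤ g t)
    {lam mu : ℝ} (h1 : 0 ≤ lam) (h2 : 0 ≤ mu) (h4 : lam + mu = 1)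
    {R : ENNReal} (i1 : ∫⁻ t in S, ENNReal.ofReal (f t) ≤ R)
    (i2 : ∫⁻ t in S, ENNReal.ofReal (g t) ≤ R) :
    ∫⁻ t in S, ENNReal.ofReal (4 * (f t ^ lam * g t ^ mu)) ≤ 4 * R := by
  have k1 : ∀ t, ENNReal.ofReal (4 * (f t ^ lam * g t ^ mu)) = 4 *
      ∏ i : Fin 2, (![fun t => ENNReal.ofReal (f t), fun t => ENNReal.ofReal (g t)] i t) ^
        (![lam, mu] i) := by
    intro t
    rw [Fin.prod_univ_two, ENNReal.ofReal_mul (by norm_num),
      ENNReal.ofReal_mul (Real.rpow_nonneg (hf0 t) _), ← ENNReal.ofReal_rpow_of_nonneg (hf0 t) h1,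
      ← ENNReal.ofReal_rpow_of_nonneg (hg0 t) h2,
      show ENNReal.ofReal 4 = 4 by norm_num]
    rfl
  have m1 : Measurable fun t => ENNReal.ofReal (f t) := (ENNReal.continuous_ofReal.comp hf).measurable
  have m2 : Measurable fun t => ENNReal.ofReal (g t) := (ENNReal.continuous_ofReal.comp hg).measurable
  simp_rw [k1]
  rw [lintegral_const_mul' _ _ (by norm_num)]
  refine mul_le_mul_right ?_ _
  refine (ENNReal.lintegral_prod_norm_pow_le (μ := volume.restrict S) univ (p := ![lam, mu])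
    (f := ![fun t => ENNReal.ofReal (f t), fun t => ENNReal.ofReal (g t)]) ?_ ?_ ?_).trans ?_
  · intro i _
    fin_cases i
    · exact m1.aemeasurable
    · exact m2.aemeasurable
  · rw [Fin.sum_univ_two]
    exact h4
  · intro i _
    fin_cases i
    · exact h1
    · exact h2
  · rw [Fin.prod_univ_two]
    show (∫⁻ t in S, ENNReal.ofReal (f t)) ^ lam * (∫⁻ t in S, ENNReal.ofReal (g t)) ^ mu ≤ R
    calc _ ≤ R ^ lam * R ^ mu := by gcongr
      _ = R := by
        rw [← ENNReal.rpow_add_of_nonneg _ _ h1 h2, h4, ENNReal.rpow_one]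

private theorem A2_add {f g h : ℝ → ℝ} {S : Set ℝ} (hg : Continuous g) (g0 : ∀ t, 0 ≤ g t)
    (h0 : ∀ t, 0 ≤ h t) {a b P Q : ℝ} (ha : 0 ≤ a) (hb : 0 ≤ b) (hP : 0 ≤ P) (hQ : 0 ≤ Q)
    (hle : ∀ t, f t ≤ a * g t + b * h t)
    (i1 : ∫⁻ t in S, ENNReal.ofReal (g t) ≤ ENNReal.ofReal P)
    (i2 : ∫⁻ t in S, ENNReal.ofReal (h t) ≤ ENNReal.ofReal Q) :
    ∫⁻ t in S, ENNReal.ofReal (f t) ≤ ENNReal.ofReal (a * P + b * Q) := by
  have k1 : ∀ t, ENNReal.ofReal (f t) ≤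
      ENNReal.ofReal a * ENNReal.ofReal (g t) + ENNReal.ofReal b * ENNReal.ofReal (h t) := by
    intro t
    refine (ENNReal.ofReal_le_ofReal (hle t)).trans (le_of_eq ?_)
    rw [ENNReal.ofReal_add (mul_nonneg ha (g0 t)) (mul_nonneg hb (h0 t)), ENNReal.ofReal_mul ha,
      ENNReal.ofReal_mul hb]
  have mB : Measurable fun t => ENNReal.ofReal a * ENNReal.ofReal (g t) :=
    (ENNReal.continuous_ofReal.comp hg).measurable.const_mul _
  calc ∫⁻ t in S, ENNReal.ofReal (f t)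
      ≤ ∫⁻ t in S, (ENNReal.ofReal a * ENNReal.ofReal (g t) +
          ENNReal.ofReal b * ENNReal.ofReal (h t)) := lintegral_mono k1
    _ = ENNReal.ofReal a * (∫⁻ t in S, ENNReal.ofReal (g t)) +
          ENNReal.ofReal b * (∫⁻ t in S, ENNReal.ofReal (h t)) := by
        rw [lintegral_add_left mB, lintegral_const_mul' _ _ ENNReal.ofReal_ne_top,
          lintegral_const_mul' _ _ ENNReal.ofReal_ne_top]
    _ ≤ ENNReal.ofReal a * ENNReal.ofReal P + ENNReal.ofReal b * ENNReal.ofReal Q := by gcongr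
    _ = _ := by
        rw [ENNReal.ofReal_add (mul_nonneg ha hP) (mul_nonneg hb hQ), ENNReal.ofReal_mul ha,
          ENNReal.ofReal_mul hb]

private theorem A2_sq (x y : ℂ) : ‖x - y‖ ^ 2 ≤ 2 * ‖x‖ ^ 2 + 2 * ‖y‖ ^ 2 := by
  have k3 := pow_le_pow_left₀ (norm_nonneg _) (norm_sub_le x y) 2
  refine k3.trans ?_
  nlinarith [sq_nonneg (‖x‖ - ‖y‖)]

private theorem A2_sq1 (x y : ℂ) : ‖1 - x * y‖ ^ 2 ≤ 2 + 2 * (‖x‖ ^ 2 * ‖y‖ ^ 2) := by
  refine (A2_sq 1 (x * y)).trans (le_of_eq ?_)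
  rw [norm_one, norm_mul]
  ring

theorem Astar4 (N : ℕ) (hN : 2 ≤ N) (lam : ℝ) (h0 : 0 < lam) (h1 : lam < 1) : ∃ C T0 : ℝ, 1 ≤ C ∧
    Real.exp 1 ≤ T0 ∧ ∀ T : ℝ, T0 ≤ T → ∀ i < N, ∀ h : ℂ, ‖h‖ ≤ 1 / Real.log T →
    ∫⁻ t in Set.Icc (11 * T / 10) (29 * T / 10), ENNReal.ofReal (UU N T lam i h (1 / 2 + t * I)) ≤
      ENNReal.ofReal (C * (T * Real.log T ^ (lam ^ 2))) := by
  obtain ⟨C1, hC1⟩ := mom4_1 N (by omega)
  obtain ⟨C2, hC2⟩ := mom4_2 N (by omega)
  obtain ⟨C3, hC3⟩ := mom4_3 N (by omega)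
  obtain ⟨C4, hC4⟩ := mom4_4 N (by omega)
  obtain ⟨C5, hC5⟩ := mom_c
  obtain ⟨N1, hN1⟩ := weights_ge lam h0 h1
  have hep : 0 < ep N := by
    unfold ep et
    positivity
  obtain ⟨D, T1, -, hD⟩ := bg_exists lam (max 3 (max C1 (max C2 (max C3 (max C4 C5))))) (ep N) N1 h0 h1
    (le_max_left _ _) hep
  obtain ⟨K1, S1, hK1, g1⟩ := hC1 D
  obtain ⟨K2, S2, hK2, g2⟩ := hC2 D
  obtain ⟨K3, S3, hK3, g3⟩ := hC3 D
  obtain ⟨K4, S4, hK4, g4⟩ := hC4 D
  obtain ⟨K5, S5, hK5, g5⟩ := hC5 D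
  refine ⟨64 * (K1 + K2 + K3 + K4 + K5),
    max (Real.exp 4) (max T1 (max S1 (max S2 (max S3 (max S4 S5))))), by linarith,
    (Real.exp_le_exp.2 (by norm_num)).trans (le_max_left _ _), ?_⟩
  intro T hT i hi h hh
  simp only [max_le_iff] at hT
  obtain ⟨he, hT1, hs1, hs2, hs3, hs4, hs5⟩ := hT
  obtain ⟨S, hST, hS⟩ := hD T hT1
  have hle : ∀ {x : ℝ}, x ≤ max C1 (max C2 (max C3 (max C4 C5))) →
      x ≤ max 3 (max C1 (max C2 (max C3 (max C4 C5)))) := fun hx => hx.trans (le_max_right _ _)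
  have q1 : C1 ≤ max 3 (max C1 (max C2 (max C3 (max C4 C5)))) := hle (le_max_left _ _)
  have q2 : C2 ≤ max 3 (max C1 (max C2 (max C3 (max C4 C5)))) :=
    hle ((le_max_left _ _).trans (le_max_right _ _))
  have q3 : C3 ≤ max 3 (max C1 (max C2 (max C3 (max C4 C5)))) :=
    hle (((le_max_left _ _).trans (le_max_right _ _)).trans (le_max_right _ _))
  have q4 : C4 ≤ max 3 (max C1 (max C2 (max C3 (max C4 C5)))) :=
    hle ((((le_max_left _ _).trans (le_max_right _ _)).trans (le_max_right _ _)).trans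
      (le_max_right _ _))
  have q5 : C5 ≤ max 3 (max C1 (max C2 (max C3 (max C4 C5)))) :=
    hle ((((le_max_right _ _).trans (le_max_right _ _)).trans (le_max_right _ _)).trans
      (le_max_right _ _))
  have hT0 : 0 < T := (Real.exp_pos 4).trans_le he
  have hL : 4 ≤ Real.log T := by
    rw [Real.le_log_iff_exp_le hT0]
    exact he
  have hh4 : ‖h‖ ≤ 1 / 4 := hh.trans (one_div_le_one_div_of_le (by norm_num) hL)
  have i1 := g1 q1 (by rw [hST]; exact hs1) hS h (by rw [hST]; exact hh)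
  have i2 := g2 q2 (by rw [hST]; exact hs2) hS h (by rw [hST]; exact hh)
  have i3 := g3 q3 (by rw [hST]; exact hs3) hS h (by rw [hST]; exact hh)
  have i4 := g4 q4 (by rw [hST]; exact hs4) hS
  have i5 := g5 q5 (by rw [hST]; exact hs5) hS.1
  have hw := hN1 S _ D N1 le_rfl hS.1
  have hWm := continuous_dp2_line (Wm_dp hS.1)
  have hWp := continuous_dp2_line (Wp_dp hS.1)
  rw [hST] at i1 i2 i3 i4 i5
  have hsub : Set.Icc (11 * T / 10) (29 * T / 10) ⊆ Set.Icc T (3 * T) :=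
    Set.Icc_subset_Icc (by linarith) (by linarith)
  set X : ℝ := T * Real.log T ^ (lam ^ 2) with hX
  have hX0 : 0 ≤ X := mul_nonneg hT0.le (Real.rpow_nonneg (by linarith) _)
  clear_value X
  have hK10 : 0 ≤ K1 * X := mul_nonneg (by linarith) hX0
  have hK20 : 0 ≤ K2 * X := mul_nonneg (by linarith) hX0
  have hK30 : 0 ≤ K3 * X := mul_nonneg (by linarith) hX0
  have hK40 : 0 ≤ K4 * X := mul_nonneg (by linarith) hX0
  have hK50 : 0 ≤ K5 * X := mul_nonneg (by linarith) hX0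
  set A : ℝ → ℝ := fun t => S.Wm lam (nC (1 / 2 + t * I)) ^ 2 with hA
  set B : ℝ → ℝ := fun t => S.Wp lam (nC (1 / 2 + t * I)) ^ 2 with hB
  have cA : Continuous A := (Complex.continuous_re.comp hWm).pow 2
  have cB : Continuous B := (Complex.continuous_re.comp hWp).pow 2
  have A0 : ∀ t, 0 ≤ A t := fun t => sq_nonneg _
  have B0 : ∀ t, 0 ≤ B t := fun t => sq_nonneg _
  set z : ℝ → ℝ := fun t => ‖PP N T i (1 / 2 + t * I + h)‖ ^ 2 with hz
  set m : ℝ → ℝ := fun t => ‖AA N T (N - 1 - i) (1 / 2 + t * I)‖ ^ 2 with hm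
  set m' : ℝ → ℝ := fun t => ‖AA N T N (1 / 2 + t * I)‖ ^ 2 with hm'
  have cz : Continuous z := (A2_PP N T i hh4).norm.pow 2
  have cm : Continuous m := (A2_AA N T (N - 1 - i)).norm.pow 2
  have cm' : Continuous m' := (A2_AA N T N).norm.pow 2
  have z0 : ∀ t, 0 ≤ z t := fun t => sq_nonneg _
  have m0 : ∀ t, 0 ≤ m t := fun t => sq_nonneg _
  have m0' : ∀ t, 0 ≤ m' t := fun t => sq_nonneg _
  have hpt : ∀ t : ℝ, UU N T lam i h (1 / 2 + t * I) ≤
      4 * ((z t * m t * A t) ^ lam * (m' t * B t) ^ (1 - lam)) := by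
    intro t
    rw [A2_UU]
    exact A2_point (z0 t) (m0 t) (m0' t) (A0 t) (B0 t) (hw _)
  -- the second factor
  have j2 : ∫⁻ t in Set.Icc (11 * T / 10) (29 * T / 10), ENNReal.ofReal (m' t * B t) ≤
      ENNReal.ofReal (16 * (K1 + K2 + K3 + K4 + K5) * X) := by
    have hN0 : N ≠ 0 := by omega
    refine (A2_add (f := fun t => m' t * B t) (g := B)
      (h := fun t => ‖riemannZeta (1 / 2 + t * I)‖ ^ 2 *
        ‖Mx N (yy N T N) (nC (1 / 2 + t * I))‖ ^ 2 * S.Wp lam (nC (1 / 2 + t * I)) ^ 2)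
      (a := 2) (b := 2) (P := K5 * X) (Q := K4 * X) cB B0
      (fun t => by positivity) (by norm_num) (by norm_num) hK50 hK40 ?_
      ((lintegral_mono_set hsub).trans i5) ((lintegral_mono_set hsub).trans i4)).trans
      (ENNReal.ofReal_le_ofReal (by linarith))
    intro t
    have k2 : m' t ≤ 2 + 2 * (‖riemannZeta (1 / 2 + t * I)‖ ^ 2 *
        ‖Mx N (yy N T N) (nC (1 / 2 + t * I))‖ ^ 2) := by
      show ‖AA N T N (1 / 2 + t * I)‖ ^ 2 ≤ _
      unfold AA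
      rw [if_neg hN0]
      exact A2_sq1 _ _
    show m' t * B t ≤ 2 * B t + 2 * (‖riemannZeta (1 / 2 + t * I)‖ ^ 2 *
        ‖Mx N (yy N T N) (nC (1 / 2 + t * I))‖ ^ 2 * B t)
    calc m' t * B t ≤ (2 + 2 * (‖riemannZeta (1 / 2 + t * I)‖ ^ 2 *
        ‖Mx N (yy N T N) (nC (1 / 2 + t * I))‖ ^ 2)) * B t := mul_le_mul_of_nonneg_right k2 (B0 t)
      _ = _ := by ring
  -- the first factor
  have j1 : ∫⁻ t in Set.Icc (11 * T / 10) (29 * T / 10), ENNReal.ofReal (z t * m t * A t) ≤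
      ENNReal.ofReal (16 * (K1 + K2 + K3 + K4 + K5) * X) := by
    rcases eq_or_ne (i + 1) N with hiN | hiN
    · -- the last piece
      have hk : N - 1 - i = 0 := by omega
      have hi0 : i ≠ 0 := by omega
      refine (A2_add (f := fun t => z t * m t * A t)
        (g := fun t => ‖Gx N (yy N T i) (nC (1 / 2 + t * I + h))‖ ^ 2 *
          S.Wm lam (nC (1 / 2 + t * I)) ^ 2)
        (h := fun t => ‖riemannZeta (1 / 2 + t * I + h)‖ ^ 2 * S.Wm lam (nC (1 / 2 + t * I)) ^ 2)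
        (a := 2) (b := 2) (P := K2 * X) (Q := K1 * X)
        (((A2_Gx N (yy N T i) h).norm.pow 2).mul cA) (fun t => by positivity)
        (fun t => by positivity) (by norm_num) (by norm_num) hK20 hK10 ?_
        ((lintegral_mono_set hsub).trans (i2 i (by omega) (by omega))) i1).trans
        (ENNReal.ofReal_le_ofReal (by linarith))
      intro t
      have k1 : m t = 1 := by
        show ‖AA N T (N - 1 - i) (1 / 2 + t * I)‖ ^ 2 = 1
        unfold AA
        rw [if_pos hk, norm_one, one_pow]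
      have k2 : z t ≤ 2 * ‖riemannZeta (1 / 2 + t * I + h)‖ ^ 2 +
          2 * ‖Gx N (yy N T i) (nC (1 / 2 + t * I + h))‖ ^ 2 := by
        show ‖PP N T i (1 / 2 + t * I + h)‖ ^ 2 ≤ _
        unfold PP
        rw [if_pos hiN, if_neg hi0]
        exact A2_sq _ _
      show z t * m t * A t ≤ 2 * (‖Gx N (yy N T i) (nC (1 / 2 + t * I + h))‖ ^ 2 * A t) +
        2 * (‖riemannZeta (1 / 2 + t * I + h)‖ ^ 2 * A t)
      rw [k1, mul_one]
      calc z t * A t ≤ (2 * ‖riemannZeta (1 / 2 + t * I + h)‖ ^ 2 +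
          2 * ‖Gx N (yy N T i) (nC (1 / 2 + t * I + h))‖ ^ 2) * A t :=
            mul_le_mul_of_nonneg_right k2 (A0 t)
        _ = _ := by ring
    · have hk : N - 1 - i ≠ 0 := by omega
      have key : ∀ i' : ℕ, 1 ≤ i' → i' + (N - 1 - i) ≤ N →
          ∫⁻ t in Set.Icc (11 * T / 10) (29 * T / 10), ENNReal.ofReal
            (‖Gx N (yy N T i') (nC (1 / 2 + t * I + h))‖ ^ 2 * m t * A t) ≤
          ENNReal.ofReal (4 * (K1 + K2 + K3 + K4 + K5) * X) := by
        intro i' h1' h2'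
        refine (A2_add (f := fun t => ‖Gx N (yy N T i') (nC (1 / 2 + t * I + h))‖ ^ 2 * m t * A t)
          (g := fun t => ‖Gx N (yy N T i') (nC (1 / 2 + t * I + h))‖ ^ 2 *
            S.Wm lam (nC (1 / 2 + t * I)) ^ 2)
          (h := fun t => ‖riemannZeta (1 / 2 + t * I)‖ ^ 2 *
            ‖Mx N (yy N T (N - 1 - i)) (nC (1 / 2 + t * I))‖ ^ 2 *
            ‖Gx N (yy N T i') (nC (1 / 2 + t * I + h))‖ ^ 2 * S.Wm lam (nC (1 / 2 + t * I)) ^ 2)
          (a := 2) (b := 2) (P := K2 * X) (Q := K3 * X)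
          (((A2_Gx N (yy N T i') h).norm.pow 2).mul cA) (fun t => by positivity)
          (fun t => by positivity) (by norm_num) (by norm_num) hK20 hK30 ?_
          ((lintegral_mono_set hsub).trans (i2 i' h1' (by omega)))
          ((lintegral_mono_set hsub).trans (i3 i' (N - 1 - i) h1' (by omega) h2'))).trans
          (ENNReal.ofReal_le_ofReal (by linarith))
        intro t
        have k2 : m t ≤ 2 + 2 * (‖riemannZeta (1 / 2 + t * I)‖ ^ 2 *
            ‖Mx N (yy N T (N - 1 - i)) (nC (1 / 2 + t * I))‖ ^ 2) := by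
          show ‖AA N T (N - 1 - i) (1 / 2 + t * I)‖ ^ 2 ≤ _
          unfold AA
          rw [if_neg hk]
          exact A2_sq1 _ _
        show ‖Gx N (yy N T i') (nC (1 / 2 + t * I + h))‖ ^ 2 * m t * A t ≤
          2 * (‖Gx N (yy N T i') (nC (1 / 2 + t * I + h))‖ ^ 2 * A t) +
          2 * (‖riemannZeta (1 / 2 + t * I)‖ ^ 2 *
            ‖Mx N (yy N T (N - 1 - i)) (nC (1 / 2 + t * I))‖ ^ 2 *
            ‖Gx N (yy N T i') (nC (1 / 2 + t * I + h))‖ ^ 2 * A t)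
        calc ‖Gx N (yy N T i') (nC (1 / 2 + t * I + h))‖ ^ 2 * m t * A t
            ≤ ‖Gx N (yy N T i') (nC (1 / 2 + t * I + h))‖ ^ 2 *
              (2 + 2 * (‖riemannZeta (1 / 2 + t * I)‖ ^ 2 *
                ‖Mx N (yy N T (N - 1 - i)) (nC (1 / 2 + t * I))‖ ^ 2)) * A t :=
              mul_le_mul_of_nonneg_right (mul_le_mul_of_nonneg_left k2 (sq_nonneg _)) (A0 t)
          _ = _ := by ring
      have hK0 : 0 ≤ 4 * (K1 + K2 + K3 + K4 + K5) * X := by nlinarith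
      rcases eq_or_ne i 0 with hi0 | hi0
      · refine (A2_add (f := fun t => z t * m t * A t)
          (g := fun t => ‖Gx N (yy N T (i + 1)) (nC (1 / 2 + t * I + h))‖ ^ 2 * m t * A t)
          (h := fun t => ‖Gx N (yy N T (i + 1)) (nC (1 / 2 + t * I + h))‖ ^ 2 * m t * A t)
          (a := 2) (b := 2) ((((A2_Gx N (yy N T (i + 1)) h).norm.pow 2).mul cm).mul cA)
          (fun t => mul_nonneg (mul_nonneg (sq_nonneg _) (m0 t)) (A0 t))
          (fun t => mul_nonneg (mul_nonneg (sq_nonneg _) (m0 t)) (A0 t))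
          (by norm_num) (by norm_num) hK0 hK0 ?_ (key (i + 1) (by omega) (by omega))
          (key (i + 1) (by omega) (by omega))).trans (ENNReal.ofReal_le_ofReal (by linarith))
        intro t
        have k2 : z t ≤ 2 * ‖Gx N (yy N T (i + 1)) (nC (1 / 2 + t * I + h))‖ ^ 2 +
            2 * ‖Gx N (yy N T (i + 1)) (nC (1 / 2 + t * I + h))‖ ^ 2 := by
          show ‖PP N T i (1 / 2 + t * I + h)‖ ^ 2 ≤ _
          unfold PP
          rw [if_neg hiN, if_pos hi0, sub_zero]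
          nlinarith [sq_nonneg ‖Gx N (yy N T (i + 1)) (nC (1 / 2 + t * I + h))‖]
        show z t * m t * A t ≤ 2 * (‖Gx N (yy N T (i + 1)) (nC (1 / 2 + t * I + h))‖ ^ 2 * m t * A t) +
          2 * (‖Gx N (yy N T (i + 1)) (nC (1 / 2 + t * I + h))‖ ^ 2 * m t * A t)
        calc z t * m t * A t ≤ (2 * ‖Gx N (yy N T (i + 1)) (nC (1 / 2 + t * I + h))‖ ^ 2 +
              2 * ‖Gx N (yy N T (i + 1)) (nC (1 / 2 + t * I + h))‖ ^ 2) * m t * A t :=
              mul_le_mul_of_nonneg_right (mul_le_mul_of_nonneg_right k2 (m0 t)) (A0 t)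
          _ = _ := by ring
      · refine (A2_add (f := fun t => z t * m t * A t)
          (g := fun t => ‖Gx N (yy N T (i + 1)) (nC (1 / 2 + t * I + h))‖ ^ 2 * m t * A t)
          (h := fun t => ‖Gx N (yy N T i) (nC (1 / 2 + t * I + h))‖ ^ 2 * m t * A t)
          (a := 2) (b := 2) ((((A2_Gx N (yy N T (i + 1)) h).norm.pow 2).mul cm).mul cA)
          (fun t => mul_nonneg (mul_nonneg (sq_nonneg _) (m0 t)) (A0 t))
          (fun t => mul_nonneg (mul_nonneg (sq_nonneg _) (m0 t)) (A0 t))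
          (by norm_num) (by norm_num) hK0 hK0 ?_ (key (i + 1) (by omega) (by omega))
          (key i (by omega) (by omega))).trans (ENNReal.ofReal_le_ofReal (by linarith))
        intro t
        have k2 : z t ≤ 2 * ‖Gx N (yy N T (i + 1)) (nC (1 / 2 + t * I + h))‖ ^ 2 +
            2 * ‖Gx N (yy N T i) (nC (1 / 2 + t * I + h))‖ ^ 2 := by
          show ‖PP N T i (1 / 2 + t * I + h)‖ ^ 2 ≤ _
          unfold PP
          rw [if_neg hiN, if_neg hi0]
          exact A2_sq _ _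
        show z t * m t * A t ≤ 2 * (‖Gx N (yy N T (i + 1)) (nC (1 / 2 + t * I + h))‖ ^ 2 * m t * A t) +
          2 * (‖Gx N (yy N T i) (nC (1 / 2 + t * I + h))‖ ^ 2 * m t * A t)
        calc z t * m t * A t ≤ (2 * ‖Gx N (yy N T (i + 1)) (nC (1 / 2 + t * I + h))‖ ^ 2 +
              2 * ‖Gx N (yy N T i) (nC (1 / 2 + t * I + h))‖ ^ 2) * m t * A t :=
              mul_le_mul_of_nonneg_right (mul_le_mul_of_nonneg_right k2 (m0 t)) (A0 t)
          _ = _ := by ring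
  have hH := A2_hoelder (S := Set.Icc (11 * T / 10) (29 * T / 10)) ((cz.mul cm).mul cA) (cm'.mul cB)
    (fun t => mul_nonneg (mul_nonneg (z0 t) (m0 t)) (A0 t)) (fun t => mul_nonneg (m0' t) (B0 t))
    h0.le (by linarith : (0 : ℝ) ≤ 1 - lam) (by ring) j1 j2
  refine (lintegral_mono fun t => ENNReal.ofReal_le_ofReal (hpt t)).trans (hH.trans (le_of_eq ?_))
  rw [show (4 : ENNReal) = ENNReal.ofReal 4 by norm_num, ← ENNReal.ofReal_mul (by norm_num)]
  congr 1
  ring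

end Pool.Agent.UV
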