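import Pool.Agent.Lib.MP_69b2e4_nt.UV.F1
import Pool.Agent.Lib.MP_69b2e4_nt.UH.B2

/-! TASK B2. The regularised functions (pole at `s = 1` removed). (Template: UH/B2.lean.) `riemannZeta₁ s = (s-1) ζ(s)` is entire (Mathlib: `differentiable_riemannZeta₁`, `riemannZeta_eq_inv_sub_mul`).
* `PR_diff`, `AR_diff`: finite sums of `n^{-s}` (`nC_apply`), `s + h + 1 ≠ 0`, `s + 1 ≠ 0`. `PR_eq`, `AR_eq`: algebra with `riemannZeta₁ s = (s-1) ζ(s)`.
* `PP_analytic`, `AA_analytic`: for `Im s > 0` (so `s ≠ 1`).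
* `quot_ge`: `‖s-1‖ ≥ Im s`, `‖s+1‖ ≤ Re s + 1 + Im s ≤ (N+6) Im s` for `0 ≤ Re s ≤ N+4`, `Im s ≥ 1`.
* `sum_PP`: telescoping sum (`Finset.sum_range_sub`-like; `N ≥ 1`): `∑_{i<N} PP N T i s = ζ(s)`. -/

set_option autoImplicit false

namespace Pool.Agent.UV

open Complex MeasureTheory Finset Pool.Agent.GH Pool.Agent.UH
open scoped Real ComplexConjugate

/-- `((s+h-1)/(s+h+1)) PP(s+h)` -/
noncomputable def PR (N : ℕ) (T : ℝ) (i : ℕ) (h s : ℂ) : ℂ :=
  ((if i + 1 = N then riemannZeta₁ (s + h) else (s + h - 1) * Gx N (yy N T (i + 1)) (nC (s + h))) -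
    (s + h - 1) * (if i = 0 then 0 else Gx N (yy N T i) (nC (s + h)))) / (s + h + 1)

/-- `((s-1)/(s+1)) AA(s)` -/
noncomputable def AR (N : ℕ) (T : ℝ) (k : ℕ) (s : ℂ) : ℂ :=
  (if k = 0 then s - 1 else (s - 1) - riemannZeta₁ s * Mx N (yy N T k) (nC s)) / (s + 1)

private theorem B2_Gx_diff (N : ℕ) (y : ℝ) : Differentiable ℂ (fun s : ℂ => Gx N y (nC s)) := by
  unfold Gx
  refine Differentiable.fun_sum fun n hn => ?_
  have hn0 : n ≠ 0 := by
    have := (Finset.mem_Icc.1 hn).1
    omega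
  have hnc : (n : ℂ) ≠ 0 := by exact_mod_cast hn0
  simp only [nC_apply _ hn0]
  refine Differentiable.const_mul ?_ _
  intro s
  exact (differentiableAt_id.neg).const_cpow (Or.inl hnc)

private theorem B2_Mx_diff (N : ℕ) (y : ℝ) : Differentiable ℂ (fun s : ℂ => Mx N y (nC s)) := by
  unfold Mx
  refine Differentiable.fun_sum fun n hn => ?_
  have hn0 : n ≠ 0 := by
    have := (Finset.mem_Icc.1 hn).1
    omega
  have hnc : (n : ℂ) ≠ 0 := by exact_mod_cast hn0
  simp only [nC_apply _ hn0]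
  refine Differentiable.const_mul ?_ _
  intro s
  exact (differentiableAt_id.neg).const_cpow (Or.inl hnc)

theorem PR_diff (N : ℕ) (T : ℝ) (i : ℕ) {h : ℂ} (hh : |h.re| ≤ 1 / 4) :
    DifferentiableOn ℂ (PR N T i h) {s : ℂ | 0 < s.re} := by
  intro s hs
  apply DifferentiableAt.differentiableWithinAt
  have hs2 : 0 < s.re := hs
  have h1 : s + h + 1 ≠ 0 := by
    intro h0
    have h2 := congrArg Complex.re h0
    simp at h2
    have h3 := (abs_le.1 hh).1
    linarith
  have hsh : DifferentiableAt ℂ (fun z : ℂ => z + h) s := differentiableAt_id.add_const h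
  have hsh1 : DifferentiableAt ℂ (fun z : ℂ => z + h - 1) s := hsh.sub_const 1
  have hG : ∀ y : ℝ, DifferentiableAt ℂ (fun z : ℂ => Gx N y (nC (z + h))) s := by
    intro y
    have h4 : DifferentiableAt ℂ (fun z : ℂ => Gx N y (nC z)) (s + h) := B2_Gx_diff N y (s + h)
    exact DifferentiableAt.comp (g := fun z : ℂ => Gx N y (nC z)) (f := fun z : ℂ => z + h) s h4 hsh
  have hZ : DifferentiableAt ℂ (fun z : ℂ => riemannZeta₁ (z + h)) s :=
    DifferentiableAt.comp (g := riemannZeta₁) (f := fun z : ℂ => z + h) s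
      (differentiable_riemannZeta₁ (s + h)) hsh
  have e1 : DifferentiableAt ℂ (fun z : ℂ => if i + 1 = N then riemannZeta₁ (z + h) else
      (z + h - 1) * Gx N (yy N T (i + 1)) (nC (z + h))) s := by
    by_cases hi : i + 1 = N
    · simp only [if_pos hi]
      exact hZ
    · simp only [if_neg hi]
      exact hsh1.mul (hG _)
  have e2 : DifferentiableAt ℂ (fun z : ℂ => (z + h - 1) *
      (if i = 0 then 0 else Gx N (yy N T i) (nC (z + h)))) s := by
    by_cases hi : i = 0
    · simp only [if_pos hi]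
      exact hsh1.mul (differentiableAt_const 0)
    · simp only [if_neg hi]
      exact hsh1.mul (hG _)
  unfold PR
  exact (e1.sub e2).div (hsh.add_const 1) h1

theorem AR_diff (N : ℕ) (T : ℝ) (k : ℕ) : DifferentiableOn ℂ (AR N T k) {s : ℂ | 0 < s.re} := by
  intro s hs
  apply DifferentiableAt.differentiableWithinAt
  have hs2 : 0 < s.re := hs
  have h1 : s + 1 ≠ 0 := by
    intro h0
    have h2 := congrArg Complex.re h0
    simp at h2
    linarith
  have hs1 : DifferentiableAt ℂ (fun z : ℂ => z - 1) s := differentiableAt_id.sub_const 1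
  have e1 : DifferentiableAt ℂ (fun z : ℂ => if k = 0 then z - 1 else
      (z - 1) - riemannZeta₁ z * Mx N (yy N T k) (nC z)) s := by
    by_cases hk : k = 0
    · simp only [if_pos hk]
      exact hs1
    · simp only [if_neg hk]
      exact hs1.sub ((differentiable_riemannZeta₁ s).mul (B2_Mx_diff N _ s))
  unfold AR
  exact e1.div (differentiableAt_id.add_const 1) h1

theorem PR_eq (N : ℕ) (T : ℝ) (i : ℕ) {h s : ℂ} (hs : s + h ≠ 1) :
    PR N T i h s = ((s + h - 1) / (s + h + 1)) * PP N T i (s + h) := by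
  have h1 : s + h - 1 ≠ 0 := sub_ne_zero.2 hs
  have h3 : riemannZeta₁ (s + h) = (s + h - 1) * riemannZeta (s + h) := by
    rw [riemannZeta_eq_inv_sub_mul hs, ← mul_assoc, mul_inv_cancel₀ h1, one_mul]
  unfold PR PP
  by_cases hi : i + 1 = N
  · simp only [if_pos hi]
    rw [h3]
    ring
  · simp only [if_neg hi]
    ring

theorem AR_eq (N : ℕ) (T : ℝ) (k : ℕ) {s : ℂ} (hs : s ≠ 1) :
    AR N T k s = ((s - 1) / (s + 1)) * AA N T k s := by
  have h1 : s - 1 ≠ 0 := sub_ne_zero.2 hs
  have h3 : riemannZeta₁ s = (s - 1) * riemannZeta s := by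
    rw [riemannZeta_eq_inv_sub_mul hs, ← mul_assoc, mul_inv_cancel₀ h1, one_mul]
  unfold AR AA
  by_cases hk : k = 0
  · simp only [if_pos hk]
    ring
  · simp only [if_neg hk]
    rw [h3]
    ring

theorem PP_analytic (N : ℕ) (T : ℝ) (i : ℕ) {s : ℂ} (hs : 0 < s.im) : AnalyticAt ℂ (PP N T i) s := by
  have hopen : IsOpen {z : ℂ | 0 < z.im} := isOpen_lt continuous_const Complex.continuous_im
  have hd : DifferentiableOn ℂ (PP N T i) {z : ℂ | 0 < z.im} := by
    intro z hz
    apply DifferentiableAt.differentiableWithinAt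
    have hz1 : z ≠ 1 := by
      rintro rfl
      simp at hz
    have e1 : DifferentiableAt ℂ (fun z : ℂ => if i + 1 = N then riemannZeta z else
        Gx N (yy N T (i + 1)) (nC z)) z := by
      by_cases hi : i + 1 = N
      · simp only [if_pos hi]
        exact differentiableAt_riemannZeta hz1
      · simp only [if_neg hi]
        exact B2_Gx_diff N _ z
    have e2 : DifferentiableAt ℂ (fun z : ℂ => if i = 0 then 0 else Gx N (yy N T i) (nC z)) z := by
      by_cases hi : i = 0
      · simp only [if_pos hi]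
        exact differentiableAt_const 0
      · simp only [if_neg hi]
        exact B2_Gx_diff N _ z
    unfold PP
    exact e1.sub e2
  exact hd.analyticAt (hopen.mem_nhds hs)

theorem AA_analytic (N : ℕ) (T : ℝ) (k : ℕ) {s : ℂ} (hs : 0 < s.im) : AnalyticAt ℂ (AA N T k) s := by
  have hopen : IsOpen {z : ℂ | 0 < z.im} := isOpen_lt continuous_const Complex.continuous_im
  have hd : DifferentiableOn ℂ (AA N T k) {z : ℂ | 0 < z.im} := by
    intro z hz
    apply DifferentiableAt.differentiableWithinAt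
    have hz1 : z ≠ 1 := by
      rintro rfl
      simp at hz
    unfold AA
    by_cases hk : k = 0
    · simp only [if_pos hk]
      exact differentiableAt_const 1
    · simp only [if_neg hk]
      exact (differentiableAt_const 1).sub ((differentiableAt_riemannZeta hz1).mul (B2_Mx_diff N _ z))
  exact hd.analyticAt (hopen.mem_nhds hs)

theorem quot_ge (N : ℕ) {s : ℂ} (hs : 0 ≤ s.re) (hs1 : s.re ≤ N + 4) (ht : 1 ≤ s.im) :
    1 / ((N : ℝ) + 6) ≤ ‖(s - 1) / (s + 1)‖ := by
  rw [norm_div]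
  have hN : (0 : ℝ) ≤ (N : ℝ) := Nat.cast_nonneg _
  have h1 : s.im ≤ ‖s - 1‖ := by
    have h2 : |(s - 1).im| ≤ ‖s - 1‖ := Complex.abs_im_le_norm _
    have h3 : (s - 1).im = s.im := by simp
    rw [h3, abs_of_nonneg (by linarith)] at h2
    exact h2
  have h0 : 1 ≤ ‖s + 1‖ := by
    have h1 : |(s + 1).re| ≤ ‖s + 1‖ := Complex.abs_re_le_norm _
    have h2 : (s + 1).re = s.re + 1 := by simp
    rw [h2, abs_of_nonneg (by linarith)] at h1
    linarith
  have h2 : ‖s + 1‖ ≤ (s.re + 1) + s.im := by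
    have h3 := Complex.norm_le_abs_re_add_abs_im (s + 1)
    have h4 : (s + 1).re = s.re + 1 := by simp
    have h5 : (s + 1).im = s.im := by simp
    rw [h4, h5, abs_of_nonneg (by linarith), abs_of_nonneg (by linarith)] at h3
    exact h3
  rw [div_le_div_iff₀ (by linarith) (by linarith)]
  nlinarith

theorem sum_PP {N : ℕ} (hN : 1 ≤ N) (T : ℝ) (s : ℂ) : ∑ i ∈ range N, PP N T i s = riemannZeta s := by
  obtain ⟨f, hf⟩ : ∃ f : ℕ → ℂ, f = fun j : ℕ => if j = 0 then (0 : ℂ) else
      if j = N then riemannZeta s else Gx N (yy N T j) (nC s) := ⟨_, rfl⟩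
  have h1 : ∀ i ∈ range N, PP N T i s = f (i + 1) - f i := by
    intro i hi
    have hi' : i ≠ N := (Finset.mem_range.1 hi).ne
    rw [hf]
    unfold PP
    simp only [Nat.succ_ne_zero, if_false, if_neg hi']
  rw [Finset.sum_congr rfl h1, Finset.sum_range_sub]
  have hN0 : N ≠ 0 := by omega
  rw [hf]
  simp [hN0]

/-- at a zero of `ζ` -/
theorem AA_zero (N : ℕ) (T : ℝ) (k : ℕ) {ρ : ℂ} (h0 : riemannZeta ρ = 0) : AA N T k ρ = 1 := by
  unfold AA
  rw [h0]
  simp

end Pool.Agent.UV
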