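import Pool.Agent.Lib.MP_69b2e4_nt.UV.B2
import Pool.Agent.Lib.MP_69b2e4_nt.Mg.G002
import Pool.Agent.Lib.MP_69b2e4_nt.Mg.G038

/-! TASK B2g. Growth of the regularised functions. (Template: UH/B2.lean, `GF_growth`.) `‖Gx N (yy N T i) (nC s)‖, ‖Mx N (yy N T i) (nC s)‖ ≤ ∑_{n ≤ T} 1 ≤ T` for `Re s ≥ 0`, `i ≤ N` (`Fd_mem`, `|μ| ≤ 1`, `yy N T i ≤ T`, `‖n^{-s}‖ ≤ 1`).
`‖riemannZeta₁ s/(s+1)‖ ≤ C_N (1+|t|)` for `1/4 ≤ Re s ≤ N+4`: for `|t| ≤ 1` continuity on a compact rectangle; for `|t| ≥ 1` `‖(s-1)/(s+1)‖ ≤ 1` and `‖ζ(s)‖ ≤ C(1+|t|)`: `zeta_growth` of GH/Grow for `1/2 ≤ Re s ≤ 2` (check its exact range), `norm_zeta_le_two` (UH/B1) for `Re s ≥ 2`, and `zeta_left` (UH/G2;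
`Im < 0` by conjugation, `riemannZeta_conj`) for `1/4 ≤ Re s ≤ 1/2`: `‖ζ(s)‖ ≤ C |t|^{1/4} ‖ζ(1-σ+it)‖ ≤ C' |t|^{3/4}`.
So `‖PR‖ ≤ ‖riemannZeta₁ (s+h)/(s+h+1)‖ + 2T ≤ C (1+|t+Im h|) + 2T ≤ C' T (1+|t|)` (`‖(s+h-1)/(s+h+1)‖ ≤ 1`) and `‖AR‖ ≤ 1 + C(1+|t|) T ≤ C' T (1+|t|)`. -/

set_option autoImplicit false

namespace Pool.Agent.UV

open Complex MeasureTheory Finset Pool.Agent.GH Pool.Agent.UH
open scoped Real ComplexConjugate

private theorem B2g_yy (N : ℕ) {T : ℝ} (hT : 1 ≤ T) {i : ℕ} (hi : i ≤ N) : 0 ≤ yy N T i ∧ yy N T i ≤ T := by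
  unfold yy
  refine ⟨Real.rpow_nonneg (by linarith) _, ?_⟩
  have h1 : (i : ℝ) ≤ N := by exact_mod_cast hi
  have h2 : (i : ℝ) * et N ≤ 1 := by
    unfold et
    have h3 : (0 : ℝ) ≤ N := Nat.cast_nonneg N
    rw [mul_one_div, div_le_one (by positivity)]
    linarith
  calc T ^ ((i : ℝ) * et N) ≤ T ^ (1 : ℝ) := Real.rpow_le_rpow_of_exponent_le hT h2
    _ = T := Real.rpow_one T

private theorem B2g_Gx (N : ℕ) {T : ℝ} (hT : 1 ≤ T) {i : ℕ} (hi : i ≤ N) {s : ℂ} (hs : 0 ≤ s.re) :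
    ‖Gx N (yy N T i) (nC s)‖ ≤ T := by
  obtain ⟨hy0, hyT⟩ := B2g_yy N hT hi
  have h1 : ‖Gx N (yy N T i) (nC s)‖ ≤ ∑ n ∈ Finset.Icc 1 ⌊yy N T i⌋₊, (1 : ℝ) := by
    unfold Gx
    refine norm_sum_le_of_le _ fun n hn => ?_
    have hn0 : n ≠ 0 := by
      have := (Finset.mem_Icc.1 hn).1
      omega
    have hn1 : (1 : ℝ) ≤ n := by exact_mod_cast (Finset.mem_Icc.1 hn).1
    rw [norm_mul, norm_nC s hn0]
    have e2 : ‖(Fd N (Real.log n / Real.log (yy N T i)) : ℂ)‖ ≤ 1 := by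
      rw [Complex.norm_real, Real.norm_eq_abs, abs_of_nonneg (Fd_mem N _).1]
      exact (Fd_mem N _).2
    have e3 : (n : ℝ) ^ (-s.re) ≤ 1 := Real.rpow_le_one_of_one_le_of_nonpos hn1 (by linarith)
    have e3' : 0 ≤ (n : ℝ) ^ (-s.re) := Real.rpow_nonneg (by linarith) _
    have e4 := mul_le_mul e2 e3 e3' (by norm_num)
    simpa using e4
  refine h1.trans ?_
  rw [Finset.sum_const, Nat.card_Icc, Nat.add_sub_cancel, nsmul_eq_mul, mul_one]
  exact (Nat.floor_le hy0).trans hyT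

private theorem B2g_Mx (N : ℕ) {T : ℝ} (hT : 1 ≤ T) {i : ℕ} (hi : i ≤ N) {s : ℂ} (hs : 0 ≤ s.re) :
    ‖Mx N (yy N T i) (nC s)‖ ≤ T := by
  obtain ⟨hy0, hyT⟩ := B2g_yy N hT hi
  have h1 : ‖Mx N (yy N T i) (nC s)‖ ≤ ∑ n ∈ Finset.Icc 1 ⌊yy N T i⌋₊, (1 : ℝ) := by
    unfold Mx
    refine norm_sum_le_of_le _ fun n hn => ?_
    have hn0 : n ≠ 0 := by
      have := (Finset.mem_Icc.1 hn).1
      omega
    have hn1 : (1 : ℝ) ≤ n := by exact_mod_cast (Finset.mem_Icc.1 hn).1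
    rw [norm_mul, norm_mul, norm_nC s hn0]
    have e1 : ‖((ArithmeticFunction.moebius n : ℤ) : ℂ)‖ ≤ 1 := by
      rw [Complex.norm_intCast]
      exact_mod_cast (ArithmeticFunction.abs_moebius_le_one (n := n))
    have e2 : ‖(Fd N (Real.log n / Real.log (yy N T i)) : ℂ)‖ ≤ 1 := by
      rw [Complex.norm_real, Real.norm_eq_abs, abs_of_nonneg (Fd_mem N _).1]
      exact (Fd_mem N _).2
    have e3 : (n : ℝ) ^ (-s.re) ≤ 1 := Real.rpow_le_one_of_one_le_of_nonpos hn1 (by linarith)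
    have e3' : 0 ≤ (n : ℝ) ^ (-s.re) := Real.rpow_nonneg (by linarith) _
    have e4 := mul_le_mul (mul_le_mul e1 e2 (norm_nonneg _) (by norm_num)) e3 e3' (by norm_num)
    simpa using e4
  refine h1.trans ?_
  rw [Finset.sum_const, Nat.card_Icc, Nat.add_sub_cancel, nsmul_eq_mul, mul_one]
  exact (Nat.floor_le hy0).trans hyT

private theorem B2g_add_one_ge {s : ℂ} (hs : 0 ≤ s.re) : 1 ≤ ‖s + 1‖ := by
  have h1 : |(s + 1).re| ≤ ‖s + 1‖ := Complex.abs_re_le_norm _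
  have h2 : (s + 1).re = s.re + 1 := by simp
  rw [h2, abs_of_nonneg (by linarith)] at h1
  linarith

private theorem B2g_left : ∃ C : ℝ, 1 ≤ C ∧ ∀ s : ℂ, 1 / 4 ≤ s.re → s.re ≤ 1 / 2 → 1 ≤ |s.im| →
    ‖riemannZeta s‖ ≤ C * (1 + |s.im|) := by
  obtain ⟨C1, hC1, hg⟩ := zeta_growth
  obtain ⟨C2, hC2, hl⟩ := zeta_left
  have key : ∀ s : ℂ, 1 / 4 ≤ s.re → s.re ≤ 1 / 2 → 1 ≤ s.im →
      ‖riemannZeta s‖ ≤ C2 * C1 * (1 + |s.im|) := by
    intro s h1 h2 h3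
    have ht : 0 < s.im := by linarith
    have e1 := hl s.re s.im (by linarith) h2 h3
    rw [Complex.re_add_im] at e1
    have e2 := hg (((1 - s.re : ℝ) : ℂ) + s.im * I) (by simp; linarith) (by simp; linarith)
      (by simpa using h3.trans (le_abs_self _))
    have e3 : (((1 - s.re : ℝ) : ℂ) + s.im * I).im = s.im := by simp
    rw [e3, abs_of_pos ht] at e2
    have e4 : s.im ^ (1 / 2 - s.re) * s.im ^ (1 / 2 : ℝ) ≤ s.im := by
      rw [← Real.rpow_add ht]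
      calc s.im ^ (1 / 2 - s.re + 1 / 2) ≤ s.im ^ (1 : ℝ) :=
            Real.rpow_le_rpow_of_exponent_le h3 (by linarith)
        _ = s.im := Real.rpow_one _
    rw [abs_of_pos ht]
    calc ‖riemannZeta s‖ ≤ C2 * s.im ^ (1 / 2 - s.re) *
          ‖riemannZeta (((1 - s.re : ℝ) : ℂ) + s.im * I)‖ := e1
      _ ≤ C2 * s.im ^ (1 / 2 - s.re) * (C1 * s.im ^ (1 / 2 : ℝ)) :=
          mul_le_mul_of_nonneg_left e2 (by positivity)
      _ = C2 * C1 * (s.im ^ (1 / 2 - s.re) * s.im ^ (1 / 2 : ℝ)) := by ring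
      _ ≤ C2 * C1 * (1 + s.im) := mul_le_mul_of_nonneg_left (by linarith) (by positivity)
  refine ⟨C2 * C1, one_le_mul_of_one_le_of_one_le hC2 hC1, fun s h1 h2 h3 => ?_⟩
  rcases le_total 0 s.im with h4 | h4
  · rw [abs_of_nonneg h4] at h3
    exact key s h1 h2 h3
  · rw [abs_of_nonpos h4] at h3
    have h5 := key (conj s) (by simpa using h1) (by simpa using h2) (by simpa using h3)
    rw [riemannZeta_conj, Complex.norm_conj] at h5
    simpa using h5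

private theorem B2g_zeta1 (N : ℕ) : ∃ C : ℝ, 1 ≤ C ∧ ∀ s : ℂ, 1 / 4 ≤ s.re → s.re ≤ N + 4 →
    ‖riemannZeta₁ s / (s + 1)‖ ≤ C * (1 + |s.im|) := by
  obtain ⟨C1, hC1, hg⟩ := zeta_growth
  obtain ⟨C0, hC0, hl⟩ := B2g_left
  -- the compact rectangle
  have hK : IsCompact (Set.Icc (1 / 4 : ℝ) (N + 4) ×ℂ Set.Icc (-1 : ℝ) 1) :=
    isCompact_Icc.reProdIm isCompact_Icc
  obtain ⟨C2, hC2⟩ := hK.exists_bound_of_continuousOn (f := riemannZeta₁)
    differentiable_riemannZeta₁.continuous.continuousOn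
  refine ⟨max (max (max C1 C2) 2) C0, le_trans (by norm_num) ((le_max_right _ _).trans (le_max_left _ _)), ?_⟩
  intro s hs1 hs2
  set C := max (max (max C1 C2) 2) C0 with hCdef
  have hC1' : C1 ≤ C := ((le_max_left _ _).trans (le_max_left _ _)).trans (le_max_left _ _)
  have hC2' : C2 ≤ C := ((le_max_right _ _).trans (le_max_left _ _)).trans (le_max_left _ _)
  have hC3 : 2 ≤ C := (le_max_right _ _).trans (le_max_left _ _)
  have hC0' : C0 ≤ C := le_max_right _ _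
  have habs : 0 ≤ |s.im| := abs_nonneg _
  have hs0 : 0 ≤ s.re := by linarith
  by_cases ht : |s.im| ≤ 1
  · have h1 : s ∈ Set.Icc (1 / 4 : ℝ) (N + 4) ×ℂ Set.Icc (-1 : ℝ) 1 := by
      rw [Complex.mem_reProdIm]
      exact ⟨⟨hs1, hs2⟩, abs_le.1 ht⟩
    have h2 := hC2 s h1
    rw [norm_div]
    have h3 := B2g_add_one_ge hs0
    calc ‖riemannZeta₁ s‖ / ‖s + 1‖ ≤ ‖riemannZeta₁ s‖ / 1 :=
          div_le_div_of_nonneg_left (norm_nonneg _) one_pos h3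
      _ = ‖riemannZeta₁ s‖ := div_one _
      _ ≤ C := h2.trans hC2'
      _ ≤ C * (1 + |s.im|) := by nlinarith
  · push Not at ht
    have hs1' : s ≠ 1 := by
      rintro rfl
      simp at ht
      linarith
    have h1s : s - 1 ≠ 0 := sub_ne_zero.2 hs1'
    have e1 : riemannZeta₁ s = (s - 1) * riemannZeta s := by
      rw [riemannZeta_eq_inv_sub_mul hs1', ← mul_assoc, mul_inv_cancel₀ h1s, one_mul]
    have e2 : riemannZeta₁ s / (s + 1) = (s - 1) / (s + 1) * riemannZeta s := by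
      rw [e1]; ring
    rw [e2, norm_mul]
    have e3 := norm_quot_le hs0
    have e4 : ‖riemannZeta s‖ ≤ C * (1 + |s.im|) := by
      by_cases h0 : s.re ≤ 1 / 2
      · exact (hl s hs1 h0 ht.le).trans (mul_le_mul_of_nonneg_right hC0' (by linarith))
      · push Not at h0
        by_cases h2 : s.re ≤ 2
        · refine (hg s h0.le h2 ht.le).trans ?_
          have h3 : |s.im| ^ (1 / 2 : ℝ) ≤ |s.im| := by
            calc |s.im| ^ (1 / 2 : ℝ) ≤ |s.im| ^ (1 : ℝ) :=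
                  Real.rpow_le_rpow_of_exponent_le ht.le (by norm_num)
              _ = |s.im| := Real.rpow_one _
          have h4 : 0 ≤ |s.im| ^ (1 / 2 : ℝ) := Real.rpow_nonneg habs _
          have h5 : |s.im| ^ (1 / 2 : ℝ) ≤ 1 + |s.im| := by linarith
          exact mul_le_mul hC1' h5 h4 (by linarith)
        · push Not at h2
          have h3 := norm_zeta_le_two h2.le
          nlinarith
    calc ‖(s - 1) / (s + 1)‖ * ‖riemannZeta s‖ ≤ 1 * ‖riemannZeta s‖ :=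
          mul_le_mul_of_nonneg_right e3 (norm_nonneg _)
      _ = ‖riemannZeta s‖ := one_mul _
      _ ≤ _ := e4

theorem PR_growth (N : ℕ) (hN : 1 ≤ N) : ∃ C : ℝ, 1 ≤ C ∧ ∀ T : ℝ, 1 ≤ T → ∀ i < N, ∀ h s : ℂ,
    |h.re| ≤ 1 / 4 → |h.im| ≤ 1 → 1 / 2 ≤ s.re → s.re ≤ N + 3 →
    ‖PR N T i h s‖ ≤ C * T * (1 + |s.im|) := by
  obtain ⟨C, hC, hb⟩ := B2g_zeta1 N
  refine ⟨2 * C + 2, by linarith, ?_⟩
  intro T hT i hi h s hh1 hh2 hs1 hs2
  set w : ℂ := s + h with hw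
  have hwre : w.re = s.re + h.re := by rw [hw, Complex.add_re]
  have hwim : w.im = s.im + h.im := by rw [hw, Complex.add_im]
  have hh3 := abs_le.1 hh1
  have hw1 : 1 / 4 ≤ w.re := by linarith
  have hw2 : w.re ≤ N + 4 := by linarith
  have hw0 : 0 ≤ w.re := by linarith
  have hwi : |w.im| ≤ |s.im| + 1 := by
    rw [hwim]
    exact (abs_add_le _ _).trans (by linarith)
  have habs : 0 ≤ |s.im| := abs_nonneg _
  have habw : 0 ≤ |w.im| := abs_nonneg _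
  have h3 := norm_quot_le hw0
  have e1 : PR N T i h s = (if i + 1 = N then riemannZeta₁ w else (w - 1) * Gx N (yy N T (i + 1)) (nC w)) / (w + 1) -
      (w - 1) / (w + 1) * (if i = 0 then 0 else Gx N (yy N T i) (nC w)) := by
    unfold PR
    rw [← hw]
    ring
  have h1 : ‖(if i + 1 = N then riemannZeta₁ w else (w - 1) * Gx N (yy N T (i + 1)) (nC w)) / (w + 1)‖ ≤
      C * (1 + |w.im|) + T := by
    split_ifs with hi1
    · have := hb w hw1 hw2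
      linarith
    · have e2 : (w - 1) * Gx N (yy N T (i + 1)) (nC w) / (w + 1) =
          (w - 1) / (w + 1) * Gx N (yy N T (i + 1)) (nC w) := by ring
      rw [e2, norm_mul]
      have h4 := B2g_Gx N hT (i := i + 1) (by omega) hw0
      have h5 : ‖(w - 1) / (w + 1)‖ * ‖Gx N (yy N T (i + 1)) (nC w)‖ ≤ 1 * T :=
        mul_le_mul h3 h4 (norm_nonneg _) zero_le_one
      have h6 : 0 ≤ C * (1 + |w.im|) := by positivity
      linarith
  have h2 : ‖(w - 1) / (w + 1) * (if i = 0 then 0 else Gx N (yy N T i) (nC w))‖ ≤ T := by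
    rw [norm_mul]
    have h4 : ‖(if i = 0 then (0 : ℂ) else Gx N (yy N T i) (nC w))‖ ≤ T := by
      split_ifs with h0
      · rw [norm_zero]
        linarith
      · exact B2g_Gx N hT hi.le hw0
    have h5 := mul_le_mul h3 h4 (norm_nonneg _) zero_le_one
    linarith
  rw [e1]
  refine (norm_sub_le _ _).trans ?_
  have h7 : C * (1 + |w.im|) ≤ 2 * C * (T * (1 + |s.im|)) := by
    have h8 : 1 + |w.im| ≤ 2 * (1 + |s.im|) := by linarith
    have h9 : 1 + |s.im| ≤ T * (1 + |s.im|) := le_mul_of_one_le_left (by linarith) hT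
    calc C * (1 + |w.im|) ≤ C * (2 * (T * (1 + |s.im|))) :=
          mul_le_mul_of_nonneg_left (by linarith) (by linarith)
      _ = _ := by ring
  have h10 : T ≤ T * (1 + |s.im|) := le_mul_of_one_le_right (by linarith) (by linarith)
  calc _ ≤ (C * (1 + |w.im|) + T) + T := add_le_add h1 h2
    _ ≤ 2 * C * (T * (1 + |s.im|)) + 2 * (T * (1 + |s.im|)) := by linarith
    _ = (2 * C + 2) * T * (1 + |s.im|) := by ring

theorem AR_growth (N : ℕ) (hN : 1 ≤ N) : ∃ C : ℝ, 1 ≤ C ∧ ∀ T : ℝ, 1 ≤ T → ∀ k ≤ N, ∀ s : ℂ,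
    1 / 2 ≤ s.re → s.re ≤ N + 3 → ‖AR N T k s‖ ≤ C * T * (1 + |s.im|) := by
  obtain ⟨C, hC, hb⟩ := B2g_zeta1 N
  refine ⟨1 + C, by linarith, ?_⟩
  intro T hT k hk s hs1 hs2
  have hs0 : 0 ≤ s.re := by linarith
  have habs : 0 ≤ |s.im| := abs_nonneg _
  have h3 := norm_quot_le hs0
  have hT1 : 1 ≤ T * (1 + |s.im|) := one_le_mul_of_one_le_of_one_le hT (by linarith)
  unfold AR
  split_ifs with h0
  · calc ‖(s - 1) / (s + 1)‖ ≤ 1 := h3
      _ ≤ T * (1 + |s.im|) := hT1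
      _ ≤ (1 + C) * (T * (1 + |s.im|)) := le_mul_of_one_le_left (by linarith) (by linarith)
      _ = _ := by ring
  · have e1 : ((s - 1) - riemannZeta₁ s * Mx N (yy N T k) (nC s)) / (s + 1) =
        (s - 1) / (s + 1) - riemannZeta₁ s / (s + 1) * Mx N (yy N T k) (nC s) := by ring
    rw [e1]
    refine (norm_sub_le _ _).trans ?_
    rw [norm_mul]
    have h1 := hb s (by linarith) (by linarith)
    have h2 := B2g_Mx N hT hk hs0
    have h4 : 0 ≤ C * (1 + |s.im|) := by positivity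
    calc ‖(s - 1) / (s + 1)‖ + ‖riemannZeta₁ s / (s + 1)‖ * ‖Mx N (yy N T k) (nC s)‖
        ≤ 1 + C * (1 + |s.im|) * T := add_le_add h3 (mul_le_mul h1 h2 (norm_nonneg _) h4)
      _ ≤ T * (1 + |s.im|) + C * (1 + |s.im|) * T := by linarith
      _ = (1 + C) * T * (1 + |s.im|) := by ring

end Pool.Agent.UV
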