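import Pool.Agent.Lib.MP_69b2e4_nt.UV.A2
import Pool.Agent.Lib.MP_69b2e4_nt.UV.B2g

/-! TASK B5. The averaged window on the critical line. (Template: UH/B5.lean.) Let `E(s) = exp((s - i t0)²)`, `‖E(1/2+it)‖ = e^{1/4 - (t-t0)²}`, total exponent `Q = 2lam + 2lam + 2(1-lam) = 2 + 2 lam`, `I = [5T/4-1, 5T/2+1]`.
By Tonelli the left side is `e^{Q/4} ∫⁻_t (‖PR‖^{2lam} ‖AR_k‖^{2lam} ‖AR_N‖^{2(1-lam)})(1/2+it) K(t) dt`, `K(t) = ∫_I e^{-Q(t-t0)²} dt0 ≤ (π/Q)^{1/2}`. Part `t ∈ [11T/10, 29T/10]`: `‖PR‖ ≤ ‖PP(s+h)‖`, `‖AR‖ ≤ ‖AA‖` (`PR_eq`, `AR_eq`, `norm_quot_le` of UH/B2, also at `s+h`), so the integrand is at most `UU`: `Astar4`.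
Part `t ∉ [11T/10, 29T/10]`: `|t - t0| ≥ T/10` for all `t0 ∈ I` (`T ≥ 40`), so `(t-t0)² ≥ T²/200 + (t-t0)²/2`; by `PR_growth`, `AR_growth` the product is at most `(C T (1+|t|))^Q`, `1+|t| ≤ 4T(1+|t-t0|)`; so this part is `≤ C' T^{2Q+1} e^{-QT²/200} ≤ 1` for `T ≥ T0`. And `1 ≤ T L^{lam²}`.
(`‖h‖ ≤ 1/log T ≤ 1/4` for `T ≥ e^4`; measurability: continuous functions.) -/

set_option autoImplicit false

namespace Pool.Agent.UV

open Complex MeasureTheory Finset Pool.Agent.GH Pool.Agent.UH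
open scoped Real ComplexConjugate

/-- the windowed joint function -/
noncomputable def VV (N : ℕ) (T lam : ℝ) (i : ℕ) (h : ℂ) (t0 : ℝ) (s : ℂ) : ℝ :=
  ‖PR N T i h s * cexp ((s - t0 * I) ^ 2)‖ ^ (2 * lam) *
    ‖AR N T (N - 1 - i) s * cexp ((s - t0 * I) ^ 2)‖ ^ (2 * lam) *
    ‖AR N T N s * cexp ((s - t0 * I) ^ 2)‖ ^ (2 * (1 - lam))

/-- the three factors without the Gaussian window -/
private noncomputable def B5_G (N : ℕ) (T lam : ℝ) (i : ℕ) (h : ℂ) (t : ℝ) : ℝ :=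
  ‖PR N T i h (((1 / 2 : ℝ) : ℂ) + t * I)‖ ^ (2 * lam) *
    ‖AR N T (N - 1 - i) (((1 / 2 : ℝ) : ℂ) + t * I)‖ ^ (2 * lam) *
    ‖AR N T N (((1 / 2 : ℝ) : ℂ) + t * I)‖ ^ (2 * (1 - lam))

private theorem B5_exp (t0 t : ℝ) :
    ‖cexp ((((1 / 2 : ℝ) : ℂ) + t * I - t0 * I) ^ 2)‖ = Real.exp (1 / 4 - (t - t0) ^ 2) := by
  rw [Complex.norm_exp]
  congr 1
  have h : ((((1 / 2 : ℝ) : ℂ) + t * I - t0 * I) ^ 2) =
      ((1 / 4 - (t - t0) ^ 2 : ℝ) : ℂ) + ((t - t0 : ℝ) : ℂ) * I := by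
    have hI : I ^ 2 = -1 := Complex.I_sq
    push_cast
    linear_combination ((t : ℂ) - t0) ^ 2 * hI
  rw [h, Complex.add_re, Complex.ofReal_re, Complex.re_ofReal_mul, Complex.I_re, mul_zero,
    add_zero]

private theorem B5_rpow {x : ℝ} (hx : 0 ≤ x) (y q : ℝ) :
    (x * Real.exp y) ^ q = x ^ q * Real.exp (y * q) := by
  rw [Real.mul_rpow hx (Real.exp_pos _).le, ← Real.exp_mul]

private theorem B5_VV (N : ℕ) (T lam : ℝ) (i : ℕ) (h : ℂ) (t0 t : ℝ) :
    VV N T lam i h t0 (((1 / 2 : ℝ) : ℂ) + t * I) =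
      B5_G N T lam i h t * Real.exp ((1 / 4 - (t - t0) ^ 2) * (2 + 2 * lam)) := by
  unfold VV B5_G
  rw [norm_mul, norm_mul, norm_mul, B5_exp, B5_rpow (norm_nonneg _), B5_rpow (norm_nonneg _),
    B5_rpow (norm_nonneg _)]
  have e : Real.exp ((1 / 4 - (t - t0) ^ 2) * (2 + 2 * lam)) =
      Real.exp ((1 / 4 - (t - t0) ^ 2) * (2 * lam)) * Real.exp ((1 / 4 - (t - t0) ^ 2) * (2 * lam)) *
        Real.exp ((1 / 4 - (t - t0) ^ 2) * (2 * (1 - lam))) := by
    rw [← Real.exp_add, ← Real.exp_add]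
    congr 1
    ring
  rw [e]
  ring

private theorem B5_maps : Set.MapsTo (fun t : ℝ => (((1 / 2 : ℝ) : ℂ) + t * I)) Set.univ
    {s : ℂ | 0 < s.re} := by
  intro t _
  simp only [Set.mem_ofPred_eq, Complex.add_re, Complex.ofReal_re, Complex.mul_re, Complex.I_re,
    mul_zero, Complex.ofReal_im, Complex.I_im, mul_one, sub_self, add_zero]
  norm_num

private theorem B5_cont (N : ℕ) (T lam : ℝ) (h0 : 0 < lam) (h1 : lam < 1) (i : ℕ) {h : ℂ}
    (hh : |h.re| ≤ 1 / 4) : Continuous (B5_G N T lam i h) := by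
  have c1 : Continuous fun t : ℝ => PR N T i h (((1 / 2 : ℝ) : ℂ) + t * I) := by
    rw [← continuousOn_univ]
    exact (PR_diff N T i hh).continuousOn.comp (by fun_prop) B5_maps
  have c2 : ∀ k : ℕ, Continuous fun t : ℝ => AR N T k (((1 / 2 : ℝ) : ℂ) + t * I) := by
    intro k
    rw [← continuousOn_univ]
    exact (AR_diff N T k).continuousOn.comp (by fun_prop) B5_maps
  unfold B5_G
  refine ((c1.norm.rpow_const fun _ => Or.inr (by positivity)).mul
    ((c2 _).norm.rpow_const fun _ => Or.inr (by positivity))).mul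
    ((c2 _).norm.rpow_const fun _ => Or.inr ?_)
  linarith

private theorem B5_nonneg (N : ℕ) (T lam : ℝ) (i : ℕ) (h : ℂ) (t : ℝ) : 0 ≤ B5_G N T lam i h t := by
  unfold B5_G
  positivity

private theorem B5_gauss {b : ℝ} (hb : 0 < b) (t : ℝ) :
    ∫⁻ t0 : ℝ, ENNReal.ofReal (Real.exp (-b * (t0 - t) ^ 2)) =
      ENNReal.ofReal (∫ u : ℝ, Real.exp (-b * u ^ 2)) := by
  rw [lintegral_sub_right_eq_self (fun u : ℝ => ENNReal.ofReal (Real.exp (-b * u ^ 2))) t]
  rw [ofReal_integral_eq_lintegral_ofReal (integrable_exp_neg_mul_sq hb)]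
  exact Filter.Eventually.of_forall fun u => (Real.exp_pos _).le

private theorem B5_decay (B s q : ℝ) (hB : 0 ≤ B) (hq : 0 < q) : ∃ T2 : ℝ, ∀ T : ℝ, T2 ≤ T →
    B * T ^ s * Real.exp (-(q * T ^ 2 / 200)) ≤ 1 := by
  have h1 := tendsto_rpow_mul_exp_neg_mul_atTop_nhds_zero s (q / 200) (by positivity)
  have h2 : Filter.Tendsto (fun x : ℝ => B * (x ^ s * Real.exp (-(q / 200) * x))) Filter.atTop
      (nhds (B * 0)) := h1.const_mul B
  rw [mul_zero] at h2
  have h3 := h2.eventually (ge_mem_nhds (show (0 : ℝ) < 1 by norm_num))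
  obtain ⟨T2, hT2⟩ := Filter.eventually_atTop.1 h3
  refine ⟨max T2 1, fun T hT => ?_⟩
  have hT1 : 1 ≤ T := (le_max_right _ _).trans hT
  refine le_trans ?_ (hT2 T ((le_max_left _ _).trans hT))
  rw [mul_assoc]
  refine mul_le_mul_of_nonneg_left ?_ hB
  refine mul_le_mul_of_nonneg_left ?_ (Real.rpow_nonneg (by linarith) _)
  refine Real.exp_le_exp.2 ?_
  have : T ≤ T ^ 2 := by nlinarith
  nlinarith

/-- the pointwise bound far away from the window -/
private theorem B5_far {N : ℕ} {lam C T t0 t : ℝ} {i : ℕ} {h : ℂ} (hl : 0 < lam) (hl1 : lam < 1)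
    (hC : 1 ≤ C) (hT : 40 ≤ T)
    (hg1 : ∀ s : ℂ, 1 / 2 ≤ s.re → s.re ≤ N + 3 → ‖PR N T i h s‖ ≤ C * T * (1 + |s.im|))
    (hg2 : ∀ k ≤ N, ∀ s : ℂ, 1 / 2 ≤ s.re → s.re ≤ N + 3 → ‖AR N T k s‖ ≤ C * T * (1 + |s.im|))
    (ht0 : t0 ∈ Set.Icc (5 * T / 4 - 1) (5 * T / 2 + 1))
    (ht : t ∉ Set.Icc (11 * T / 10) (29 * T / 10)) :
    B5_G N T lam i h t * Real.exp ((1 / 4 - (t - t0) ^ 2) * (2 + 2 * lam)) ≤
      (Real.exp ((2 + 2 * lam) / 4) * (4 * C) ^ (2 + 2 * lam) * Real.exp (2 + 2 * lam) *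
        T ^ (2 * (2 + 2 * lam)) * Real.exp (-((2 + 2 * lam) * T ^ 2 / 200))) *
        Real.exp (-((2 + 2 * lam) / 4) * (t - t0) ^ 2) := by
  have hT0 : 0 < T := by linarith
  set Q : ℝ := 2 + 2 * lam with hQ
  have hQ0 : 0 < Q := by positivity
  set s : ℂ := ((1 / 2 : ℝ) : ℂ) + t * I with hs
  have hre : s.re = 1 / 2 := by
    rw [hs]
    simp
  have him : s.im = t := by
    rw [hs]
    simp
  have hNn : (0 : ℝ) ≤ N := Nat.cast_nonneg N
  obtain ⟨h2, h3⟩ := ht0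
  have hu : T / 10 ≤ |t - t0| := by
    by_contra hcon
    push Not at hcon
    rw [abs_lt] at hcon
    refine ht ⟨?_, ?_⟩ <;> linarith [hcon.1, hcon.2]
  have hsq : T ^ 2 / 100 ≤ (t - t0) ^ 2 := by
    have h5 : (T / 10) ^ 2 ≤ |t - t0| ^ 2 := pow_le_pow_left₀ (by positivity) hu 2
    rw [sq_abs] at h5
    nlinarith
  have h6 : 1 + |t| ≤ 4 * T * (1 + |t - t0|) := by
    have h7 : |t| ≤ |t - t0| + |t0| := by
      have := abs_add_le (t - t0) t0
      rwa [sub_add_cancel] at this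
    have h8 : |t0| = t0 := abs_of_nonneg (by linarith)
    have h9 := abs_nonneg (t - t0)
    nlinarith
  have hbd : C * T * (1 + |t|) ≤ 4 * C * T ^ 2 * (1 + |t - t0|) := by
    calc C * T * (1 + |t|) ≤ C * T * (4 * T * (1 + |t - t0|)) :=
          mul_le_mul_of_nonneg_left h6 (by positivity)
      _ = _ := by ring
  set Y : ℝ := 4 * C * T ^ 2 * (1 + |t - t0|) with hY
  have hY0 : 0 < Y := by positivity
  have g1 : ‖PR N T i h s‖ ≤ Y := by
    have := hg1 s (by rw [hre]) (by rw [hre]; linarith)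
    rw [him] at this
    exact this.trans hbd
  have g2 : ∀ k ≤ N, ‖AR N T k s‖ ≤ Y := by
    intro k hk
    have := hg2 k hk s (by rw [hre]) (by rw [hre]; linarith)
    rw [him] at this
    exact this.trans hbd
  have g3 : B5_G N T lam i h t ≤ Y ^ Q := by
    have e1 : ‖PR N T i h s‖ ^ (2 * lam) ≤ Y ^ (2 * lam) :=
      Real.rpow_le_rpow (norm_nonneg _) g1 (by positivity)
    have e2 : ‖AR N T (N - 1 - i) s‖ ^ (2 * lam) ≤ Y ^ (2 * lam) :=
      Real.rpow_le_rpow (norm_nonneg _) (g2 _ (by omega)) (by positivity)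
    have e3 : ‖AR N T N s‖ ^ (2 * (1 - lam)) ≤ Y ^ (2 * (1 - lam)) :=
      Real.rpow_le_rpow (norm_nonneg _) (g2 _ le_rfl) (by linarith)
    have e4 : Y ^ Q = Y ^ (2 * lam) * Y ^ (2 * lam) * Y ^ (2 * (1 - lam)) := by
      rw [← Real.rpow_add hY0, ← Real.rpow_add hY0]
      congr 1
      rw [hQ]
      ring
    rw [e4]
    exact mul_le_mul (mul_le_mul e1 e2 (by positivity) (by positivity)) e3 (by positivity)
      (by positivity)
  have g4 : Y ^ Q ≤ (4 * C) ^ Q * T ^ (2 * Q) * Real.exp (Q + Q / 4 * (t - t0) ^ 2) := by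
    have e1 : Y ^ Q = (4 * C) ^ Q * T ^ (2 * Q) * (1 + |t - t0|) ^ Q := by
      rw [hY, Real.mul_rpow (by positivity) (by positivity), Real.mul_rpow (by positivity) (by positivity),
        ← Real.rpow_natCast T, ← Real.rpow_mul hT0.le]
      push_cast
      rfl
    rw [e1]
    refine mul_le_mul_of_nonneg_left ?_ (by positivity)
    have h14 : 1 + |t - t0| ≤ Real.exp |t - t0| := by
      have := Real.add_one_le_exp |t - t0|
      linarith
    refine (Real.rpow_le_rpow (by positivity) h14 hQ0.le).trans ?_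
    rw [← Real.exp_mul]
    refine Real.exp_le_exp.2 ?_
    set u := |t - t0| with hu'
    have hu2 : (t - t0) ^ 2 = u ^ 2 := by rw [hu', sq_abs]
    rw [hu2]
    nlinarith [mul_nonneg hQ0.le (sq_nonneg (u / 2 - 1))]
  have h18 : Real.exp ((1 / 4 - (t - t0) ^ 2) * Q) ≤
      Real.exp (Q / 4) * Real.exp (-(Q * T ^ 2 / 200)) * Real.exp (-(Q / 2) * (t - t0) ^ 2) := by
    rw [← Real.exp_add, ← Real.exp_add]
    refine Real.exp_le_exp.2 ?_
    nlinarith
  calc B5_G N T lam i h t * Real.exp ((1 / 4 - (t - t0) ^ 2) * Q)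
      ≤ ((4 * C) ^ Q * T ^ (2 * Q) * Real.exp (Q + Q / 4 * (t - t0) ^ 2)) *
        (Real.exp (Q / 4) * Real.exp (-(Q * T ^ 2 / 200)) * Real.exp (-(Q / 2) * (t - t0) ^ 2)) :=
        mul_le_mul (g3.trans g4) h18 (Real.exp_pos _).le (by positivity)
    _ = (Real.exp (Q / 4) * (4 * C) ^ Q * Real.exp Q *
        T ^ (2 * Q) * Real.exp (-(Q * T ^ 2 / 200))) *
        (Real.exp (Q / 4 * (t - t0) ^ 2) * Real.exp (-(Q / 2) * (t - t0) ^ 2)) := by
        rw [Real.exp_add]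
        ring
    _ = _ := by
        rw [← Real.exp_add]
        congr 2
        ring

/-- the pointwise bound near the window -/
private theorem B5_near {N : ℕ} {lam T t : ℝ} {i : ℕ} {h : ℂ} (hl : 0 < lam) (hl1 : lam < 1)
    (hT : 40 ≤ T) (hh : |h.re| ≤ 1 / 4) (hh' : |h.im| ≤ 1) (ht : 11 * T / 10 ≤ t) :
    B5_G N T lam i h t ≤ UU N T lam i h (1 / 2 + t * I) := by
  have h4 : (((1 / 2 : ℝ) : ℂ) + t * I) = 1 / 2 + t * I := by
    push_cast
    rfl
  unfold B5_G UU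
  rw [h4]
  set s : ℂ := 1 / 2 + t * I with hs
  have hre : s.re = 1 / 2 := by rw [hs]; simp
  have him : s.im = t := by rw [hs]; simp
  have hsh : s + h ≠ 1 := by
    intro hc
    have h5 := congrArg Complex.im hc
    rw [Complex.add_im, him, Complex.one_im] at h5
    have := abs_le.1 hh'
    linarith [this.1]
  have hs1 : s ≠ 1 := by
    intro hc
    have h5 := congrArg Complex.im hc
    rw [him, Complex.one_im] at h5
    linarith
  have hshre : 0 ≤ (s + h).re := by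
    rw [Complex.add_re, hre]
    have := abs_le.1 hh
    linarith [this.1]
  have e1 : ‖PR N T i h s‖ ≤ ‖PP N T i (s + h)‖ := by
    rw [PR_eq N T i hsh, norm_mul]
    calc _ ≤ 1 * ‖PP N T i (s + h)‖ :=
          mul_le_mul_of_nonneg_right (norm_quot_le hshre) (norm_nonneg _)
      _ = _ := one_mul _
  have e2 : ∀ k : ℕ, ‖AR N T k s‖ ≤ ‖AA N T k s‖ := by
    intro k
    rw [AR_eq N T k hs1, norm_mul]
    calc _ ≤ 1 * ‖AA N T k s‖ :=
          mul_le_mul_of_nonneg_right (norm_quot_le (by rw [hre]; norm_num)) (norm_nonneg _)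
      _ = _ := one_mul _
  have f1 := Real.rpow_le_rpow (norm_nonneg _) e1 (show (0 : ℝ) ≤ 2 * lam by positivity)
  have f2 := Real.rpow_le_rpow (norm_nonneg _) (e2 (N - 1 - i)) (show (0 : ℝ) ≤ 2 * lam by positivity)
  have f3 := Real.rpow_le_rpow (norm_nonneg _) (e2 N) (show (0 : ℝ) ≤ 2 * (1 - lam) by linarith)
  exact mul_le_mul (mul_le_mul f1 f2 (by positivity) (by positivity)) f3 (by positivity)
    (by positivity)

theorem left_line4 (N : ℕ) (hN : 2 ≤ N) (lam : ℝ) (h0 : 0 < lam) (h1 : lam < 1) : ∃ C T0 : ℝ, 1 ≤ C ∧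
    Real.exp 4 ≤ T0 ∧ ∀ T : ℝ, T0 ≤ T → ∀ i < N, ∀ h : ℂ, ‖h‖ ≤ 1 / Real.log T →
    ∫⁻ t0 in Set.Icc (5 * T / 4 - 1) (5 * T / 2 + 1), ∫⁻ t : ℝ,
      ENNReal.ofReal (VV N T lam i h t0 (((1 / 2 : ℝ) : ℂ) + t * I)) ≤
      ENNReal.ofReal (C * (T * Real.log T ^ (lam ^ 2))) := by
  obtain ⟨C1, T1, hC1, hT1, hA⟩ := Astar4 N hN lam h0 h1
  obtain ⟨Ca, hCa, hga⟩ := PR_growth N (by omega)
  obtain ⟨Cb, hCb, hgb⟩ := AR_growth N (by omega)
  set C : ℝ := max Ca Cb with hCdef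
  have hC : 1 ≤ C := hCa.trans (le_max_left _ _)
  have hCan : Ca ≤ C := le_max_left _ _
  have hCbn : Cb ≤ C := le_max_right _ _
  set Q : ℝ := 2 + 2 * lam with hQ
  have hq : 0 < Q := by positivity
  set K0 : ℝ := ∫ u : ℝ, Real.exp (-Q * u ^ 2) with hK0
  set K2 : ℝ := ∫ u : ℝ, Real.exp (-(Q / 4) * u ^ 2) with hK2
  have hK0n : 0 ≤ K0 := integral_nonneg fun u => (Real.exp_pos _).le
  have hK2n : 0 ≤ K2 := integral_nonneg fun u => (Real.exp_pos _).le
  set B : ℝ := Real.exp (Q / 4) * (4 * C) ^ Q * Real.exp Q * K2 * 2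
    with hB
  have hBn : 0 ≤ B := by positivity
  obtain ⟨T2, hT2⟩ := B5_decay B (2 * Q + 1) Q hBn hq
  refine ⟨Real.exp (Q / 4) * K0 * C1 + 1, max (max (max T1 40) T2) (Real.exp 4), ?_, ?_,
    fun T hT i hi h hh => ?_⟩
  · have : 0 ≤ Real.exp (Q / 4) * K0 * C1 := by positivity
    linarith
  · exact le_max_right _ _
  have hTT1 : T1 ≤ T := (((le_max_left _ _).trans (le_max_left _ _)).trans (le_max_left _ _)).trans hT
  have hT40 : 40 ≤ T := (((le_max_right _ _).trans (le_max_left _ _)).trans (le_max_left _ _)).trans hT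
  have hTT2 : T2 ≤ T := ((le_max_right _ _).trans (le_max_left _ _)).trans hT
  have hTe : Real.exp 4 ≤ T := (le_max_right _ _).trans hT
  have hT0 : 0 < T := by linarith
  have hlog4 : 4 ≤ Real.log T := by
    rw [Real.le_log_iff_exp_le hT0]
    exact hTe
  have hh4 : ‖h‖ ≤ 1 / 4 := hh.trans (one_div_le_one_div_of_le (by norm_num) hlog4)
  have hhre : |h.re| ≤ 1 / 4 := (Complex.abs_re_le_norm h).trans hh4
  have hhim : |h.im| ≤ 1 := (Complex.abs_im_le_norm h).trans (hh4.trans (by norm_num))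
  have hg1 : ∀ s : ℂ, 1 / 2 ≤ s.re → s.re ≤ N + 3 → ‖PR N T i h s‖ ≤ C * T * (1 + |s.im|) := by
    intro s hs1 hs2
    refine (hga T (by linarith) i hi h s hhre hhim hs1 hs2).trans ?_
    gcongr
  have hg2 : ∀ k ≤ N, ∀ s : ℂ, 1 / 2 ≤ s.re → s.re ≤ N + 3 →
      ‖AR N T k s‖ ≤ C * T * (1 + |s.im|) := by
    intro k hk s hs1 hs2
    refine (hgb T (by linarith) k hk s hs1 hs2).trans ?_
    gcongr
  have hgc : Continuous (B5_G N T lam i h) := B5_cont N T lam h0 h1 i hhre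
  simp only [B5_VV, ← hQ]
  -- split the inner integral
  have hsplit : ∀ t0 : ℝ, ∫⁻ t : ℝ, ENNReal.ofReal (B5_G N T lam i h t *
      Real.exp ((1 / 4 - (t - t0) ^ 2) * Q)) =
      (∫⁻ t in Set.Icc (11 * T / 10) (29 * T / 10), ENNReal.ofReal (B5_G N T lam i h t *
      Real.exp ((1 / 4 - (t - t0) ^ 2) * Q))) +
      ∫⁻ t in (Set.Icc (11 * T / 10) (29 * T / 10))ᶜ, ENNReal.ofReal (B5_G N T lam i h t *
      Real.exp ((1 / 4 - (t - t0) ^ 2) * Q)) := fun t0 =>
    (lintegral_add_compl _ measurableSet_Icc).symm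
  -- the part near the window
  have hjoint : Continuous fun p : ℝ × ℝ =>
      ENNReal.ofReal (B5_G N T lam i h p.2 *
      Real.exp ((1 / 4 - (p.2 - p.1) ^ 2) * Q)) := by
    refine ENNReal.continuous_ofReal.comp ?_
    exact (hgc.comp continuous_snd).mul (by fun_prop)
  have hnear : ∫⁻ t0 in Set.Icc (5 * T / 4 - 1) (5 * T / 2 + 1),
      ∫⁻ t in Set.Icc (11 * T / 10) (29 * T / 10),
      ENNReal.ofReal (B5_G N T lam i h t *
      Real.exp ((1 / 4 - (t - t0) ^ 2) * Q)) ≤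
      ENNReal.ofReal (Real.exp (Q / 4) * K0 * C1 * (T * Real.log T ^ (lam ^ 2))) := by
    rw [lintegral_lintegral_swap (hjoint.aemeasurable)]
    have h2 : ∀ t ∈ Set.Icc (11 * T / 10) (29 * T / 10),
        ∫⁻ t0 in Set.Icc (5 * T / 4 - 1) (5 * T / 2 + 1),
        ENNReal.ofReal (B5_G N T lam i h t *
        Real.exp ((1 / 4 - (t - t0) ^ 2) * Q)) ≤
        ENNReal.ofReal (Real.exp (Q / 4) * K0) *
          ENNReal.ofReal (UU N T lam i h (1 / 2 + t * I)) := by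
      intro t ht
      have h3 : B5_G N T lam i h t ≤ UU N T lam i h (1 / 2 + t * I) :=
        B5_near h0 h1 hT40 hhre hhim ht.1
      have h3n := B5_nonneg N T lam i h t
      calc ∫⁻ t0 in Set.Icc (5 * T / 4 - 1) (5 * T / 2 + 1),
          ENNReal.ofReal (B5_G N T lam i h t *
          Real.exp ((1 / 4 - (t - t0) ^ 2) * Q))
          ≤ ∫⁻ t0 : ℝ, ENNReal.ofReal (B5_G N T lam i h t *
          Real.exp ((1 / 4 - (t - t0) ^ 2) * Q)) := setLIntegral_le_lintegral _ _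
        _ = ∫⁻ t0 : ℝ, ENNReal.ofReal (Real.exp (Q / 4) * B5_G N T lam i h t) *
            ENNReal.ofReal (Real.exp (-Q * (t0 - t) ^ 2)) := by
            refine lintegral_congr fun t0 => ?_
            rw [← ENNReal.ofReal_mul (by positivity)]
            congr 1
            have : Real.exp ((1 / 4 - (t - t0) ^ 2) * Q) =
                Real.exp (Q / 4) * Real.exp (-Q * (t0 - t) ^ 2) := by
              rw [← Real.exp_add]
              congr 1
              ring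
            rw [this]
            ring
        _ = ENNReal.ofReal (Real.exp (Q / 4) * B5_G N T lam i h t) *
            ENNReal.ofReal K0 := by
            rw [lintegral_const_mul' _ _ ENNReal.ofReal_ne_top, B5_gauss hq]
        _ = ENNReal.ofReal (Real.exp (Q / 4) * K0) *
            ENNReal.ofReal (B5_G N T lam i h t) := by
            rw [← ENNReal.ofReal_mul (by positivity), ← ENNReal.ofReal_mul (by positivity)]
            congr 1
            ring
        _ ≤ _ := by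
            gcongr
    calc ∫⁻ t in Set.Icc (11 * T / 10) (29 * T / 10),
        ∫⁻ t0 in Set.Icc (5 * T / 4 - 1) (5 * T / 2 + 1),
        ENNReal.ofReal (B5_G N T lam i h t *
        Real.exp ((1 / 4 - (t - t0) ^ 2) * Q))
        ≤ ∫⁻ t in Set.Icc (11 * T / 10) (29 * T / 10), ENNReal.ofReal (Real.exp (Q / 4) * K0) *
          ENNReal.ofReal (UU N T lam i h (1 / 2 + t * I)) :=
          setLIntegral_mono' measurableSet_Icc h2
      _ = ENNReal.ofReal (Real.exp (Q / 4) * K0) * ∫⁻ t in Set.Icc (11 * T / 10) (29 * T / 10),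
          ENNReal.ofReal (UU N T lam i h (1 / 2 + t * I)) :=
          lintegral_const_mul' _ _ ENNReal.ofReal_ne_top
      _ ≤ ENNReal.ofReal (Real.exp (Q / 4) * K0) *
          ENNReal.ofReal (C1 * (T * Real.log T ^ (lam ^ 2))) := by
          gcongr
          exact hA T hTT1 i hi h hh
      _ = _ := by
          rw [← ENNReal.ofReal_mul (by positivity)]
          congr 1
          ring
  -- the part far away
  have hfar : ∫⁻ t0 in Set.Icc (5 * T / 4 - 1) (5 * T / 2 + 1),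
      ∫⁻ t in (Set.Icc (11 * T / 10) (29 * T / 10))ᶜ,
      ENNReal.ofReal (B5_G N T lam i h t *
      Real.exp ((1 / 4 - (t - t0) ^ 2) * Q)) ≤ ENNReal.ofReal 1 := by
    set A : ℝ := Real.exp (Q / 4) * (4 * C) ^ Q * Real.exp Q *
        T ^ (2 * Q) * Real.exp (-(Q * T ^ 2 / 200)) with hAdef
    have hAn : 0 ≤ A := by positivity
    have h2 : ∀ t0 ∈ Set.Icc (5 * T / 4 - 1) (5 * T / 2 + 1),
        ∫⁻ t in (Set.Icc (11 * T / 10) (29 * T / 10))ᶜ,
        ENNReal.ofReal (B5_G N T lam i h t *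
        Real.exp ((1 / 4 - (t - t0) ^ 2) * Q)) ≤ ENNReal.ofReal (A * K2) := by
      intro t0 ht0
      calc ∫⁻ t in (Set.Icc (11 * T / 10) (29 * T / 10))ᶜ,
          ENNReal.ofReal (B5_G N T lam i h t *
          Real.exp ((1 / 4 - (t - t0) ^ 2) * Q))
          ≤ ∫⁻ t in (Set.Icc (11 * T / 10) (29 * T / 10))ᶜ, ENNReal.ofReal A *
            ENNReal.ofReal (Real.exp (-(Q / 4) * (t - t0) ^ 2)) := by
            refine setLIntegral_mono' measurableSet_Icc.compl fun t ht => ?_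
            rw [← ENNReal.ofReal_mul hAn]
            exact ENNReal.ofReal_le_ofReal
              (B5_far h0 h1 hC hT40 hg1 hg2 ht0 ht)
        _ ≤ ∫⁻ t : ℝ, ENNReal.ofReal A *
            ENNReal.ofReal (Real.exp (-(Q / 4) * (t - t0) ^ 2)) := setLIntegral_le_lintegral _ _
        _ = ENNReal.ofReal (A * K2) := by
            rw [lintegral_const_mul' _ _ ENNReal.ofReal_ne_top, B5_gauss (by positivity),
              ← ENNReal.ofReal_mul hAn]
    calc ∫⁻ t0 in Set.Icc (5 * T / 4 - 1) (5 * T / 2 + 1),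
        ∫⁻ t in (Set.Icc (11 * T / 10) (29 * T / 10))ᶜ,
        ENNReal.ofReal (B5_G N T lam i h t *
        Real.exp ((1 / 4 - (t - t0) ^ 2) * Q))
        ≤ ∫⁻ _t0 in Set.Icc (5 * T / 4 - 1) (5 * T / 2 + 1), ENNReal.ofReal (A * K2) :=
          setLIntegral_mono' measurableSet_Icc h2
      _ = ENNReal.ofReal (A * K2) * volume (Set.Icc (5 * T / 4 - 1) (5 * T / 2 + 1)) :=
          setLIntegral_const _ _
      _ ≤ ENNReal.ofReal (A * K2) * ENNReal.ofReal (2 * T) := by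
          rw [Real.volume_Icc]
          gcongr
          linarith
      _ = ENNReal.ofReal (A * K2 * (2 * T)) := (ENNReal.ofReal_mul (by positivity)).symm
      _ ≤ ENNReal.ofReal 1 := by
          refine ENNReal.ofReal_le_ofReal ?_
          refine le_trans (le_of_eq ?_) (hT2 T hTT2)
          rw [hAdef, hB, Real.rpow_add hT0, Real.rpow_one]
          ring
  calc ∫⁻ t0 in Set.Icc (5 * T / 4 - 1) (5 * T / 2 + 1), ∫⁻ t : ℝ,
      ENNReal.ofReal (B5_G N T lam i h t *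
      Real.exp ((1 / 4 - (t - t0) ^ 2) * Q))
      = (∫⁻ t0 in Set.Icc (5 * T / 4 - 1) (5 * T / 2 + 1),
      ∫⁻ t in Set.Icc (11 * T / 10) (29 * T / 10),
      ENNReal.ofReal (B5_G N T lam i h t *
      Real.exp ((1 / 4 - (t - t0) ^ 2) * Q))) +
      ∫⁻ t0 in Set.Icc (5 * T / 4 - 1) (5 * T / 2 + 1),
      ∫⁻ t in (Set.Icc (11 * T / 10) (29 * T / 10))ᶜ,
      ENNReal.ofReal (B5_G N T lam i h t *
      Real.exp ((1 / 4 - (t - t0) ^ 2) * Q)) := by
        simp only [hsplit]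
        refine lintegral_add_left' ?_ _
        exact (hjoint.measurable.lintegral_prod_right'
          (ν := volume.restrict (Set.Icc (11 * T / 10) (29 * T / 10)))).aemeasurable
    _ ≤ ENNReal.ofReal (Real.exp (Q / 4) * K0 * C1 * (T * Real.log T ^ (lam ^ 2))) +
        ENNReal.ofReal 1 := add_le_add hnear hfar
    _ = ENNReal.ofReal (Real.exp (Q / 4) * K0 * C1 * (T * Real.log T ^ (lam ^ 2)) + 1) := by
        have hlog : 0 ≤ Real.log T := Real.log_nonneg (by linarith)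
        exact (ENNReal.ofReal_add (by positivity) zero_le_one).symm
    _ ≤ _ := by
        refine ENNReal.ofReal_le_ofReal ?_
        have h3 : (1 : ℝ) ≤ Real.log T ^ (lam ^ 2) := Real.one_le_rpow (by linarith) (by positivity)
        have h4 : (1 : ℝ) ≤ T * Real.log T ^ (lam ^ 2) := by nlinarith
        nlinarith

end Pool.Agent.UV
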