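import Pool.Agent.Lib.MP_69b2e4_nt.UV.B5
import Pool.Agent.Lib.MP_69b2e4_nt.Mg.G014
import Pool.Agent.Lib.MP_69b2e4_nt.Mg.G010

/-! TASK B6. The mean values off the critical line. (Template: UH/B6.lean.) `R = N+3`, `Q = 2+2lam`, `I = [5T/4-1, 5T/2+1]`, `|I| ≤ 2T`, `L = log T`, `θ = (σ-1/2)/(R-1/2) = (σ-1/2)/(N+5/2)`, `η = et N`, `k = N-1-i`.
(1) For every `t0` `gabriel3` applies to `PR·E`, `AR_k·E`, `AR_N·E` (`E = exp((s-i t0)²)`) on `1/2 ≤ Re s ≤ R` with exponents `2lam, 2lam, 2(1-lam)`: analytic (`PR_diff`, `AR_diff`), bound `K e^{-|t|}` (`PR_growth`, `AR_growth`, Gaussian; `K` may depend on everything).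
(2) `Re s = R`: `‖PR‖ ≤ ‖PP(s+h)‖ ≤ 4 T^{-i(N-1)η}`, `‖AR_k‖ ≤ ‖AA_k‖ ≤ 4 T^{-k(N-1)η}`, `‖AR_N‖ ≤ 4 T^{-N(N-1)η}` (`PR_eq`, `AR_eq`, `norm_quot_le`, `PP_far`, `AA_far`), so (`i + k = N-1`) `v ≤ 4^Q ‖E‖^Q T^{-(N-1)η(2lam(N-1) + 2(1-lam)N)}`, and `2lam(N-1) + 2(1-lam)N ≥ 2(N-1)`,
`2η = 1/(N+1)`: exponent `≤ -(N-1)²/(N+1)`. So `n_{t0}(R) ≤ K1 T^{-(N-1)²/(N+1)}` for every `t0`.
(3) `∫_I n_{t0}(σ) dt0 ≤ (K1 T^{-(N-1)²/(N+1)})^θ ∫_I n_{t0}(1/2)^{1-θ} dt0 ≤ K1' T^{-ka N (σ-1/2)} (2T)^θ (C T L^{lam²})^{1-θ}` (Hölder, `left_line4`; `ka N = (N-1)²/((N+1)(N+5/2))`), and `(2T)^θ (C T L^{lam²})^{1-θ} ≤ C' T L^{lam²}` (`L ≥ 1`).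
(4) Lower bound: `∫_I n_{t0}(σ) dt0 ≥ c ∫_I UU(σ+it) dt`: `‖PR‖ ≥ ‖PP(s+h)‖/(N+6)`, `‖AR‖ ≥ ‖AA‖/(N+6)` for `t ∈ I` (`quot_ge` at `s+h` and `s`), `∫_I ‖E(σ+it)‖^Q dt0 ≥ e^{-Q}` for `t ∈ I` (one of `[t-1,t]`, `[t,t+1]` is contained in `I`; `‖E‖ = e^{σ² - (t-t0)²} ≥ e^{-1}` there). -/

set_option autoImplicit false

namespace Pool.Agent.UV

open Complex MeasureTheory Finset Pool.Agent.GH Pool.Agent.UH
open scoped Real ComplexConjugate ENNReal

private theorem B6_norm_exp (s : ℂ) (t0 : ℝ) :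
    ‖cexp ((s - t0 * I) ^ 2)‖ = Real.exp (s.re ^ 2 - (s.im - t0) ^ 2) := by
  rw [Complex.norm_exp]
  congr 1
  rw [pow_two, Complex.mul_re]
  simp
  ring

private theorem B6_VV (N : ℕ) (T lam : ℝ) (i : ℕ) (h : ℂ) (t0 : ℝ) (s : ℂ) :
    VV N T lam i h t0 s = (‖PR N T i h s‖ ^ (2 * lam) * ‖AR N T (N - 1 - i) s‖ ^ (2 * lam) *
      ‖AR N T N s‖ ^ (2 * (1 - lam))) * Real.exp ((2 + 2 * lam) * (s.re ^ 2 - (s.im - t0) ^ 2)) := by
  unfold VV
  rw [norm_mul, norm_mul, norm_mul, B6_norm_exp, Real.mul_rpow (norm_nonneg _) (Real.exp_nonneg _),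
    Real.mul_rpow (norm_nonneg _) (Real.exp_nonneg _),
    Real.mul_rpow (norm_nonneg _) (Real.exp_nonneg _), ← Real.exp_mul, ← Real.exp_mul]
  have e : Real.exp ((2 + 2 * lam) * (s.re ^ 2 - (s.im - t0) ^ 2)) =
      Real.exp ((s.re ^ 2 - (s.im - t0) ^ 2) * (2 * lam)) *
        Real.exp ((s.re ^ 2 - (s.im - t0) ^ 2) * (2 * lam)) *
        Real.exp ((s.re ^ 2 - (s.im - t0) ^ 2) * (2 * (1 - lam))) := by
    rw [← Real.exp_add, ← Real.exp_add]
    congr 1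
    ring
  rw [e]
  ring

private theorem B6_an {F : ℂ → ℂ} (hF : DifferentiableOn ℂ F {s : ℂ | 0 < s.re}) (t0 : ℝ) {s : ℂ}
    (hs : 0 < s.re) : AnalyticAt ℂ (fun s => F s * cexp ((s - t0 * I) ^ 2)) s := by
  have hopen : IsOpen {s : ℂ | 0 < s.re} := isOpen_lt continuous_const Complex.continuous_re
  have h1 : AnalyticAt ℂ F s := hF.analyticAt (hopen.mem_nhds hs)
  have h2 : AnalyticAt ℂ (fun s : ℂ => cexp ((s - t0 * I) ^ 2)) s := by
    apply Differentiable.analyticAt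
    fun_prop
  exact h1.mul h2

private theorem B6_exp_bound (N : ℕ) (t0 x y : ℝ) (h1 : 1 / 2 ≤ x) (h2 : x ≤ N + 3) :
    (1 + |y|) * Real.exp (x ^ 2 - (y - t0) ^ 2) ≤
      Real.exp (((N : ℝ) + 3) ^ 2 + 1 + 2 * |t0|) * Real.exp (-|y|) := by
  have h3 : 1 + |y| ≤ Real.exp |y| := by
    have := Real.add_one_le_exp |y|
    linarith
  calc (1 + |y|) * Real.exp (x ^ 2 - (y - t0) ^ 2) ≤
      Real.exp |y| * Real.exp (x ^ 2 - (y - t0) ^ 2) :=
        mul_le_mul_of_nonneg_right h3 (Real.exp_nonneg _)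
    _ ≤ _ := by
      rw [← Real.exp_add, ← Real.exp_add]
      apply Real.exp_le_exp.2
      have h6 : |y| ≤ |y - t0| + |t0| := by
        have := abs_add_le (y - t0) t0
        rwa [sub_add_cancel] at this
      have h7 : 2 * |y - t0| ≤ 1 + (y - t0) ^ 2 := by
        have := sq_nonneg (|y - t0| - 1)
        rw [← sq_abs (y - t0)]
        nlinarith
      have h8 : x ^ 2 ≤ ((N : ℝ) + 3) ^ 2 := by nlinarith
      linarith

private theorem B6_bound (N : ℕ) (hN : 2 ≤ N) (T t0 : ℝ) (hT : 1 ≤ T) {i : ℕ} (hi : i < N) {h : ℂ}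
    (hr : |h.re| ≤ 1 / 4) (hm : |h.im| ≤ 1) : ∃ K : ℝ, ∀ s : ℂ, 1 / 2 ≤ s.re → s.re ≤ (N : ℝ) + 3 →
    ‖PR N T i h s * cexp ((s - t0 * I) ^ 2)‖ ≤ K * Real.exp (-|s.im|) ∧
    ‖AR N T (N - 1 - i) s * cexp ((s - t0 * I) ^ 2)‖ ≤ K * Real.exp (-|s.im|) ∧
    ‖AR N T N s * cexp ((s - t0 * I) ^ 2)‖ ≤ K * Real.exp (-|s.im|) := by
  obtain ⟨C1, hC1, hP⟩ := PR_growth N (by omega)
  obtain ⟨C2, hC2, hA⟩ := AR_growth N (by omega)
  have hM0 : 0 ≤ max C1 C2 := by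
    have := le_max_left C1 C2
    linarith
  refine ⟨max C1 C2 * T * Real.exp (((N : ℝ) + 3) ^ 2 + 1 + 2 * |t0|), fun s h1 h2 => ?_⟩
  have key : ∀ z : ℂ, ∀ C : ℝ, C ≤ max C1 C2 → ‖z‖ ≤ C * T * (1 + |s.im|) →
      ‖z * cexp ((s - t0 * I) ^ 2)‖ ≤
        max C1 C2 * T * Real.exp (((N : ℝ) + 3) ^ 2 + 1 + 2 * |t0|) * Real.exp (-|s.im|) := by
    intro z C hC hz
    rw [norm_mul, B6_norm_exp]
    have hx : (0 : ℝ) ≤ 1 + |s.im| := by positivity
    have hT0 : 0 ≤ T := by linarith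
    calc ‖z‖ * Real.exp (s.re ^ 2 - (s.im - t0) ^ 2)
        ≤ (max C1 C2 * T * (1 + |s.im|)) * Real.exp (s.re ^ 2 - (s.im - t0) ^ 2) := by
          refine mul_le_mul_of_nonneg_right (hz.trans ?_) (Real.exp_nonneg _)
          exact mul_le_mul_of_nonneg_right (mul_le_mul_of_nonneg_right hC hT0) hx
      _ = (max C1 C2 * T) * ((1 + |s.im|) * Real.exp (s.re ^ 2 - (s.im - t0) ^ 2)) := by ring
      _ ≤ (max C1 C2 * T) *
          (Real.exp (((N : ℝ) + 3) ^ 2 + 1 + 2 * |t0|) * Real.exp (-|s.im|)) :=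
          mul_le_mul_of_nonneg_left (B6_exp_bound N t0 s.re s.im h1 h2) (mul_nonneg hM0 hT0)
      _ = _ := by ring
  exact ⟨key _ C1 (le_max_left _ _) (hP T hT i hi h s hr hm h1 h2),
    key _ C2 (le_max_right _ _) (hA T hT _ (by omega) s h1 h2),
    key _ C2 (le_max_right _ _) (hA T hT _ le_rfl s h1 h2)⟩

private theorem B6_gauss {q c : ℝ} (t0 : ℝ) (hq : 0 < q) (hc : 0 ≤ c) :
    ∫⁻ t : ℝ, ENNReal.ofReal (c * Real.exp (-q * (t - t0) ^ 2)) = ENNReal.ofReal (c * √(π / q)) := by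
  have h1 : ∫⁻ t : ℝ, ENNReal.ofReal (c * Real.exp (-q * (t - t0) ^ 2)) =
      ∫⁻ t : ℝ, ENNReal.ofReal (c * Real.exp (-q * t ^ 2)) :=
    lintegral_sub_right_eq_self (fun t : ℝ => ENNReal.ofReal (c * Real.exp (-q * t ^ 2))) t0
  rw [h1, ← ofReal_integral_eq_lintegral_ofReal ((integrable_exp_neg_mul_sq hq).const_mul c)
    (Filter.Eventually.of_forall fun t => by positivity), integral_const_mul, integral_gaussian]

private theorem B6_right (N : ℕ) (hN : 2 ≤ N) (lam : ℝ) (h0 : 0 < lam) (hl1 : lam < 1) {T : ℝ}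
    (hT : Real.exp 1 ≤ T) {i : ℕ} (hi : i < N) {h : ℂ} (hr : |h.re| ≤ 1 / 4) (t0 : ℝ) :
    ∫⁻ t : ℝ, ENNReal.ofReal (VV N T lam i h t0 ((((N : ℝ) + 3 : ℝ) : ℂ) + t * I)) ≤
      ENNReal.ofReal ((4 : ℝ) ^ (2 + 2 * lam) * Real.exp ((2 + 2 * lam) * ((N : ℝ) + 3) ^ 2) *
        √(π / (2 + 2 * lam)) * T ^ (-(((N : ℝ) - 1) ^ 2 / (N + 1)))) := by
  have hq : 0 < 2 + 2 * lam := by linarith
  have hT0 : 0 < T := (Real.exp_pos _).trans_le hT
  have hT1 : 1 ≤ T := (Real.one_le_exp (by norm_num)).trans hT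
  have hN' : (2 : ℝ) ≤ N := by exact_mod_cast hN
  set c : ℝ := ((4 : ℝ) ^ (2 + 2 * lam) * Real.exp ((2 + 2 * lam) * ((N : ℝ) + 3) ^ 2)) *
    T ^ (-(((N : ℝ) - 1) ^ 2 / (N + 1))) with hc
  have hc0 : 0 ≤ c := by positivity
  have habs := abs_le.1 hr
  have h1 : ∀ t : ℝ, VV N T lam i h t0 ((((N : ℝ) + 3 : ℝ) : ℂ) + t * I) ≤
      c * Real.exp (-(2 + 2 * lam) * (t - t0) ^ 2) := by
    intro t
    obtain ⟨s, hs⟩ : ∃ s : ℂ, s = (((N : ℝ) + 3 : ℝ) : ℂ) + t * I := ⟨_, rfl⟩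
    rw [← hs]
    have hre : s.re = N + 3 := by rw [hs]; simp
    have him : s.im = t := by rw [hs]; simp
    have hhr : |h.re| ≤ 1 / 2 := by linarith
    have hPR : ‖PR N T i h s‖ ≤ 4 * T ^ (-((i : ℝ) * (N - 1) * et N)) := by
      have hne : s + h ≠ 1 := by
        intro he
        have h3 := congrArg Complex.re he
        rw [Complex.add_re, hre, Complex.one_re] at h3
        linarith
      rw [PR_eq N T i hne, norm_mul]
      have h4 := norm_quot_le (s := s + h) (by rw [Complex.add_re, hre]; linarith)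
      calc _ ≤ 1 * ‖PP N T i (s + h)‖ := mul_le_mul_of_nonneg_right h4 (norm_nonneg _)
        _ ≤ _ := by rw [one_mul]; exact PP_far N hN hT hi hre hhr
    have hAR : ∀ k ≤ N, ‖AR N T k s‖ ≤ 4 * T ^ (-((k : ℝ) * (N - 1) * et N)) := by
      intro k hk
      have hne : s ≠ 1 := by
        intro he
        have h3 := congrArg Complex.re he
        rw [hre, Complex.one_re] at h3
        linarith
      rw [AR_eq N T k hne, norm_mul]
      have h4 := norm_quot_le (s := s) (by rw [hre]; linarith)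
      calc _ ≤ 1 * ‖AA N T k s‖ := mul_le_mul_of_nonneg_right h4 (norm_nonneg _)
        _ ≤ _ := by rw [one_mul]; exact AA_far N hN hT hk hre
    have hprod : ‖PR N T i h s‖ ^ (2 * lam) * ‖AR N T (N - 1 - i) s‖ ^ (2 * lam) *
        ‖AR N T N s‖ ^ (2 * (1 - lam)) ≤
        (4 : ℝ) ^ (2 + 2 * lam) * T ^ (-(((N : ℝ) - 1) ^ 2 / (N + 1))) := by
      have e : ∀ (x p : ℝ), (4 * T ^ x) ^ p = (4 : ℝ) ^ p * T ^ (x * p) := by
        intro x p
        rw [Real.mul_rpow (by norm_num) (by positivity), ← Real.rpow_mul hT0.le]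
      have f1 := Real.rpow_le_rpow (norm_nonneg _) hPR (show 0 ≤ 2 * lam by linarith)
      have f2 := Real.rpow_le_rpow (norm_nonneg _) (hAR (N - 1 - i) (by omega))
        (show 0 ≤ 2 * lam by linarith)
      have f3 := Real.rpow_le_rpow (norm_nonneg _) (hAR N le_rfl)
        (show 0 ≤ 2 * (1 - lam) by linarith)
      rw [e] at f1 f2 f3
      refine (mul_le_mul (mul_le_mul f1 f2 (by positivity) (by positivity)) f3 (by positivity)
        (by positivity)).trans ?_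
      have e4 : (4 : ℝ) ^ (2 + 2 * lam) = 4 ^ (2 * lam) * 4 ^ (2 * lam) * 4 ^ (2 * (1 - lam)) := by
        rw [← Real.rpow_add (by norm_num), ← Real.rpow_add (by norm_num)]
        congr 1
        ring
      have eT : T ^ (-((i : ℝ) * (N - 1) * et N) * (2 * lam)) *
          T ^ (-(((N - 1 - i : ℕ) : ℝ) * (N - 1) * et N) * (2 * lam)) *
          T ^ (-((N : ℝ) * (N - 1) * et N) * (2 * (1 - lam))) ≤
          T ^ (-(((N : ℝ) - 1) ^ 2 / (N + 1))) := by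
        rw [← Real.rpow_add hT0, ← Real.rpow_add hT0]
        apply Real.rpow_le_rpow_of_exponent_le hT1
        have hk : ((N - 1 - i : ℕ) : ℝ) = N - 1 - i := by
          rw [Nat.cast_sub (by omega), Nat.cast_sub (by omega)]
          norm_num
        rw [hk]
        unfold et
        have e5 : -((i : ℝ) * (N - 1) * (1 / (2 * (N + 1)))) * (2 * lam) +
            -(((N : ℝ) - 1 - i) * (N - 1) * (1 / (2 * (N + 1)))) * (2 * lam) +
            -((N : ℝ) * (N - 1) * (1 / (2 * (N + 1)))) * (2 * (1 - lam)) =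
            -(((N : ℝ) - 1) * (N - lam) / (N + 1)) := by
          field_simp
          ring
        rw [e5]
        apply neg_le_neg
        apply div_le_div_of_nonneg_right _ (by linarith)
        nlinarith
      calc _ = (4 ^ (2 * lam) * 4 ^ (2 * lam) * 4 ^ (2 * (1 - lam))) *
          (T ^ (-((i : ℝ) * (N - 1) * et N) * (2 * lam)) *
          T ^ (-(((N - 1 - i : ℕ) : ℝ) * (N - 1) * et N) * (2 * lam)) *
          T ^ (-((N : ℝ) * (N - 1) * et N) * (2 * (1 - lam)))) := by ring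
        _ ≤ _ := by
          rw [← e4]
          exact mul_le_mul_of_nonneg_left eT (by positivity)
    rw [B6_VV, hre, him]
    have h6 : Real.exp ((2 + 2 * lam) * (((N : ℝ) + 3) ^ 2 - (t - t0) ^ 2)) =
        Real.exp ((2 + 2 * lam) * ((N : ℝ) + 3) ^ 2) * Real.exp (-(2 + 2 * lam) * (t - t0) ^ 2) := by
      rw [← Real.exp_add]
      congr 1
      ring
    rw [h6, hc]
    calc _ ≤ ((4 : ℝ) ^ (2 + 2 * lam) * T ^ (-(((N : ℝ) - 1) ^ 2 / (N + 1)))) *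
          (Real.exp ((2 + 2 * lam) * ((N : ℝ) + 3) ^ 2) *
            Real.exp (-(2 + 2 * lam) * (t - t0) ^ 2)) :=
          mul_le_mul_of_nonneg_right hprod (by positivity)
      _ = _ := by ring
  refine (lintegral_mono fun t => ENNReal.ofReal_le_ofReal (h1 t)).trans ?_
  rw [B6_gauss t0 hq hc0]
  apply ENNReal.ofReal_le_ofReal
  apply le_of_eq
  rw [hc]
  ring

private theorem B6_contF {F : ℂ → ℂ} (hF : DifferentiableOn ℂ F {s : ℂ | 0 < s.re}) {σ : ℝ}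
    (hσ : 0 < σ) :
    Continuous (fun p : ℝ × ℝ => F ((σ : ℂ) + p.2 * I) *
      cexp (((σ : ℂ) + p.2 * I - p.1 * I) ^ 2)) := by
  have h1 : Continuous (fun p : ℝ × ℝ => F ((σ : ℂ) + p.2 * I)) := by
    refine hF.continuousOn.comp_continuous (by fun_prop) fun p => ?_
    simpa using hσ
  exact h1.mul (by fun_prop)

private theorem B6_meas (N : ℕ) (T lam : ℝ) (i : ℕ) {h : ℂ} (hr : |h.re| ≤ 1 / 4) {σ : ℝ}
    (hσ : 0 < σ) (h0 : 0 < lam) (h1 : lam < 1) :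
    Measurable (fun p : ℝ × ℝ => ENNReal.ofReal (VV N T lam i h p.1 ((σ : ℂ) + p.2 * I))) := by
  unfold VV
  have c1 := B6_contF (PR_diff N T i hr) hσ
  have c2 := B6_contF (AR_diff N T (N - 1 - i)) hσ
  have c3 := B6_contF (AR_diff N T N) hσ
  exact (((c1.norm.rpow_const fun _ => Or.inr (by linarith)).mul
    (c2.norm.rpow_const fun _ => Or.inr (by linarith))).mul
    (c3.norm.rpow_const fun _ => Or.inr (by linarith))).measurable.ennreal_ofReal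

private theorem B6_holder {f : ℝ → ℝ≥0∞} (hf : Measurable f) (s : Set ℝ) {η θ : ℝ} (h0 : 0 ≤ η)
    (h1 : 0 ≤ θ) (h2 : θ + η = 1) :
    ∫⁻ x in s, f x ^ θ ≤ (∫⁻ x in s, f x) ^ θ * (volume s) ^ η := by
  have := ENNReal.lintegral_mul_norm_pow_le (μ := volume.restrict s) hf.aemeasurable
    (aemeasurable_const (b := (1 : ℝ≥0∞))) h1 h0 h2
  simpa using this

private theorem B6_upper (N : ℕ) (hN : 2 ≤ N) (lam : ℝ) (h0 : 0 < lam) (hl1 : lam < 1) {T : ℝ}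
    (hT : Real.exp 1 ≤ T) {i : ℕ} (hi : i < N) {h : ℂ} (hr : |h.re| ≤ 1 / 4) (hm : |h.im| ≤ 1)
    {σ : ℝ} (h1 : 1 / 2 ≤ σ) (h2 : σ ≤ N + 3) (s : Set ℝ) :
    ∫⁻ t0 in s, ∫⁻ t : ℝ, ENNReal.ofReal (VV N T lam i h t0 ((σ : ℂ) + t * I)) ≤
      ((∫⁻ t0 in s, ∫⁻ t : ℝ,
        ENNReal.ofReal (VV N T lam i h t0 (((1 / 2 : ℝ) : ℂ) + t * I))) ^
          (((N : ℝ) + 3 - σ) / ((N : ℝ) + 3 - 1 / 2)) *
            (volume s) ^ ((σ - 1 / 2) / ((N : ℝ) + 3 - 1 / 2))) *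
      ENNReal.ofReal ((4 : ℝ) ^ (2 + 2 * lam) * Real.exp ((2 + 2 * lam) * ((N : ℝ) + 3) ^ 2) *
        √(π / (2 + 2 * lam)) * T ^ (-(((N : ℝ) - 1) ^ 2 / (N + 1)))) ^
          ((σ - 1 / 2) / ((N : ℝ) + 3 - 1 / 2)) := by
  have hT1 : 1 ≤ T := (Real.one_le_exp (by norm_num)).trans hT
  have hN' : (2 : ℝ) ≤ N := by exact_mod_cast hN
  have hden : (0 : ℝ) < (N : ℝ) + 3 - 1 / 2 := by linarith
  have hη : 0 ≤ (σ - 1 / 2) / ((N : ℝ) + 3 - 1 / 2) := div_nonneg (by linarith) hden.le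
  have hθ : 0 ≤ ((N : ℝ) + 3 - σ) / ((N : ℝ) + 3 - 1 / 2) := div_nonneg (by linarith) hden.le
  have hθη : ((N : ℝ) + 3 - σ) / ((N : ℝ) + 3 - 1 / 2) + (σ - 1 / 2) / ((N : ℝ) + 3 - 1 / 2) = 1 := by
    rw [← add_div, div_eq_one_iff_eq hden.ne']
    ring
  set R : ℝ≥0∞ := ENNReal.ofReal ((4 : ℝ) ^ (2 + 2 * lam) *
        Real.exp ((2 + 2 * lam) * ((N : ℝ) + 3) ^ 2) *
        √(π / (2 + 2 * lam)) * T ^ (-(((N : ℝ) - 1) ^ 2 / (N + 1)))) with hR
  have hpt : ∀ t0 : ℝ, ∫⁻ t : ℝ, ENNReal.ofReal (VV N T lam i h t0 ((σ : ℂ) + t * I)) ≤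
      (∫⁻ t : ℝ, ENNReal.ofReal (VV N T lam i h t0 (((1 / 2 : ℝ) : ℂ) + t * I))) ^
        (((N : ℝ) + 3 - σ) / ((N : ℝ) + 3 - 1 / 2)) * R ^ ((σ - 1 / 2) / ((N : ℝ) + 3 - 1 / 2)) := by
    intro t0
    obtain ⟨K, hK⟩ := B6_bound N hN T t0 hT1 hi hr hm
    refine (gabriel3 (f := fun s => PR N T i h s * cexp ((s - t0 * I) ^ 2))
      (g := fun s => AR N T (N - 1 - i) s * cexp ((s - t0 * I) ^ 2))
      (k := fun s => AR N T N s * cexp ((s - t0 * I) ^ 2))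
      (A := 1 / 2) (B := (N : ℝ) + 3) (p := 2 * lam) (q := 2 * lam) (r := 2 * (1 - lam)) (K := K)
      (by linarith) (by linarith) (by linarith) (by linarith)
      (fun s hs _ => ⟨B6_an (PR_diff N T i hr) t0 (by linarith),
        B6_an (AR_diff N T _) t0 (by linarith), B6_an (AR_diff N T _) t0 (by linarith)⟩)
      (fun s hs hs' => hK s hs hs') h1 h2).trans ?_
    refine mul_le_mul_right (ENNReal.rpow_le_rpow ?_ hη) _
    exact B6_right N hN lam h0 hl1 hT hi hr t0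
  refine (lintegral_mono fun t0 => hpt t0).trans ?_
  have hRtop : R ^ ((σ - 1 / 2) / ((N : ℝ) + 3 - 1 / 2)) ≠ ∞ :=
    ENNReal.rpow_ne_top_of_nonneg hη ENNReal.ofReal_ne_top
  rw [lintegral_mul_const' _ _ hRtop]
  refine mul_le_mul_left ?_ _
  refine B6_holder ?_ s hη hθ hθη
  exact (B6_meas N T lam i hr (by norm_num) h0 hl1).lintegral_prod_right'

private theorem B6_lower_pt (N : ℕ) (lam : ℝ) (h0 : 0 < lam) (hl1 : lam < 1) {T : ℝ}
    (hT : Real.exp 1 ≤ T) {i : ℕ} {h : ℂ} (hr : |h.re| ≤ 1 / 4) (hm : |h.im| ≤ 1 / 4)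
    {σ : ℝ} (h1 : 1 / 2 ≤ σ) (h2 : σ ≤ N + 3) {t : ℝ}
    (ht : t ∈ Set.Icc (5 * T / 4 - 1) (5 * T / 2 + 1)) :
    ENNReal.ofReal ((1 / ((N : ℝ) + 6) * Real.exp (-1)) ^ (2 + 2 * lam)) *
      ENNReal.ofReal (UU N T lam i h (σ + t * I)) ≤
    ∫⁻ t0 in Set.Icc (5 * T / 4 - 1) (5 * T / 2 + 1),
      ENNReal.ofReal (VV N T lam i h t0 ((σ : ℂ) + t * I)) := by
  have he : (2.7182818283 : ℝ) < Real.exp 1 := Real.exp_one_gt_d9
  have hT2 : (2.7 : ℝ) ≤ T := by linarith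
  obtain ⟨s, hs⟩ : ∃ s : ℂ, s = (σ : ℂ) + t * I := ⟨_, rfl⟩
  rw [← hs]
  have hre : s.re = σ := by rw [hs]; simp
  have him : s.im = t := by rw [hs]; simp
  have habs := abs_le.1 hr
  have habs' := abs_le.1 hm
  have ht1 : 2 ≤ t := by
    have := ht.1
    linarith
  have hN0 : (0 : ℝ) ≤ N := Nat.cast_nonneg N
  have hPR : 1 / ((N : ℝ) + 6) * ‖PP N T i (s + h)‖ ≤ ‖PR N T i h s‖ := by
    have hne : s + h ≠ 1 := by
      intro he
      have h3 := congrArg Complex.im he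
      rw [Complex.add_im, him, Complex.one_im] at h3
      linarith
    rw [PR_eq N T i hne, norm_mul]
    refine mul_le_mul_of_nonneg_right ?_ (norm_nonneg _)
    exact quot_ge N (by rw [Complex.add_re, hre]; linarith) (by rw [Complex.add_re, hre]; linarith)
      (by rw [Complex.add_im, him]; linarith)
  have hAR : ∀ k, 1 / ((N : ℝ) + 6) * ‖AA N T k s‖ ≤ ‖AR N T k s‖ := by
    intro k
    have hne : s ≠ 1 := by
      intro he
      have h3 := congrArg Complex.im he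
      rw [him, Complex.one_im] at h3
      linarith
    rw [AR_eq N T k hne, norm_mul]
    refine mul_le_mul_of_nonneg_right ?_ (norm_nonneg _)
    exact quot_ge N (by rw [hre]; linarith) (by rw [hre]; linarith) (by rw [him]; linarith)
  -- an interval of length one
  obtain ⟨u, hu, hJ⟩ : ∃ u : ℝ, (∀ x ∈ Set.Icc u (u + 1), (t - x) ^ 2 ≤ 1) ∧
      Set.Icc u (u + 1) ⊆ Set.Icc (5 * T / 4 - 1) (5 * T / 2 + 1) := by
    rcases le_total (t + 1) (5 * T / 2 + 1) with h | h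
    · refine ⟨t, fun x hx => ?_, Set.Icc_subset_Icc ht.1 h⟩
      have h3 := hx.1
      have h4 := hx.2
      nlinarith
    · refine ⟨t - 1, fun x hx => ?_, Set.Icc_subset_Icc (by linarith) ?_⟩
      · have h3 := hx.1
        have h4 := hx.2
        nlinarith
      · have := ht.2
        linarith
  have hUU : 0 ≤ UU N T lam i h s := by
    unfold UU
    positivity
  calc ENNReal.ofReal ((1 / ((N : ℝ) + 6) * Real.exp (-1)) ^ (2 + 2 * lam)) *
      ENNReal.ofReal (UU N T lam i h s)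
      = ∫⁻ _ in Set.Icc u (u + 1), ENNReal.ofReal ((1 / ((N : ℝ) + 6) * Real.exp (-1)) ^ (2 + 2 * lam)) *
        ENNReal.ofReal (UU N T lam i h s) := by
        rw [setLIntegral_const, Real.volume_Icc, add_sub_cancel_left, ENNReal.ofReal_one, mul_one]
    _ ≤ ∫⁻ t0 in Set.Icc u (u + 1), ENNReal.ofReal (VV N T lam i h t0 s) := by
        refine setLIntegral_mono' measurableSet_Icc fun x hx => ?_
        rw [← ENNReal.ofReal_mul (by positivity)]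
        apply ENNReal.ofReal_le_ofReal
        rw [B6_VV, hre, him]
        have h5 : Real.exp (-(2 + 2 * lam)) ≤ Real.exp ((2 + 2 * lam) * (σ ^ 2 - (t - x) ^ 2)) := by
          apply Real.exp_le_exp.2
          have h6 := hu x hx
          have h7 : -1 ≤ σ ^ 2 - (t - x) ^ 2 := by nlinarith [sq_nonneg σ]
          nlinarith
        have hc0 : (0 : ℝ) ≤ 1 / ((N : ℝ) + 6) := by positivity
        have e1 : (1 / ((N : ℝ) + 6) * Real.exp (-1)) ^ (2 + 2 * lam) =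
            ((1 / ((N : ℝ) + 6)) ^ (2 * lam) * (1 / ((N : ℝ) + 6)) ^ (2 * lam) *
              (1 / ((N : ℝ) + 6)) ^ (2 * (1 - lam))) * Real.exp (-(2 + 2 * lam)) := by
          rw [Real.mul_rpow hc0 (Real.exp_nonneg _), ← Real.exp_mul]
          congr 1
          · have hc1 : (0 : ℝ) < 1 / ((N : ℝ) + 6) := by positivity
            rw [← Real.rpow_add hc1, ← Real.rpow_add hc1]
            congr 1
            ring
          · congr 1
            ring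
        rw [e1]
        unfold UU
        have g1 := Real.rpow_le_rpow (mul_nonneg hc0 (norm_nonneg _)) hPR
          (show 0 ≤ 2 * lam by linarith)
        have g2 := Real.rpow_le_rpow (mul_nonneg hc0 (norm_nonneg _)) (hAR (N - 1 - i))
          (show 0 ≤ 2 * lam by linarith)
        have g3 := Real.rpow_le_rpow (mul_nonneg hc0 (norm_nonneg _)) (hAR N)
          (show 0 ≤ 2 * (1 - lam) by linarith)
        rw [Real.mul_rpow hc0 (norm_nonneg _)] at g1 g2 g3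
        calc _ = (((1 / ((N : ℝ) + 6)) ^ (2 * lam) * ‖PP N T i (s + h)‖ ^ (2 * lam)) *
              ((1 / ((N : ℝ) + 6)) ^ (2 * lam) * ‖AA N T (N - 1 - i) s‖ ^ (2 * lam)) *
              ((1 / ((N : ℝ) + 6)) ^ (2 * (1 - lam)) * ‖AA N T N s‖ ^ (2 * (1 - lam)))) *
              Real.exp (-(2 + 2 * lam)) := by ring
          _ ≤ _ := by
            refine mul_le_mul ?_ h5 (Real.exp_nonneg _) (by positivity)
            exact mul_le_mul (mul_le_mul g1 g2 (by positivity) (by positivity)) g3 (by positivity)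
              (by positivity)
    _ ≤ _ := lintegral_mono_set hJ

private theorem B6_lower (N : ℕ) (lam : ℝ) (h0 : 0 < lam) (hl1 : lam < 1) {T : ℝ}
    (hT : Real.exp 1 ≤ T) {i : ℕ} {h : ℂ} (hr : |h.re| ≤ 1 / 4) (hm : |h.im| ≤ 1 / 4)
    {σ : ℝ} (h1 : 1 / 2 ≤ σ) (h2 : σ ≤ N + 3) :
    ENNReal.ofReal ((1 / ((N : ℝ) + 6) * Real.exp (-1)) ^ (2 + 2 * lam)) *
      ∫⁻ t in Set.Icc (5 * T / 4 - 1) (5 * T / 2 + 1),
        ENNReal.ofReal (UU N T lam i h (σ + t * I)) ≤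
    ∫⁻ t0 in Set.Icc (5 * T / 4 - 1) (5 * T / 2 + 1), ∫⁻ t : ℝ,
      ENNReal.ofReal (VV N T lam i h t0 ((σ : ℂ) + t * I)) := by
  rw [← lintegral_const_mul' _ _ ENNReal.ofReal_ne_top]
  rw [lintegral_lintegral_swap (B6_meas N T lam i hr (by linarith) h0 hl1).aemeasurable]
  refine le_trans ?_ (setLIntegral_le_lintegral (Set.Icc (5 * T / 4 - 1) (5 * T / 2 + 1)) _)
  exact setLIntegral_mono' measurableSet_Icc fun t ht => B6_lower_pt N lam h0 hl1 hT hr hm h1 h2 ht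

private theorem B6_numbers {N : ℕ} (hN : 2 ≤ N) {lam K1 C1 T σ : ℝ} (hK : 0 ≤ K1)
    (hC : 1 ≤ C1) (hT : Real.exp 1 ≤ T) (h1 : 1 / 2 ≤ σ) (h2 : σ ≤ N + 3) :
    (C1 * (T * Real.log T ^ (lam ^ 2))) ^ (((N : ℝ) + 3 - σ) / ((N : ℝ) + 3 - 1 / 2)) *
      (2 * T) ^ ((σ - 1 / 2) / ((N : ℝ) + 3 - 1 / 2)) *
      (K1 * T ^ (-(((N : ℝ) - 1) ^ 2 / (N + 1)))) ^ ((σ - 1 / 2) / ((N : ℝ) + 3 - 1 / 2)) ≤
    (C1 * 2 * max 1 K1) * (T * Real.log T ^ (lam ^ 2)) *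
      T ^ (-(ka N * (σ - 1 / 2))) := by
  have hN' : (2 : ℝ) ≤ N := by exact_mod_cast hN
  have hden : (0 : ℝ) < (N : ℝ) + 3 - 1 / 2 := by linarith
  set η : ℝ := (σ - 1 / 2) / ((N : ℝ) + 3 - 1 / 2) with hηdef
  set θ : ℝ := ((N : ℝ) + 3 - σ) / ((N : ℝ) + 3 - 1 / 2) with hθdef
  have hη : 0 ≤ η := div_nonneg (by linarith) hden.le
  have hθ : 0 ≤ θ := div_nonneg (by linarith) hden.le
  have hθη : θ + η = 1 := by
    rw [hηdef, hθdef, ← add_div, div_eq_one_iff_eq hden.ne']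
    ring
  have hη1 : η ≤ 1 := by linarith
  have hθ1 : θ ≤ 1 := by linarith
  have hT0 : 0 < T := (Real.exp_pos 1).trans_le hT
  have hT1 : 1 ≤ T := (Real.one_le_exp (by norm_num)).trans hT
  have hL : 1 ≤ Real.log T := by
    rw [← Real.log_exp 1]; exact Real.log_le_log (Real.exp_pos _) hT
  have hL2 : 1 ≤ Real.log T ^ (lam ^ 2) := Real.one_le_rpow hL (sq_nonneg _)
  have e1 : (C1 * (T * Real.log T ^ (lam ^ 2))) ^ θ ≤ C1 * (T ^ θ * Real.log T ^ (lam ^ 2)) := by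
    rw [Real.mul_rpow (by linarith) (by positivity), Real.mul_rpow hT0.le (by positivity)]
    refine mul_le_mul ?_ ?_ (by positivity) (by linarith)
    · calc C1 ^ θ ≤ C1 ^ (1 : ℝ) := Real.rpow_le_rpow_of_exponent_le hC hθ1
        _ = C1 := Real.rpow_one _
    · refine mul_le_mul_of_nonneg_left ?_ (by positivity)
      calc (Real.log T ^ (lam ^ 2)) ^ θ ≤ (Real.log T ^ (lam ^ 2)) ^ (1 : ℝ) :=
            Real.rpow_le_rpow_of_exponent_le hL2 hθ1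
        _ = _ := Real.rpow_one _
  have e2 : (2 * T) ^ η ≤ 2 * T ^ η := by
    rw [Real.mul_rpow (by norm_num) hT0.le]
    refine mul_le_mul_of_nonneg_right ?_ (by positivity)
    calc (2 : ℝ) ^ η ≤ 2 ^ (1 : ℝ) := Real.rpow_le_rpow_of_exponent_le (by norm_num) hη1
      _ = 2 := Real.rpow_one _
  have e3 : (K1 * T ^ (-(((N : ℝ) - 1) ^ 2 / (N + 1)))) ^ η ≤
      max 1 K1 * T ^ (-(ka N * (σ - 1 / 2))) := by
    rw [Real.mul_rpow hK (by positivity)]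
    refine mul_le_mul ?_ ?_ (by positivity) (by positivity)
    · calc K1 ^ η ≤ (max 1 K1) ^ η := Real.rpow_le_rpow hK (le_max_right _ _) hη
        _ ≤ (max 1 K1) ^ (1 : ℝ) := Real.rpow_le_rpow_of_exponent_le (le_max_left _ _) hη1
        _ = _ := Real.rpow_one _
    · rw [← Real.rpow_mul hT0.le]
      apply le_of_eq
      congr 1
      rw [hηdef]
      unfold ka
      have e6 : (N : ℝ) + 3 - 1 / 2 = N + 5 / 2 := by ring
      rw [e6]
      have hd2 : (N : ℝ) + 5 / 2 ≠ 0 := by linarith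
      have hd1 : (N : ℝ) + 1 ≠ 0 := by linarith
      field_simp
  calc _ ≤ (C1 * (T ^ θ * Real.log T ^ (lam ^ 2))) * (2 * T ^ η) *
        (max 1 K1 * T ^ (-(ka N * (σ - 1 / 2)))) := by
        refine mul_le_mul (mul_le_mul e1 e2 (by positivity) (by positivity)) e3 ?_ ?_
        · exact Real.rpow_nonneg (mul_nonneg hK (by positivity)) _
        · exact mul_nonneg (mul_nonneg (by linarith) (by positivity)) (by positivity)
    _ = (C1 * 2 * max 1 K1) * ((T ^ θ * T ^ η) * Real.log T ^ (lam ^ 2)) *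
        T ^ (-(ka N * (σ - 1 / 2))) := by ring
    _ = _ := by rw [← Real.rpow_add hT0, hθη, Real.rpow_one]

theorem offline4 (N : ℕ) (hN : 2 ≤ N) (lam : ℝ) (h0 : 0 < lam) (h1 : lam < 1) : ∃ C T0 : ℝ, 1 ≤ C ∧
    Real.exp 4 ≤ T0 ∧ ∀ T : ℝ, T0 ≤ T → ∀ i < N, ∀ h : ℂ, ‖h‖ ≤ 1 / Real.log T →
    ∀ σ : ℝ, 1 / 2 ≤ σ → σ ≤ N + 3 →
    ∫⁻ t in Set.Icc (5 * T / 4 - 1) (5 * T / 2 + 1), ENNReal.ofReal (UU N T lam i h (σ + t * I)) ≤
      ENNReal.ofReal (C * (T * Real.log T ^ (lam ^ 2)) * T ^ (-(ka N * (σ - 1 / 2)))) := by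
  obtain ⟨C1, T1, hC1, hT1, hleft⟩ := left_line4 N hN lam h0 h1
  set κ : ℝ := (1 / ((N : ℝ) + 6) * Real.exp (-1)) ^ (2 + 2 * lam) with hκ
  set K1 : ℝ := (4 : ℝ) ^ (2 + 2 * lam) * Real.exp ((2 + 2 * lam) * ((N : ℝ) + 3) ^ 2) *
        √(π / (2 + 2 * lam)) with hK1
  have hκ0 : 0 < κ := by positivity
  have hK0 : 0 ≤ K1 := by positivity
  have hN' : (2 : ℝ) ≤ N := by exact_mod_cast hN
  have hden : (0 : ℝ) < (N : ℝ) + 3 - 1 / 2 := by linarith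
  refine ⟨max 1 (κ⁻¹ * (C1 * 2 * max 1 K1)), T1, le_max_left _ _,
    hT1, fun T hTT1 i hi h hh σ hσ1 hσ2 => ?_⟩
  have hT4 : Real.exp 4 ≤ T := hT1.trans hTT1
  have hTe : Real.exp 1 ≤ T := (Real.exp_le_exp.2 (by norm_num)).trans hT4
  have he : (2.7182818283 : ℝ) < Real.exp 1 := Real.exp_one_gt_d9
  have hTbig : (2.7 : ℝ) ≤ T := by linarith
  have hT0 : 0 < T := by linarith
  have hL4 : 4 ≤ Real.log T := by
    rw [← Real.log_exp 4]; exact Real.log_le_log (Real.exp_pos _) hT4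
  have hL : 1 ≤ Real.log T := by linarith
  have hh4 : ‖h‖ ≤ 1 / 4 := by
    refine hh.trans ?_
    exact one_div_le_one_div_of_le (by norm_num) hL4
  have hr : |h.re| ≤ 1 / 4 := (Complex.abs_re_le_norm h).trans hh4
  have hm : |h.im| ≤ 1 / 4 := (Complex.abs_im_le_norm h).trans hh4
  have hη : 0 ≤ (σ - 1 / 2) / ((N : ℝ) + 3 - 1 / 2) := div_nonneg (by linarith) hden.le
  have hθ : 0 ≤ ((N : ℝ) + 3 - σ) / ((N : ℝ) + 3 - 1 / 2) := div_nonneg (by linarith) hden.le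
  have hvol : volume (Set.Icc (5 * T / 4 - 1) (5 * T / 2 + 1)) ≤ ENNReal.ofReal (2 * T) := by
    rw [Real.volume_Icc]
    exact ENNReal.ofReal_le_ofReal (by linarith)
  have hup := B6_upper N hN lam h0 h1 hTe hi hr (hm.trans (by norm_num)) hσ1 hσ2
    (Set.Icc (5 * T / 4 - 1) (5 * T / 2 + 1))
  have hlow := B6_lower N lam h0 h1 hTe (i := i) hr hm hσ1 hσ2
  have hmid : ENNReal.ofReal κ * ∫⁻ t in Set.Icc (5 * T / 4 - 1) (5 * T / 2 + 1),
        ENNReal.ofReal (UU N T lam i h (σ + t * I)) ≤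
      ENNReal.ofReal ((C1 * 2 * max 1 K1) * (T * Real.log T ^ (lam ^ 2)) *
        T ^ (-(ka N * (σ - 1 / 2)))) := by
    refine (hlow.trans hup).trans ?_
    refine le_trans ?_ (ENNReal.ofReal_le_ofReal
      (B6_numbers (lam := lam) hN hK0 hC1 hTe hσ1 hσ2))
    have hX : 0 ≤ C1 * (T * Real.log T ^ (lam ^ 2)) := by positivity
    have hKT : (0 : ℝ) ≤ K1 * T ^ (-(((N : ℝ) - 1) ^ 2 / (N + 1))) := by positivity
    have key : ENNReal.ofReal ((C1 * (T * Real.log T ^ (lam ^ 2))) ^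
        (((N : ℝ) + 3 - σ) / ((N : ℝ) + 3 - 1 / 2)) *
      (2 * T) ^ ((σ - 1 / 2) / ((N : ℝ) + 3 - 1 / 2)) *
      (K1 * T ^ (-(((N : ℝ) - 1) ^ 2 / (N + 1)))) ^ ((σ - 1 / 2) / ((N : ℝ) + 3 - 1 / 2))) =
      ENNReal.ofReal (C1 * (T * Real.log T ^ (lam ^ 2))) ^
        (((N : ℝ) + 3 - σ) / ((N : ℝ) + 3 - 1 / 2)) *
      ENNReal.ofReal (2 * T) ^ ((σ - 1 / 2) / ((N : ℝ) + 3 - 1 / 2)) *
      ENNReal.ofReal (K1 * T ^ (-(((N : ℝ) - 1) ^ 2 / (N + 1)))) ^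
        ((σ - 1 / 2) / ((N : ℝ) + 3 - 1 / 2)) := by
      rw [ENNReal.ofReal_mul (by positivity), ENNReal.ofReal_mul (by positivity),
        ENNReal.ofReal_rpow_of_nonneg hX hθ,
        ENNReal.ofReal_rpow_of_nonneg (by positivity : (0 : ℝ) ≤ 2 * T) hη,
        ENNReal.ofReal_rpow_of_nonneg hKT hη]
    rw [key]
    refine mul_le_mul_left (mul_le_mul' ?_ ?_) _
    · exact ENNReal.rpow_le_rpow (hleft T hTT1 i hi h hh) hθ
    · exact ENNReal.rpow_le_rpow hvol hη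
  have hfin : ∫⁻ t in Set.Icc (5 * T / 4 - 1) (5 * T / 2 + 1),
        ENNReal.ofReal (UU N T lam i h (σ + t * I)) =
      ENNReal.ofReal κ⁻¹ * (ENNReal.ofReal κ * ∫⁻ t in Set.Icc (5 * T / 4 - 1) (5 * T / 2 + 1),
        ENNReal.ofReal (UU N T lam i h (σ + t * I))) := by
    rw [← mul_assoc, ← ENNReal.ofReal_mul (by positivity), inv_mul_cancel₀ hκ0.ne',
      ENNReal.ofReal_one, one_mul]
  rw [hfin]
  refine (mul_le_mul_right hmid (ENNReal.ofReal κ⁻¹)).trans ?_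
  rw [← ENNReal.ofReal_mul (by positivity)]
  apply ENNReal.ofReal_le_ofReal
  have hnn : 0 ≤ (T * Real.log T ^ (lam ^ 2)) * T ^ (-(ka N * (σ - 1 / 2))) := by positivity
  have hmax := le_max_right (1 : ℝ) (κ⁻¹ * (C1 * 2 * max 1 K1))
  calc κ⁻¹ * ((C1 * 2 * max 1 K1) * (T * Real.log T ^ (lam ^ 2)) *
        T ^ (-(ka N * (σ - 1 / 2))))
      = (κ⁻¹ * (C1 * 2 * max 1 K1)) * ((T * Real.log T ^ (lam ^ 2)) *
        T ^ (-(ka N * (σ - 1 / 2)))) := by ring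
    _ ≤ max 1 (κ⁻¹ * (C1 * 2 * max 1 K1)) * ((T * Real.log T ^ (lam ^ 2)) *
        T ^ (-(ka N * (σ - 1 / 2)))) :=
        mul_le_mul_of_nonneg_right hmax hnn
    _ = _ := by ring

end Pool.Agent.UV
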