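import Mathlib

/-! TASK CN. The counting lemma for coprime fractions (elementary).
`K = 2 ζ(1+κ)`, i.e. `K = 2 ∑_{j≥1} j^{-1-κ}` (finite: `Real.summable_nat_rpow_inv` or `Real.summable_one_div_nat_rpow`), made `≥ 1`.
Let `S = {(a',b') : 1 ≤ b' ≤ D, a b' ≠ a' b}`. The map `φ (a',b') = (a b' - a' b ∈ ℤ, (b'-1)/b ∈ ℕ)` (natural division) is injective on `S`: if `a b' - a' b = a b'' - a'' b` then `a (b' - b'') = b (a' - a'')`, so `b ∣ b' - b''` (coprimality), and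
`(b'-1)/b = (b''-1)/b` gives `|b' - b''| < b`, so `b' = b''` and then `a' = a''` (`b ≥ 1`). The first component of `φ` is a nonzero integer, the second is at most `(D-1)/b ≤ D/b` (for `D ≥ 1`; for `D = 0` the set is empty), so it takes at most `D/b + 1` values.
Hence the sum is at most `∑_{i ≤ (D-1)/b} ∑_{j ∈ ℤ, j ≠ 0} |j|^{-1-κ} = (⌊(D-1)/b⌋ + 1) K`. (E.g. `tsum` over the subtype `S`, `ENNReal.tsum_comp_le_tsum_of_injective`, then `tsum` over `ℤ × ℕ` of `if j ≠ 0 ∧ i ≤ (D-1)/b then ofReal |j|^{-(1+κ)} else 0`, `ENNReal.tsum_prod`;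
the sum over `ℤ` is twice the sum over the positive naturals.) -/

set_option autoImplicit false

namespace Pool.Agent.UV

open Finset
open scoped Real

theorem count {κ : ℝ} (hκ : 0 < κ) : ∃ K : ℝ, 1 ≤ K ∧ ∀ a b D : ℕ, 1 ≤ b → Nat.Coprime a b →
    ∑' v : ℕ × ℕ, (if 1 ≤ v.2 ∧ v.2 ≤ D ∧ a * v.2 ≠ v.1 * b then
      ENNReal.ofReal (|(a : ℝ) * v.2 - v.1 * b| ^ (-(1 + κ))) else 0) ≤
    ENNReal.ofReal (K * ((D : ℝ) / b + 1)) := by
  classical
  have hs : Summable fun n : ℤ => |(n : ℝ)| ^ (-(1 + κ)) :=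
    Real.summable_abs_int_rpow (by linarith)
  have h0 : ∀ n : ℤ, 0 ≤ |(n : ℝ)| ^ (-(1 + κ)) := fun n => Real.rpow_nonneg (abs_nonneg _) _
  refine ⟨max 1 (∑' n : ℤ, |(n : ℝ)| ^ (-(1 + κ))), le_max_left _ _, ?_⟩
  intro a b D hb hab
  obtain ⟨A, hAdef⟩ : ∃ A : ENNReal, A = ∑' n : ℤ, ENNReal.ofReal (|(n : ℝ)| ^ (-(1 + κ))) := ⟨_, rfl⟩
  have hA : A = ENNReal.ofReal (∑' n : ℤ, |(n : ℝ)| ^ (-(1 + κ))) :=
    hAdef.trans (ENNReal.ofReal_tsum_of_nonneg h0 hs).symm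
  obtain ⟨S, hS⟩ : ∃ S : Set (ℕ × ℕ), ∀ v, v ∈ S ↔ 1 ≤ v.2 ∧ v.2 ≤ D ∧ a * v.2 ≠ v.1 * b :=
    ⟨{v | 1 ≤ v.2 ∧ v.2 ≤ D ∧ a * v.2 ≠ v.1 * b}, fun v => Iff.rfl⟩
  obtain ⟨φ, hφ⟩ : ∃ φ : ℕ × ℕ → ℕ × ℤ, ∀ v, φ v = ((v.2 - 1) / b, (a : ℤ) * v.2 - v.1 * b) :=
    ⟨_, fun v => rfl⟩
  obtain ⟨F, hF⟩ : ∃ F : ℕ → ℤ → ENNReal, ∀ i j, F i j = if i ≤ (D - 1) / b then
      ENNReal.ofReal (|(j : ℝ)| ^ (-(1 + κ))) else 0 := ⟨_, fun i j => rfl⟩
  have hinj : Function.Injective (fun v : S => φ v) := by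
    rintro ⟨⟨a1, b1⟩, h1⟩ ⟨⟨a2, b2⟩, h2⟩ h
    have h1' := (hS _).mp h1
    have h2' := (hS _).mp h2
    simp only [hφ, Prod.mk.injEq] at h
    simp only at h1' h2'
    obtain ⟨hq, hj⟩ := h
    have hb0 : (0 : ℤ) < b := by exact_mod_cast hb
    have hdvd : (b : ℤ) ∣ (b1 : ℤ) - b2 := by
      have hc : IsCoprime (b : ℤ) (a : ℤ) := (Nat.isCoprime_iff_coprime.mpr hab).symm
      refine hc.dvd_of_dvd_mul_left ⟨(a1 : ℤ) - a2, ?_⟩
      linarith
    have e1 := Nat.div_add_mod (b1 - 1) b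
    have e2 := Nat.div_add_mod (b2 - 1) b
    have l1 := Nat.mod_lt (b1 - 1) (by omega : b > 0)
    have l2 := Nat.mod_lt (b2 - 1) (by omega : b > 0)
    rw [hq] at e1
    have hlt : |(b1 : ℤ) - b2| < b := by
      rw [abs_lt]
      constructor <;> omega
    have hz := Int.eq_zero_of_abs_lt_dvd hdvd hlt
    have hb12 : b1 = b2 := by omega
    subst hb12
    have ha12 : (a1 : ℤ) * b = a2 * b := by linarith
    have ha : (a1 : ℤ) = a2 := mul_right_cancel₀ hb0.ne' ha12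
    have ha' : a1 = a2 := by exact_mod_cast ha
    subst ha'
    rfl
  calc ∑' v : ℕ × ℕ, (if 1 ≤ v.2 ∧ v.2 ≤ D ∧ a * v.2 ≠ v.1 * b then
      ENNReal.ofReal (|(a : ℝ) * v.2 - v.1 * b| ^ (-(1 + κ))) else 0)
      = ∑' v : S, F (φ v).1 (φ v).2 := by
        rw [tsum_subtype S (fun v => F (φ v).1 (φ v).2)]
        refine tsum_congr fun v => ?_
        by_cases hv : v ∈ S
        · have hv' := (hS v).mp hv
          rw [if_pos hv', Set.indicator_of_mem hv, hF, hφ, if_pos (Nat.div_le_div_right (by omega))]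
          push_cast
          rfl
        · rw [if_neg (fun h => hv ((hS v).mpr h)), Set.indicator_of_notMem hv]
    _ ≤ ∑' w : ℕ × ℤ, F w.1 w.2 :=
        ENNReal.tsum_comp_le_tsum_of_injective hinj (fun w => F w.1 w.2)
    _ = ∑' i, ∑' j, F i j := ENNReal.tsum_prod
    _ = ∑' i : ℕ, (if i ≤ (D - 1) / b then A else 0) := by
        refine tsum_congr fun i => ?_
        by_cases hi : i ≤ (D - 1) / b
        · rw [if_pos hi, hAdef]
          exact tsum_congr fun j => by rw [hF, if_pos hi]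
        · rw [if_neg hi, ← tsum_zero (β := ℤ)]
          exact tsum_congr fun j => by rw [hF, if_neg hi]
    _ = (((D - 1) / b + 1 : ℕ) : ENNReal) * A := by
        rw [tsum_eq_sum (s := range ((D - 1) / b + 1))]
        · rw [sum_congr rfl (g := fun _ => A), sum_const, card_range, nsmul_eq_mul]
          intro i hi
          rw [mem_range] at hi
          rw [if_pos (by omega)]
        · intro i hi
          rw [mem_range] at hi
          rw [if_neg (by omega)]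
    _ ≤ ENNReal.ofReal (max 1 (∑' n : ℤ, |(n : ℝ)| ^ (-(1 + κ))) * ((D : ℝ) / b + 1)) := by
        rw [hA, ← ENNReal.ofReal_natCast, ← ENNReal.ofReal_mul (Nat.cast_nonneg _)]
        refine ENNReal.ofReal_le_ofReal ?_
        rw [mul_comm]
        have hK : (∑' n : ℤ, |(n : ℝ)| ^ (-(1 + κ))) ≤ max 1 (∑' n : ℤ, |(n : ℝ)| ^ (-(1 + κ))) :=
          le_max_right _ _
        refine mul_le_mul hK ?_ (Nat.cast_nonneg _) (le_trans zero_le_one (le_max_left _ _))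
        have h3 : (((D - 1) / b : ℕ) : ℝ) ≤ ((D - 1 : ℕ) : ℝ) / b := Nat.cast_div_le
        have h4 : ((D - 1 : ℕ) : ℝ) ≤ D := by exact_mod_cast Nat.sub_le D 1
        have hb0 : (0 : ℝ) < b := by exact_mod_cast hb
        have h5 : ((D - 1 : ℕ) : ℝ) / b ≤ (D : ℝ) / b := div_le_div_of_nonneg_right h4 hb0.le
        rw [Nat.cast_add, Nat.cast_one]
        linarith

end Pool.Agent.UV
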