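import Pool.Agent.Lib.MP_69b2e4_nt.UV.Z3
import Pool.Agent.Lib.MP_69b2e4_nt.Mg.G013
import Pool.Agent.Lib.MP_69b2e4_nt.Mg.G014
import Pool.Agent.Lib.MP_69b2e4_nt.Mg.G002

/-! TASK M1. All zeros. (Template: UH/MA.lean, UH/MB.lean.) `q = 2 lam`, `L = log T`, block `5T/4 ≤ Im ρ ≤ 5T/2`.
`block4`: `om < 1`: zeros with `Re ρ ≥ 1/2`: those with `Re ρ ≤ 1/2 + 1/L`: `T^{om(β-1/2)} ≤ e^{|om|}` and `near_right` (UH/Z1); the others: `far_weighted4`.
`all_zeros`: `kap < 1 - 2 lam`, weight `g ρ = (Im ρ)^{kap |Re ρ - 1/2|} ‖ζ'(ρ)‖^q`. In a block put `x = |Re ρ - 1/2| < 1/2`, `γ = Im ρ ∈ [5T/4, 5T/2]`: `γ^{kap x} ≤ (5/2)^{|kap|} T^{kap x}` (`1 ≤ γ/T ≤ 5/2`). Zeros with `Re ρ ≥ 1/2`: `block_right4` with `om = kap` (`kap < 1`).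
Zeros with `Re ρ < 1/2`: `ρ1 = 1 - conj ρ` (`Re ρ1 = 1 - Re ρ`, `Im ρ1 = γ`, `ζ(ρ1) = 0`; `ρ ↦ ρ1` injective), `deriv_left` (UH/G2): `‖ζ'(ρ)‖^q ≤ C^q γ^{q x} ‖ζ'(ρ1)‖^q ≤ C^q (5/2)^q T^{q x} ‖ζ'(ρ1)‖^q`, so `g ρ ≤ C' T^{(kap + q) x} ‖ζ'(ρ1)‖^q`: `block_right4` with `om = kap + 2 lam < 1`.
Then `heights` (UH/Z4) with `P = fun _ => True`, this `g`, `κ = (lam+1)²`. -/

set_option autoImplicit false

namespace Pool.Agent.UV

open Complex MeasureTheory Finset Pool.Agent.GH Pool.Agent.UH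
open scoped Real ComplexConjugate

private theorem M1_pow {T y c k : ℝ} (hT : 0 < T) (h1 : T ≤ y) (h2 : y ≤ 5 / 2 * T) (hck : c ≤ k) (hk : 0 ≤ k) :
    y ^ c ≤ (5 / 2 : ℝ) ^ k * T ^ c := by
  have hu1 : 1 ≤ y / T := (one_le_div hT).2 h1
  have hu2 : y / T ≤ 5 / 2 := by
    rw [div_le_iff₀ hT]
    exact h2
  have e1 : y ^ c = T ^ c * (y / T) ^ c := by
    rw [← Real.mul_rpow hT.le (by linarith)]
    congr 1
    field_simp
  rw [e1, mul_comm]
  apply mul_le_mul_of_nonneg_right _ (Real.rpow_nonneg hT.le _)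
  exact (Real.rpow_le_rpow_of_exponent_le hu1 hck).trans (Real.rpow_le_rpow (by linarith) hu2 hk)

private theorem M1_inj : Function.Injective (fun ρ : ℂ => 1 - conj ρ) := by
  intro x y h
  have h1 : conj x = conj y := by
    have h2 : (1 : ℂ) - conj x = 1 - conj y := h
    linear_combination -h2
  exact (starRingEnd ℂ).injective h1

theorem block_right4 (lam om : ℝ) (h0 : 0 < lam) (h1 : lam < 1) (hom : om < 1) : ∃ C T0 : ℝ, 1 ≤ C ∧
    Real.exp 1 ≤ T0 ∧ ∀ (T : ℝ) (Z : Finset ℂ), T0 ≤ T →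
    (∀ ρ ∈ Z, riemannZeta ρ = 0 ∧ 1 / 2 ≤ ρ.re ∧ ρ.re < 1 ∧ 5 * T / 4 ≤ ρ.im ∧ ρ.im ≤ 5 * T / 2) →
    ∑ ρ ∈ Z, T ^ (om * (ρ.re - 1 / 2)) * ‖deriv riemannZeta ρ‖ ^ (2 * lam) ≤
      C * (T * Real.log T ^ ((lam + 1) ^ 2)) := by
  classical
  obtain ⟨C1, T1, hC1, hT1, H1⟩ := near_right lam h0 h1.le
  obtain ⟨C2, T2, hC2, hT2, H2⟩ := far_weighted4 lam om h0 h1 hom
  refine ⟨Real.exp |om| * C1 + C2, max T1 T2, ?_, hT1.trans (le_max_left _ _), ?_⟩
  · have : 0 ≤ Real.exp |om| * C1 := by positivity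
    linarith
  intro T Z hT hZ
  have hTT1 : T1 ≤ T := (le_max_left _ _).trans hT
  have hTT2 : T2 ≤ T := (le_max_right _ _).trans hT
  have he : Real.exp 1 ≤ T := hT1.trans hTT1
  have he1 : (1 : ℝ) < Real.exp 1 := by
    have := Real.add_one_lt_exp (x := 1) (by norm_num)
    linarith
  have hTpos : 0 < T := by linarith
  have hT1' : 1 < T := by linarith
  have hLpos : 0 < Real.log T := Real.log_pos hT1'
  rw [← sum_filter_add_sum_filter_not Z (fun ρ => ρ.re ≤ 1 / 2 + 1 / Real.log T), add_mul]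
  apply add_le_add
  · have d1 : ∀ ρ ∈ Z.filter (fun ρ => ρ.re ≤ 1 / 2 + 1 / Real.log T),
        T ^ (om * (ρ.re - 1 / 2)) * ‖deriv riemannZeta ρ‖ ^ (2 * lam) ≤
          Real.exp |om| * ‖deriv riemannZeta ρ‖ ^ (2 * lam) := by
      intro ρ hρ
      obtain ⟨ρZ, hρ2⟩ := Finset.mem_filter.1 hρ
      have hρ1 := (hZ ρ ρZ).2.1
      apply mul_le_mul_of_nonneg_right _ (Real.rpow_nonneg (norm_nonneg _) _)
      have e0 : om * (ρ.re - 1 / 2) ≤ |om| * (1 / Real.log T) :=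
        (mul_le_mul_of_nonneg_right (le_abs_self om) (by linarith)).trans
          (mul_le_mul_of_nonneg_left (by linarith) (abs_nonneg om))
      calc T ^ (om * (ρ.re - 1 / 2)) ≤ T ^ (|om| * (1 / Real.log T)) :=
            Real.rpow_le_rpow_of_exponent_le hT1'.le e0
        _ = Real.exp |om| := by
            rw [Real.rpow_def_of_pos hTpos]
            congr 1
            field_simp
    calc _ ≤ ∑ ρ ∈ Z.filter (fun ρ => ρ.re ≤ 1 / 2 + 1 / Real.log T),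
          Real.exp |om| * ‖deriv riemannZeta ρ‖ ^ (2 * lam) := Finset.sum_le_sum d1
      _ = Real.exp |om| * ∑ ρ ∈ Z.filter (fun ρ => ρ.re ≤ 1 / 2 + 1 / Real.log T),
          ‖deriv riemannZeta ρ‖ ^ (2 * lam) := by rw [Finset.mul_sum]
      _ ≤ Real.exp |om| * (C1 * (T * Real.log T ^ ((lam + 1) ^ 2))) := by
          apply mul_le_mul_of_nonneg_left _ (by positivity)
          apply H1 T _ hTT1
          intro ρ hρ
          obtain ⟨f1, f2⟩ := Finset.mem_filter.1 hρ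
          obtain ⟨g1, g2, g3, g4, g5⟩ := hZ ρ f1
          exact ⟨g1, g2, f2, g4, g5⟩
      _ = _ := by ring
  · apply H2 T _ hTT2
    intro ρ hρ
    obtain ⟨f1, f2⟩ := Finset.mem_filter.1 hρ
    obtain ⟨g1, g2, g3, g4, g5⟩ := hZ ρ f1
    exact ⟨g1, not_le.1 f2, g3, g4, g5⟩

theorem all_zeros4 (lam kap : ℝ) (h0 : 0 < lam) (h1 : lam < 1) (hk : kap < 1 - 2 * lam) :
    ∃ C : ℝ, 1 ≤ C ∧ ∀ (T : ℝ) (Z : Finset ℂ), 2 ≤ T →
    (∀ ρ ∈ Z, riemannZeta ρ = 0 ∧ 0 < ρ.re ∧ ρ.re < 1 ∧ 0 < ρ.im ∧ ρ.im ≤ T) →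
    ∑ ρ ∈ Z, ρ.im ^ (kap * |ρ.re - 1 / 2|) * ‖deriv riemannZeta ρ‖ ^ (2 * lam) ≤
      C * (T * Real.log T ^ ((lam + 1) ^ 2)) := by
  classical
  obtain ⟨C1, T1, hC1, hT1, H1⟩ := block_right4 lam kap h0 h1 (by linarith)
  obtain ⟨C2, T2, hC2, hT2, H2⟩ := block_right4 lam (kap + 2 * lam) h0 h1 (by linarith)
  obtain ⟨C3, hC3, hleft⟩ := deriv_left
  have he1 : (1 : ℝ) < Real.exp 1 := by
    have := Real.add_one_lt_exp (x := 1) (by norm_num)
    linarith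
  have hq : 0 < 2 * lam := by linarith
  set A1 : ℝ := (5 / 2 : ℝ) ^ |kap| with hA1
  set A2 : ℝ := C3 ^ (2 * lam) * (5 / 2 : ℝ) ^ |kap + 2 * lam| with hA2
  have hA1p : 0 ≤ A1 := by positivity
  have hA2p : 0 ≤ A2 := by positivity
  have hblock : ∀ (T : ℝ) (Z : Finset ℂ), max T1 T2 ≤ T →
      (∀ ρ ∈ Z, True ∧ riemannZeta ρ = 0 ∧ 0 < ρ.re ∧ ρ.re < 1 ∧ 5 * T / 4 ≤ ρ.im ∧ ρ.im ≤ 5 * T / 2) →
      ∑ ρ ∈ Z, |ρ.im| ^ (kap * |ρ.re - 1 / 2|) * ‖deriv riemannZeta ρ‖ ^ (2 * lam) ≤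
        (A1 * C1 + A2 * C2) * (T * Real.log T ^ ((lam + 1) ^ 2)) := by
    intro T Z hT hZ
    have hTT1 : T1 ≤ T := (le_max_left _ _).trans hT
    have hTT2 : T2 ≤ T := (le_max_right _ _).trans hT
    have he : Real.exp 1 ≤ T := hT1.trans hTT1
    have hTpos : 0 < T := by linarith
    rw [← sum_filter_add_sum_filter_not Z (fun ρ => 1 / 2 ≤ ρ.re), add_mul]
    apply add_le_add
    · -- zeros with real part at least 1/2
      have d1 : ∀ ρ ∈ Z.filter (fun ρ => 1 / 2 ≤ ρ.re),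
          |ρ.im| ^ (kap * |ρ.re - 1 / 2|) * ‖deriv riemannZeta ρ‖ ^ (2 * lam) ≤
            A1 * (T ^ (kap * (ρ.re - 1 / 2)) * ‖deriv riemannZeta ρ‖ ^ (2 * lam)) := by
        intro ρ hρ
        obtain ⟨ρZ, hρ2⟩ := Finset.mem_filter.1 hρ
        obtain ⟨_, g1, g2, g3, g4, g5⟩ := hZ ρ ρZ
        have hx : |ρ.re - 1 / 2| = ρ.re - 1 / 2 := abs_of_nonneg (by linarith)
        have him : |ρ.im| = ρ.im := abs_of_nonneg (by linarith)
        rw [hx, him, ← mul_assoc]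
        apply mul_le_mul_of_nonneg_right _ (Real.rpow_nonneg (norm_nonneg _) _)
        apply M1_pow hTpos (by linarith) (by linarith) _ (abs_nonneg _)
        calc kap * (ρ.re - 1 / 2) ≤ |kap| * (ρ.re - 1 / 2) :=
              mul_le_mul_of_nonneg_right (le_abs_self _) (by linarith)
          _ ≤ |kap| * 1 := mul_le_mul_of_nonneg_left (by linarith) (abs_nonneg _)
          _ = |kap| := mul_one _
      refine (Finset.sum_le_sum d1).trans ?_
      rw [← Finset.mul_sum, mul_assoc]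
      apply mul_le_mul_of_nonneg_left _ hA1p
      apply H1 T _ hTT1
      intro ρ hρ
      obtain ⟨ρZ, hρ2⟩ := Finset.mem_filter.1 hρ
      obtain ⟨_, g1, g2, g3, g4, g5⟩ := hZ ρ ρZ
      exact ⟨g1, hρ2, g3, g4, g5⟩
    · -- zeros with real part less than 1/2
      have d1 : ∀ ρ ∈ Z.filter (fun ρ => ¬ 1 / 2 ≤ ρ.re),
          |ρ.im| ^ (kap * |ρ.re - 1 / 2|) * ‖deriv riemannZeta ρ‖ ^ (2 * lam) ≤
            A2 * (fun ρ : ℂ => T ^ ((kap + 2 * lam) * (ρ.re - 1 / 2)) *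
              ‖deriv riemannZeta ρ‖ ^ (2 * lam)) (1 - conj ρ) := by
        intro ρ hρ
        obtain ⟨ρZ, hρ2⟩ := Finset.mem_filter.1 hρ
        obtain ⟨_, g1, g2, g3, g4, g5⟩ := hZ ρ ρZ
        rw [not_le] at hρ2
        have himpos : 0 < ρ.im := by linarith
        have hx : |ρ.re - 1 / 2| = 1 / 2 - ρ.re := by
          rw [abs_of_neg (by linarith)]
          ring
        have him : |ρ.im| = ρ.im := abs_of_nonneg himpos.le
        have hre1 : (1 - conj ρ).re - 1 / 2 = 1 / 2 - ρ.re := by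
          rw [Complex.sub_re, Complex.one_re, Complex.conj_re]
          ring
        obtain ⟨b1, b2⟩ := hleft ρ g1 g2 hρ2.le (by linarith)
        rw [hx, him]
        simp only []
        rw [hre1]
        set y : ℝ := ρ.im with hy
        set x : ℝ := 1 / 2 - ρ.re with hxd
        set D : ℝ := ‖deriv riemannZeta (1 - conj ρ)‖ with hD
        have hD0 : 0 ≤ D := norm_nonneg _
        have hx0 : 0 ≤ x := by linarith
        have hx1 : x ≤ 1 := by linarith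
        have c1 : ‖deriv riemannZeta ρ‖ ^ (2 * lam) ≤ C3 ^ (2 * lam) * y ^ (2 * lam * x) * D ^ (2 * lam) := by
          calc ‖deriv riemannZeta ρ‖ ^ (2 * lam) ≤ (C3 * y ^ x * D) ^ (2 * lam) :=
                Real.rpow_le_rpow (norm_nonneg _) b2 hq.le
            _ = C3 ^ (2 * lam) * (y ^ x) ^ (2 * lam) * D ^ (2 * lam) := by
                rw [Real.mul_rpow (by positivity) hD0, Real.mul_rpow (by linarith) (by positivity)]
            _ = C3 ^ (2 * lam) * y ^ (2 * lam * x) * D ^ (2 * lam) := by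
                rw [← Real.rpow_mul himpos.le, mul_comm x]
        have c2 : y ^ ((kap + 2 * lam) * x) ≤ (5 / 2 : ℝ) ^ |kap + 2 * lam| * T ^ ((kap + 2 * lam) * x) := by
          apply M1_pow hTpos (by linarith) (by linarith) _ (abs_nonneg _)
          calc (kap + 2 * lam) * x ≤ |kap + 2 * lam| * x :=
                mul_le_mul_of_nonneg_right (le_abs_self _) hx0
            _ ≤ |kap + 2 * lam| * 1 := mul_le_mul_of_nonneg_left hx1 (abs_nonneg _)
            _ = |kap + 2 * lam| := mul_one _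
        calc y ^ (kap * x) * ‖deriv riemannZeta ρ‖ ^ (2 * lam)
            ≤ y ^ (kap * x) * (C3 ^ (2 * lam) * y ^ (2 * lam * x) * D ^ (2 * lam)) :=
              mul_le_mul_of_nonneg_left c1 (Real.rpow_nonneg himpos.le _)
          _ = C3 ^ (2 * lam) * y ^ ((kap + 2 * lam) * x) * D ^ (2 * lam) := by
              rw [add_mul, Real.rpow_add himpos]
              ring
          _ ≤ C3 ^ (2 * lam) * ((5 / 2 : ℝ) ^ |kap + 2 * lam| * T ^ ((kap + 2 * lam) * x)) * D ^ (2 * lam) := by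
              apply mul_le_mul_of_nonneg_right _ (Real.rpow_nonneg hD0 _)
              exact mul_le_mul_of_nonneg_left c2 (by positivity)
          _ = A2 * (T ^ ((kap + 2 * lam) * x) * D ^ (2 * lam)) := by
              rw [hA2]
              ring
      refine (Finset.sum_le_sum d1).trans ?_
      rw [← Finset.mul_sum, mul_assoc A2 C2]
      apply mul_le_mul_of_nonneg_left _ hA2p
      rw [← Finset.sum_image (f := fun ρ : ℂ => T ^ ((kap + 2 * lam) * (ρ.re - 1 / 2)) *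
              ‖deriv riemannZeta ρ‖ ^ (2 * lam)) (g := fun ρ : ℂ => 1 - conj ρ)
              (fun x _ y _ hxy => M1_inj hxy)]
      apply H2 T _ hTT2
      intro ρ' hρ'
      obtain ⟨ρ, hρ, rfl⟩ := Finset.mem_image.1 hρ'
      obtain ⟨ρZ, hρ2⟩ := Finset.mem_filter.1 hρ
      obtain ⟨_, g1, g2, g3, g4, g5⟩ := hZ ρ ρZ
      rw [not_le] at hρ2
      obtain ⟨b1, b2⟩ := hleft ρ g1 g2 hρ2.le (by linarith)
      have hre : (1 - conj ρ).re = 1 - ρ.re := by simp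
      have him : (1 - conj ρ).im = ρ.im := by simp
      refine ⟨b1, ?_, ?_, ?_, ?_⟩
      · show 1 / 2 ≤ (1 - conj ρ).re
        rw [hre]
        linarith
      · show (1 - conj ρ).re < 1
        rw [hre]
        linarith
      · show 5 * T / 4 ≤ (1 - conj ρ).im
        rw [him]
        exact g4
      · show (1 - conj ρ).im ≤ 5 * T / 2
        rw [him]
        exact g5
  obtain ⟨C, hC, H⟩ := heights (g := fun ρ => |ρ.im| ^ (kap * |ρ.re - 1 / 2|) * ‖deriv riemannZeta ρ‖ ^ (2 * lam))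
    (fun ρ => by positivity) (sq_nonneg (lam + 1)) (by positivity : (0 : ℝ) ≤ A1 * C1 + A2 * C2)
    (hT1.trans (le_max_left _ _)) (P := fun _ => True) hblock
  refine ⟨C, hC, fun T Z hT hZ => ?_⟩
  have h3 := H T Z hT (fun ρ hρ => ⟨trivial, hZ ρ hρ⟩)
  refine le_trans (le_of_eq (Finset.sum_congr rfl fun ρ hρ => ?_)) h3
  rw [abs_of_pos (hZ ρ hρ).2.2.2.1]

end Pool.Agent.UV
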