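import Pool.Agent.Lib.MP_69b2e4_nt.UV.B6
import Pool.Agent.Lib.MP_69b2e4_nt.Mg.G020

/-! TASK Z3. Zeros to the right at distance more than `1/L`, with the factor `T^{om(β-1/2)}`, `om < 1`. (Template: UH/Z3.lean.) `L = log T`, `q = 2 lam`, `δ = 1/(8L)`, so `T^δ = e^{1/8}`. Choose `N ≥ 2` with `ka N > max om 0` (`ka_large` of KA.lean).
A zero lies in the row `j = ⌊8L(Re ρ - 1/2)⌋ ≥ 8`: `σ0 = 1/2 + jδ ≤ Re ρ ≤ σ0 + δ`, `jδ < 1/2`. `row4` with `n = N`, `f = ζ`, `P i = PP N T i`, `A i = AA N T (N-1-i)`, `B = AA N T N`, exponents `q = 2 lam`, `r' = 2(1-lam)`, `A1 = 5T/4`, `B1 = 5T/2` (`sum_PP`, `PP_analytic`, `AA_analytic`, `AA_zero`; `ζ` is analytic for `Im > 0`):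
the integrand is `UU N T lam i h (x + y I)` with `h = a + bI`, `|a|, |b| ≤ 4δ = 1/(2L)`, so `‖h‖ ≤ 1/L`; for `x ∈ [σ0-2δ, σ0+3δ] ⊆ [1/2, N+3]` `offline4` gives `∫_y ≤ C T L^{lam²} T^{-ka N (x-1/2)} ≤ C T L^{lam²} e^{-ka N (j-2)/8}` (`[5T/4-3δ, 5T/2+3δ] ⊆ [5T/4-1, 5T/2+1]`). So the row contributes at most
`C δ^{-q-4} N (8δ)² (5δ) C' T L^{lam²} e^{-ka N (j-2)/8} = C'' L^{q+1} T L^{lam²} e^{-ka N j/8}`, and with `T^{om(Re ρ - 1/2)} ≤ e^{max(om,0)(j+1)/8}` the sum over `j ≥ 8` is a convergent geometric series. `L^{q+1} L^{lam²} = L^{(lam+1)²}`. -/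

set_option autoImplicit false

namespace Pool.Agent.UV

open Complex MeasureTheory Finset Pool.Agent.GH Pool.Agent.UH
open scoped Real ComplexConjugate

private lemma Z3_zeta_analytic {z : ℂ} (hz : 0 < z.im) : AnalyticAt ℂ riemannZeta z := by
  have h1 : z ≠ 1 := fun h => by
    rw [h, Complex.one_im] at hz
    exact lt_irrefl _ hz
  have h2 : DifferentiableOn ℂ riemannZeta {w : ℂ | w ≠ 1} := fun w hw =>
    (differentiableAt_riemannZeta hw).differentiableWithinAt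
  exact h2.analyticAt (isOpen_ne.mem_nhds h1)

theorem far_weighted4 (lam om : ℝ) (h0 : 0 < lam) (h1 : lam < 1) (hom : om < 1) : ∃ C T0 : ℝ, 1 ≤ C ∧
    Real.exp 1 ≤ T0 ∧ ∀ (T : ℝ) (Z : Finset ℂ), T0 ≤ T →
    (∀ ρ ∈ Z, riemannZeta ρ = 0 ∧ 1 / 2 + 1 / Real.log T < ρ.re ∧ ρ.re < 1 ∧
      5 * T / 4 ≤ ρ.im ∧ ρ.im ≤ 5 * T / 2) →
    ∑ ρ ∈ Z, T ^ (om * (ρ.re - 1 / 2)) * ‖deriv riemannZeta ρ‖ ^ (2 * lam) ≤
      C * (T * Real.log T ^ ((lam + 1) ^ 2)) := by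
  have hq : 0 < 2 * lam := by linarith
  have hq' : 0 < 2 * (1 - lam) := by linarith
  obtain ⟨N, hN2, hka⟩ := ka_large (om := max om 0) (max_lt hom one_pos)
  have hka0 : 0 < ka N := lt_of_le_of_lt (le_max_right _ _) hka
  set w : ℝ := max om 0 with hw
  have hw0 : 0 ≤ w := le_max_right _ _
  have hwom : om ≤ w := le_max_left _ _
  obtain ⟨Cr, hCr1, hCr⟩ := row4 hq hq' N
  obtain ⟨Co, T0, hCo1, hT0, hCo⟩ := offline4 N hN2 lam h0 h1
  set q : ℝ := 2 * lam with hqdef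
  set r : ℝ := Real.exp (-((ka N - w) / 8)) with hr
  have hr0 : 0 < r := Real.exp_pos _
  have hr1 : r < 1 := by
    rw [hr, ← Real.exp_zero]
    exact Real.exp_lt_exp.2 (by linarith)
  set K : ℝ := 320 * N * Cr * Co * 8 ^ (q + 1) * Real.exp (w / 8 + ka N / 4) with hK
  have hN0 : (0 : ℝ) < N := by
    have : (2 : ℝ) ≤ N := by exact_mod_cast hN2
    linarith
  have hK0 : 0 < K := by positivity
  have hT0e : Real.exp 1 ≤ T0 := (Real.exp_le_exp.2 (by norm_num)).trans hT0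
  refine ⟨max 1 (K * (1 - r)⁻¹), T0, le_max_left _ _, hT0e, ?_⟩
  intro T Z hT hZ
  have hTe : Real.exp 1 ≤ T := hT0e.trans hT
  have hT1 : 1 ≤ T := le_trans (Real.one_le_exp (by norm_num)) hTe
  have hTpos : 0 < T := by linarith
  have hL1 : 1 ≤ Real.log T := by
    rw [Real.le_log_iff_exp_le hTpos]
    exact hTe
  set L : ℝ := Real.log T with hL
  have hLpos : 0 < L := by linarith
  set δ : ℝ := 1 / (8 * L) with hδdef
  have hδ : 0 < δ := by positivity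
  have hδL : δ * (8 * L) = 1 := by
    rw [hδdef]
    field_simp
  have hδ8 : 8 * δ ≤ 1 := by nlinarith
  have hδ8L : 8 * δ = 1 / L := by
    rw [hδdef]
    field_simp
  have hexp : ∀ x : ℝ, T ^ x = Real.exp (L * x) := fun x => by
    rw [Real.rpow_def_of_pos hTpos]
  have hLδ : L * δ = 1 / 8 := by linarith
  -- the row estimate
  have hrow : ∀ i : ℕ, 8 ≤ i → (i : ℝ) * δ ≤ 1 / 2 → ∀ Z' : Finset ℂ,
      (∀ ρ ∈ Z', riemannZeta ρ = 0 ∧ 1 / 2 + i * δ ≤ ρ.re ∧ ρ.re ≤ 1 / 2 + i * δ + δ ∧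
        5 * T / 4 ≤ ρ.im ∧ ρ.im ≤ 5 * T / 2) →
      ∑ ρ ∈ Z', ‖deriv riemannZeta ρ‖ ^ q ≤
        320 * N * Cr * Co * δ ^ (-q - 1) * (T * L ^ (lam ^ 2)) *
          Real.exp (-(ka N * ((i : ℝ) - 2) / 8)) := by
    intro i hi hiδ Z' hZ'
    have hi8 : (8 : ℝ) ≤ i := by exact_mod_cast hi
    have h1 := hCr riemannZeta (fun k => PP N T k) (fun k => AA N T (N - 1 - k)) (AA N T N)
      (1 / 2 + i * δ) δ (5 * T / 4) (5 * T / 2) Z' hδ (by linarith)
      (fun z hz => ⟨Z3_zeta_analytic hz, fun k _ => ⟨PP_analytic N T k hz, AA_analytic N T _ hz⟩,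
        AA_analytic N T N hz, (sum_PP (by omega) T z).symm⟩)
      (fun ρ hρ => ⟨(hZ' ρ hρ).1, fun k _ => by
        rw [AA_zero N T _ (hZ' ρ hρ).1, norm_one], by
        rw [AA_zero N T _ (hZ' ρ hρ).1, norm_one], (hZ' ρ hρ).2⟩)
    rw [← ENNReal.ofReal_sum_of_nonneg (fun ρ _ => by positivity)] at h1
    set E : ℝ := Co * (T * L ^ (lam ^ 2)) * Real.exp (-(ka N * ((i : ℝ) - 2) / 8)) with hE
    have hE0 : 0 ≤ E := by positivity
    have h3 : ∀ k ∈ range N, ∀ a ∈ Set.Icc (-(4 * δ)) (4 * δ), ∀ b ∈ Set.Icc (-(4 * δ)) (4 * δ),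
        ∀ x ∈ Set.Icc (1 / 2 + (i : ℝ) * δ - 2 * δ) (1 / 2 + (i : ℝ) * δ + 3 * δ),
        ∫⁻ y in Set.Icc (5 * T / 4 - 3 * δ) (5 * T / 2 + 3 * δ),
          ENNReal.ofReal (‖PP N T k (x + y * I + (a + b * I))‖ ^ q *
            ‖AA N T (N - 1 - k) (x + y * I)‖ ^ q * ‖AA N T N (x + y * I)‖ ^ (2 * (1 - lam))) ≤
          ENNReal.ofReal E := by
      intro k hk a ha b hb x hx
      rw [Set.mem_Icc] at ha hb hx
      have hx1 : 1 / 2 + ((i : ℝ) - 2) * δ ≤ x := by linarith [hx.1]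
      have hx0 : 1 / 2 ≤ x := by nlinarith
      have hx50 : x ≤ N + 3 := by linarith [hx.2]
      have hab : ‖(a : ℂ) + b * I‖ ≤ 1 / Real.log T := by
        have h5 := norm_add_le (a : ℂ) (b * I)
        rw [norm_mul, Complex.norm_I, mul_one, Complex.norm_real, Complex.norm_real,
          Real.norm_eq_abs, Real.norm_eq_abs] at h5
        have h6 : |a| ≤ 4 * δ := abs_le.2 ha
        have h7 : |b| ≤ 4 * δ := abs_le.2 hb
        rw [← hL, ← hδ8L]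
        linarith
      have h4 := hCo T hT k (Finset.mem_range.1 hk) (a + b * I) hab x hx0 hx50
      have h5 : Set.Icc (5 * T / 4 - 3 * δ) (5 * T / 2 + 3 * δ) ⊆
          Set.Icc (5 * T / 4 - 1) (5 * T / 2 + 1) :=
        Set.Icc_subset_Icc (by linarith) (by linarith)
      refine (lintegral_mono_set h5).trans (le_trans (le_of_eq ?_) (h4.trans ?_))
      · refine lintegral_congr fun y => ?_
        unfold UU
        rfl
      refine ENNReal.ofReal_le_ofReal ?_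
      rw [hE]
      refine mul_le_mul_of_nonneg_left ?_ (by positivity)
      rw [hexp]
      refine Real.exp_le_exp.2 ?_
      have h6 : ((i : ℝ) - 2) / 8 ≤ L * (x - 1 / 2) := by
        have h7 : L * (((i : ℝ) - 2) * δ) ≤ L * (x - 1 / 2) :=
          mul_le_mul_of_nonneg_left (by linarith) hLpos.le
        have h8 : L * (((i : ℝ) - 2) * δ) = ((i : ℝ) - 2) / 8 := by
          calc L * (((i : ℝ) - 2) * δ) = (L * δ) * ((i : ℝ) - 2) := by ring
            _ = ((i : ℝ) - 2) / 8 := by rw [hLδ]; ring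
        linarith
      have h7 : ka N * (((i : ℝ) - 2) / 8) ≤ ka N * (L * (x - 1 / 2)) :=
        mul_le_mul_of_nonneg_left h6 hka0.le
      have h8 : L * -(ka N * (x - 1 / 2)) = -(ka N * (L * (x - 1 / 2))) := by ring
      rw [h8]
      linarith
    have hconst : ∀ (u v c : ℝ) (F : ℝ → ENNReal), u ≤ v → 0 ≤ c →
        (∀ x ∈ Set.Icc u v, F x ≤ ENNReal.ofReal c) →
        ∫⁻ x in Set.Icc u v, F x ≤ ENNReal.ofReal (c * (v - u)) := by
      intro u v c F huv hc hF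
      refine (setLIntegral_mono' measurableSet_Icc hF).trans (le_of_eq ?_)
      rw [setLIntegral_const, Real.volume_Icc, ENNReal.ofReal_mul hc]
    have h4 : ∀ k ∈ range N, ∫⁻ a in Set.Icc (-(4 * δ)) (4 * δ),
        ∫⁻ b in Set.Icc (-(4 * δ)) (4 * δ),
        ∫⁻ x in Set.Icc (1 / 2 + (i : ℝ) * δ - 2 * δ) (1 / 2 + (i : ℝ) * δ + 3 * δ),
        ∫⁻ y in Set.Icc (5 * T / 4 - 3 * δ) (5 * T / 2 + 3 * δ),
          ENNReal.ofReal (‖PP N T k (x + y * I + (a + b * I))‖ ^ q *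
            ‖AA N T (N - 1 - k) (x + y * I)‖ ^ q * ‖AA N T N (x + y * I)‖ ^ (2 * (1 - lam))) ≤
          ENNReal.ofReal (320 * δ ^ 3 * E) := by
      intro k hk
      have h5 : 320 * δ ^ 3 * E = E * (1 / 2 + (i : ℝ) * δ + 3 * δ - (1 / 2 + (i : ℝ) * δ - 2 * δ)) *
          (4 * δ - -(4 * δ)) * (4 * δ - -(4 * δ)) := by ring
      rw [h5]
      have h6 : 0 ≤ E * (1 / 2 + (i : ℝ) * δ + 3 * δ - (1 / 2 + (i : ℝ) * δ - 2 * δ)) :=
        mul_nonneg hE0 (by linarith)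
      refine hconst _ _ _ _ (by linarith) (mul_nonneg h6 (by linarith)) fun a ha => ?_
      refine hconst _ _ _ _ (by linarith) h6 fun b hb => ?_
      refine hconst _ _ _ _ (by linarith) hE0 fun x hx => ?_
      exact h3 k hk a ha b hb x hx
    have h5 : ENNReal.ofReal (∑ ρ ∈ Z', ‖deriv riemannZeta ρ‖ ^ q) ≤
        ENNReal.ofReal (Cr * δ ^ (-q - 4) * (N * (320 * δ ^ 3 * E))) := by
      rw [ENNReal.ofReal_mul (by positivity : 0 ≤ Cr * δ ^ (-q - 4))]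
      refine h1.trans ?_
      refine mul_le_mul_right ?_ _
      refine (Finset.sum_le_sum h4).trans (le_of_eq ?_)
      rw [Finset.sum_const, Finset.card_range, nsmul_eq_mul, ENNReal.ofReal_mul hN0.le,
        ENNReal.ofReal_natCast]
    have h6 := (ENNReal.ofReal_le_ofReal_iff (by positivity)).1 h5
    refine h6.trans (le_of_eq ?_)
    have h7 : δ ^ (-q - 4) * δ ^ 3 = δ ^ (-q - 1) := by
      rw [show (-q - 1 : ℝ) = (-q - 4) + (3 : ℕ) by push_cast; ring, Real.rpow_add_natCast hδ.ne']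
    rw [hE, ← h7]
    ring
  -- the rows
  classical
  set ix : ℂ → ℕ := fun ρ => ⌊8 * L * (ρ.re - 1 / 2)⌋₊ with hix
  have hixle : ∀ ρ ∈ Z, 8 ≤ ix ρ ∧ (ix ρ : ℝ) * δ ≤ ρ.re - 1 / 2 ∧
      ρ.re - 1 / 2 ≤ ((ix ρ : ℝ) + 1) * δ := by
    intro ρ hρ
    obtain ⟨-, h2, -, -, -⟩ := hZ ρ hρ
    have h3 : 8 ≤ 8 * L * (ρ.re - 1 / 2) := by
      have h4 : 1 / L < ρ.re - 1 / 2 := by linarith
      rw [div_lt_iff₀ hLpos] at h4
      linarith
    have h5 : (ix ρ : ℝ) ≤ 8 * L * (ρ.re - 1 / 2) := Nat.floor_le (by linarith)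
    have h6 : 8 * L * (ρ.re - 1 / 2) < (ix ρ : ℝ) + 1 := Nat.lt_floor_add_one _
    refine ⟨?_, ?_, ?_⟩
    · exact Nat.le_floor (by exact_mod_cast h3)
    · have h7 := mul_le_mul_of_nonneg_right h5 hδ.le
      have h8 : 8 * L * (ρ.re - 1 / 2) * δ = ρ.re - 1 / 2 := by
        calc 8 * L * (ρ.re - 1 / 2) * δ = (δ * (8 * L)) * (ρ.re - 1 / 2) := by ring
          _ = ρ.re - 1 / 2 := by rw [hδL, one_mul]
      linarith
    · have h7 := mul_le_mul_of_nonneg_right h6.le hδ.le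
      have h8 : 8 * L * (ρ.re - 1 / 2) * δ = ρ.re - 1 / 2 := by
        calc 8 * L * (ρ.re - 1 / 2) * δ = (δ * (8 * L)) * (ρ.re - 1 / 2) := by ring
          _ = ρ.re - 1 / 2 := by rw [hδL, one_mul]
      linarith
  set R : Finset ℕ := Z.image ix with hR
  have hsum : ∑ ρ ∈ Z, T ^ (om * (ρ.re - 1 / 2)) * ‖deriv riemannZeta ρ‖ ^ q =
      ∑ i ∈ R, ∑ ρ ∈ Z.filter (fun ρ => ix ρ = i),
        T ^ (om * (ρ.re - 1 / 2)) * ‖deriv riemannZeta ρ‖ ^ q := by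
    rw [Finset.sum_fiberwise_of_maps_to]
    intro ρ hρ
    exact Finset.mem_image_of_mem _ hρ
  have hδq : δ ^ (-q - 1) = 8 ^ (q + 1) * L ^ (q + 1) := by
    rw [hδdef, one_div, Real.inv_rpow (by positivity), ← Real.rpow_neg (by positivity),
      show -(-q - 1) = q + 1 by ring, Real.mul_rpow (by norm_num) hLpos.le]
  have hfib : ∀ i ∈ R, ∑ ρ ∈ Z.filter (fun ρ => ix ρ = i),
      T ^ (om * (ρ.re - 1 / 2)) * ‖deriv riemannZeta ρ‖ ^ q ≤
        K * (T * L ^ ((lam + 1) ^ 2)) * r ^ i := by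
    intro i hi
    rw [hR, Finset.mem_image] at hi
    obtain ⟨ρ0, hρ0, hρi⟩ := hi
    obtain ⟨hi8, hi1, hi2⟩ := hixle ρ0 hρ0
    rw [hρi] at hi8 hi1 hi2
    have hiδ : (i : ℝ) * δ ≤ 1 / 2 := by
      have := (hZ ρ0 hρ0).2.2.1
      linarith
    have h1 := hrow i hi8 hiδ (Z.filter (fun ρ => ix ρ = i)) (by
      intro ρ hρ
      rw [Finset.mem_filter] at hρ
      obtain ⟨h3, h4⟩ := hρ
      obtain ⟨h5, h6, h7, h8, h9⟩ := hZ ρ h3
      obtain ⟨h10, h11, h12⟩ := hixle ρ h3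
      rw [h4] at h11 h12
      exact ⟨h5, by linarith, by linarith, h8, h9⟩)
    have h2 : ∑ ρ ∈ Z.filter (fun ρ => ix ρ = i), T ^ (om * (ρ.re - 1 / 2)) * ‖deriv riemannZeta ρ‖ ^ q ≤
        Real.exp (w * ((i : ℝ) + 1) / 8) *
          ∑ ρ ∈ Z.filter (fun ρ => ix ρ = i), ‖deriv riemannZeta ρ‖ ^ q := by
      rw [Finset.mul_sum]
      refine Finset.sum_le_sum fun ρ hρ => ?_
      rw [Finset.mem_filter] at hρ
      obtain ⟨h3, h4⟩ := hρ
      obtain ⟨h10, h11, h12⟩ := hixle ρ h3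
      rw [h4] at h11 h12
      refine mul_le_mul_of_nonneg_right ?_ (by positivity)
      rw [hexp]
      refine Real.exp_le_exp.2 ?_
      have h5 : L * (ρ.re - 1 / 2) ≤ ((i : ℝ) + 1) / 8 := by
        have h6 := mul_le_mul_of_nonneg_left h12 hLpos.le
        have h7 : L * (((i : ℝ) + 1) * δ) = ((i : ℝ) + 1) / 8 := by
          calc L * (((i : ℝ) + 1) * δ) = (L * δ) * ((i : ℝ) + 1) := by ring
            _ = ((i : ℝ) + 1) / 8 := by rw [hLδ]; ring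
        linarith
      have h50 : 0 ≤ L * (ρ.re - 1 / 2) := by
        have h7 : 0 ≤ (i : ℝ) * δ := by positivity
        exact mul_nonneg hLpos.le (by linarith)
      calc L * (om * (ρ.re - 1 / 2)) = om * (L * (ρ.re - 1 / 2)) := by ring
        _ ≤ w * (L * (ρ.re - 1 / 2)) := mul_le_mul_of_nonneg_right hwom h50
        _ ≤ w * (((i : ℝ) + 1) / 8) := mul_le_mul_of_nonneg_left h5 hw0
        _ = w * ((i : ℝ) + 1) / 8 := by ring
    refine h2.trans ((mul_le_mul_of_nonneg_left h1 (Real.exp_pos _).le).trans (le_of_eq ?_))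
    have h3 : L ^ ((lam + 1) ^ 2) = L ^ (q + 1) * L ^ (lam ^ 2) := by
      rw [← Real.rpow_add hLpos]
      congr 1
      rw [hqdef]
      ring
    have h4 : r ^ i = Real.exp (-((ka N - w) / 8) * i) := by
      rw [hr, ← Real.exp_nat_mul]
      congr 1
      ring
    have h5 : Real.exp (w * ((i : ℝ) + 1) / 8) * Real.exp (-(ka N * ((i : ℝ) - 2) / 8)) =
        Real.exp (w / 8 + ka N / 4) * Real.exp (-((ka N - w) / 8) * i) := by
      rw [← Real.exp_add, ← Real.exp_add]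
      congr 1
      ring
    rw [h3, h4, hδq, hK]
    calc Real.exp (w * ((i : ℝ) + 1) / 8) * (320 * N * Cr * Co * (8 ^ (q + 1) * L ^ (q + 1)) *
          (T * L ^ (lam ^ 2)) * Real.exp (-(ka N * ((i : ℝ) - 2) / 8)))
        = 320 * N * Cr * Co * (8 ^ (q + 1) * L ^ (q + 1)) * (T * L ^ (lam ^ 2)) *
          (Real.exp (w * ((i : ℝ) + 1) / 8) * Real.exp (-(ka N * ((i : ℝ) - 2) / 8))) := by ring
      _ = _ := by rw [h5]; ring
  rw [hsum]
  refine (Finset.sum_le_sum hfib).trans ?_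
  rw [← Finset.mul_sum]
  have hgeo : ∑ i ∈ R, r ^ i ≤ (1 - r)⁻¹ := by
    have h1 := (summable_geometric_of_lt_one hr0.le hr1).sum_le_tsum R (fun i _ => by positivity)
    rwa [tsum_geometric_of_lt_one hr0.le hr1] at h1
  have hX0 : 0 ≤ T * L ^ ((lam + 1) ^ 2) := by positivity
  calc K * (T * L ^ ((lam + 1) ^ 2)) * ∑ i ∈ R, r ^ i
      ≤ K * (T * L ^ ((lam + 1) ^ 2)) * (1 - r)⁻¹ := by gcongr
    _ = K * (1 - r)⁻¹ * (T * L ^ ((lam + 1) ^ 2)) := by ring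
    _ ≤ max 1 (K * (1 - r)⁻¹) * (T * L ^ ((lam + 1) ^ 2)) :=
        mul_le_mul_of_nonneg_right (le_max_right _ _) hX0

end Pool.Agent.UV
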